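import Mathlib

open MeasureTheory ProbabilityTheory Set Filter Topology
open scoped NNReal ENNReal

namespace Pool.Agent.H4.BM

/-- Paths: continuous functions on `ℝ` that vanish on `(-∞, 0]`. -/
structure Pth where
  /-- the function -/
  toFun : ℝ → ℝ
  cont : Continuous toFun
  nonpos : ∀ t ≤ 0, toFun t = 0

namespace Pth

instance : CoeFun Pth (fun _ => ℝ → ℝ) := ⟨Pth.toFun⟩

instance : MeasurableSpace Pth := MeasurableSpace.comap Pth.toFun inferInstance

lemma continuous (A : Pth) : Continuous (A : ℝ → ℝ) := A.cont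

lemma of_nonpos (A : Pth) {t : ℝ} (ht : t ≤ 0) : A t = 0 := A.nonpos t ht

@[simp] lemma zero (A : Pth) : A 0 = 0 := A.nonpos 0 le_rfl

lemma toFun_injective : Function.Injective Pth.toFun := by
  rintro ⟨f, _, _⟩ ⟨g, _, _⟩ h
  simp only at h
  subst h
  rfl

@[ext] lemma ext {A B : Pth} (h : ∀ t, A t = B t) : A = B := toFun_injective (funext h)

lemma ext_pos {A B : Pth} (h : ∀ t, 0 ≤ t → A t = B t) : A = B := by
  ext t
  rcases le_total 0 t with ht | ht
  · exact h t ht
  · rw [A.of_nonpos ht, B.of_nonpos ht]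

instance : Inhabited Pth := ⟨⟨fun _ => 0, continuous_const, fun _ _ => rfl⟩⟩

lemma measurable_toFun : Measurable Pth.toFun := comap_measurable _

variable {Ω : Type*} [MeasurableSpace Ω]

lemma measurable_of_eval {Φ : Ω → Pth} (h : ∀ t, Measurable fun ω => Φ ω t) : Measurable Φ :=
  measurable_comap_iff.2 (measurable_pi_iff.2 h)

lemma measurable_of_eval_pos {Φ : Ω → Pth} (h : ∀ t, 0 ≤ t → Measurable fun ω => Φ ω t) :
    Measurable Φ := by
  refine measurable_of_eval fun t => ?_
  rcases le_total 0 t with ht | ht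
  · exact h t ht
  · have : (fun ω => Φ ω t) = fun _ => (0 : ℝ) := by
      ext ω
      exact (Φ ω).of_nonpos ht
    rw [this]
    exact measurable_const

lemma measurable_apply (t : ℝ) : Measurable (fun A : Pth => A t) :=
  (measurable_pi_apply t).comp measurable_toFun

lemma measurable_eval2 : Measurable (fun p : ℝ × Pth => p.2 p.1) := by
  have := measurable_uncurry_of_continuous_of_measurable (u := fun (t : ℝ) (A : Pth) => A t)
    (fun A => A.continuous) (fun t => measurable_apply t)
  exact this

lemma measurable_eval {Φ : Ω → Pth} {τ : Ω → ℝ} (hΦ : Measurable Φ) (hτ : Measurable τ) :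
    Measurable (fun ω => Φ ω (τ ω)) :=
  measurable_eval2.comp (hτ.prodMk hΦ)

/-! ### Operations -/

/-- follow `A` until time `c`, then the increments of `B` -/
def cat (c : ℝ≥0) (A B : Pth) : Pth :=
  ⟨fun t => A (min t c) + B (t - c), by
    have := A.continuous
    have := B.continuous
    fun_prop, fun t ht => by
    rw [A.of_nonpos ((min_le_left _ _).trans ht), B.of_nonpos (by linarith [c.2]), add_zero]⟩

/-- the path `A` seen from time `c` backwards, then the increments of `B` -/
def glue (c : ℝ≥0) (A B : Pth) : Pth :=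
  ⟨fun t => A (c - max t 0) - A c + B (t - c), by
    have := A.continuous
    have := B.continuous
    fun_prop, fun t ht => by
    rw [max_eq_right ht, B.of_nonpos (by linarith [c.2])]
    ring_nf⟩

/-- the path `A` seen from time `c` -/
def shift (c : ℝ≥0) (A : Pth) : Pth :=
  ⟨fun t => A (c + max t 0) - A c, by
    have := A.continuous
    fun_prop, fun t ht => by
    rw [max_eq_right ht]
    ring_nf⟩

/-- stop at time `c` -/
def stop (c : ℝ≥0) (A : Pth) : Pth :=
  ⟨fun t => A (min t c), by
    have := A.continuous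
    fun_prop, fun t ht => A.of_nonpos ((min_le_left _ _).trans ht)⟩

lemma cat_apply (c : ℝ≥0) (A B : Pth) (t : ℝ) : cat c A B t = A (min t c) + B (t - c) := rfl
lemma glue_apply (c : ℝ≥0) (A B : Pth) (t : ℝ) :
    glue c A B t = A (c - max t 0) - A c + B (t - c) := rfl
lemma shift_apply (c : ℝ≥0) (A : Pth) (t : ℝ) : shift c A t = A (c + max t 0) - A c := rfl
lemma stop_apply (c : ℝ≥0) (A : Pth) (t : ℝ) : stop c A t = A (min t c) := rfl

lemma cat_apply_of_le {c : ℝ≥0} (A B : Pth) {t : ℝ} (ht : t ≤ c) : cat c A B t = A t := by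
  rw [cat_apply, min_eq_left ht, B.of_nonpos (by linarith), add_zero]

lemma cat_apply_of_ge {c : ℝ≥0} (A B : Pth) {t : ℝ} (ht : (c : ℝ) ≤ t) :
    cat c A B t = A c + B (t - c) := by
  rw [cat_apply, min_eq_right ht]

lemma glue_apply_of_le {c : ℝ≥0} (A B : Pth) {t : ℝ} (h0 : 0 ≤ t) (ht : t ≤ c) :
    glue c A B t = A (c - t) - A c := by
  rw [glue_apply, max_eq_left h0, B.of_nonpos (by linarith), add_zero]

lemma glue_apply_of_ge {c : ℝ≥0} (A B : Pth) {t : ℝ} (ht : (c : ℝ) ≤ t) :
    glue c A B t = - A c + B (t - c) := by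
  rw [glue_apply, max_eq_left (c.2.trans ht), A.of_nonpos (by linarith : (c : ℝ) - t ≤ 0), zero_sub]

lemma shift_apply_of_nonneg (c : ℝ≥0) (A : Pth) {t : ℝ} (ht : 0 ≤ t) :
    shift c A t = A (c + t) - A c := by
  rw [shift_apply, max_eq_left ht]

lemma measurable_cat {c : Ω → ℝ≥0} {A B : Ω → Pth} (hc : Measurable c) (hA : Measurable A)
    (hB : Measurable B) : Measurable (fun ω => cat (c ω) (A ω) (B ω)) := by
  refine measurable_of_eval fun t => ?_
  simp only [cat_apply]
  exact (measurable_eval hA (by fun_prop)).add (measurable_eval hB (by fun_prop))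

lemma measurable_glue {c : Ω → ℝ≥0} {A B : Ω → Pth} (hc : Measurable c) (hA : Measurable A)
    (hB : Measurable B) : Measurable (fun ω => glue (c ω) (A ω) (B ω)) := by
  refine measurable_of_eval fun t => ?_
  simp only [glue_apply]
  exact ((measurable_eval hA (by fun_prop)).sub (measurable_eval hA (by fun_prop))).add
    (measurable_eval hB (by fun_prop))

lemma measurable_shift {c : Ω → ℝ≥0} {A : Ω → Pth} (hc : Measurable c) (hA : Measurable A) :
    Measurable (fun ω => shift (c ω) (A ω)) := by
  refine measurable_of_eval fun t => ?_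
  simp only [shift_apply]
  exact (measurable_eval hA (by fun_prop)).sub (measurable_eval hA (by fun_prop))

lemma measurable_stop {c : Ω → ℝ≥0} {A : Ω → Pth} (hc : Measurable c) (hA : Measurable A) :
    Measurable (fun ω => stop (c ω) (A ω)) := by
  refine measurable_of_eval fun t => ?_
  simp only [stop_apply]
  exact measurable_eval hA (by fun_prop)

lemma shift_cat (c : ℝ≥0) (A B : Pth) : shift c (cat c A B) = B := by
  refine ext_pos fun t ht => ?_
  rw [shift_apply_of_nonneg _ _ ht, cat_apply_of_ge _ _ (by linarith), cat_apply_of_le _ _ le_rfl]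
  ring_nf

lemma shift_glue (c : ℝ≥0) (A B : Pth) : shift c (glue c A B) = B := by
  refine ext_pos fun t ht => ?_
  rw [shift_apply_of_nonneg _ _ ht, glue_apply_of_ge _ _ (by linarith),
    glue_apply_of_ge _ _ le_rfl]
  rw [show (c : ℝ) + t - c = t by ring, show (c : ℝ) - c = 0 by ring, B.zero]
  ring

lemma cat_shift (c : ℝ≥0) (A : Pth) : cat c A (shift c A) = A := by
  refine ext_pos fun t ht => ?_
  rcases le_total t c with h | h
  · rw [cat_apply_of_le _ _ h]
  · rw [cat_apply_of_ge _ _ h, shift_apply_of_nonneg _ _ (by linarith)]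
    ring_nf

lemma cat_stop (c : ℝ≥0) (A B : Pth) : cat c (stop c A) B = cat c A B := by
  ext t
  rw [cat_apply, cat_apply, stop_apply, min_assoc, min_self]

lemma glue_stop (c : ℝ≥0) (A B : Pth) : glue c (stop c A) B = glue c A B := by
  ext t
  rw [glue_apply, glue_apply, stop_apply, stop_apply, min_self,
    min_eq_left (by linarith [le_max_right t 0])]

lemma shift_shift (a b : ℝ≥0) (A : Pth) : shift a (shift b A) = shift (a + b) A := by
  refine ext_pos fun t ht => ?_
  rw [shift_apply_of_nonneg _ _ ht, shift_apply_of_nonneg _ _ (by positivity),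
    shift_apply_of_nonneg _ _ (by positivity), shift_apply_of_nonneg _ _ ht]
  push_cast
  ring_nf

lemma stop_cat {c d : ℝ≥0} (h : c ≤ d) (A B : Pth) : stop c (cat d A B) = stop c A := by
  ext t
  rw [stop_apply, stop_apply, cat_apply_of_le _ _ ((min_le_right _ _).trans (by exact_mod_cast h))]

end Pth

end Pool.Agent.H4.BM
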