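import Mathlib
import Pool.Agent.H4.BM.Path

open MeasureTheory Set Filter Topology
open scoped NNReal ENNReal

namespace Pool.Agent.H4.BM

/-- first point of `[a, b]` at which `Z` attains its maximum over `[a, b]` -/
noncomputable def FA (Z : ℝ → ℝ) (a b : ℝ) : ℝ := sInf {t | t ∈ Icc a b ∧ ∀ s ∈ Icc a b, Z s ≤ Z t}

section
variable {Z : ℝ → ℝ} {a b : ℝ}

lemma FA_mem (hZ : Continuous Z) (hab : a ≤ b) :
    FA Z a b ∈ Icc a b ∧ ∀ s ∈ Icc a b, Z s ≤ Z (FA Z a b) := by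
  have hne : {t | t ∈ Icc a b ∧ ∀ s ∈ Icc a b, Z s ≤ Z t}.Nonempty := by
    obtain ⟨t, ht, h⟩ := isCompact_Icc.exists_isMaxOn (nonempty_Icc.2 hab) hZ.continuousOn
    exact ⟨t, ht, fun s hs => h hs⟩
  have hcl : IsClosed {t | t ∈ Icc a b ∧ ∀ s ∈ Icc a b, Z s ≤ Z t} := by
    have : {t | t ∈ Icc a b ∧ ∀ s ∈ Icc a b, Z s ≤ Z t} =
        Icc a b ∩ ⋂ s ∈ Icc a b, {t | Z s ≤ Z t} := by
      ext t
      simp
    rw [this]
    exact isClosed_Icc.inter (isClosed_biInter fun s _ => isClosed_le continuous_const hZ)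
  exact hcl.csInf_mem hne ⟨a, fun t ht => ht.1.1⟩

lemma FA_le {t : ℝ} (ht : t ∈ Icc a b) (h : ∀ s ∈ Icc a b, Z s ≤ Z t) : FA Z a b ≤ t :=
  csInf_le ⟨a, fun _ ht => ht.1.1⟩ ⟨ht, h⟩

lemma lt_FA (hZ : Continuous Z) {t : ℝ} (ht : t ∈ Icc a b) (h : t < FA Z a b) :
    Z t < Z (FA Z a b) := by
  have hab : a ≤ b := ht.1.trans ht.2
  by_contra hc
  push Not at hc
  exact absurd (FA_le ht fun s hs => ((FA_mem hZ hab).2 s hs).trans hc) (not_le.2 h)

lemma FA_eq (hZ : Continuous Z) {ρ : ℝ} (h1 : ρ ∈ Icc a b) (h2 : ∀ s ∈ Icc a b, Z s ≤ Z ρ)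
    (h3 : ∀ s, a ≤ s → s < ρ → Z s < Z ρ) : FA Z a b = ρ := by
  have hab : a ≤ b := h1.1.trans h1.2
  refine le_antisymm (FA_le h1 h2) ?_
  by_contra hc
  push Not at hc
  have := h3 _ (FA_mem hZ hab).1.1 hc
  exact absurd ((FA_mem hZ hab).2 ρ h1) (not_le.2 this)

lemma FA_congr {Z' : ℝ → ℝ} (c : ℝ) (h : ∀ t ∈ Icc a b, Z t = Z' t + c) : FA Z a b = FA Z' a b := by
  unfold FA
  congr 1
  ext t
  simp only [mem_ofPred_eq]
  refine and_congr_right fun ht => forall₂_congr fun s hs => ?_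
  rw [h t ht, h s hs]
  constructor <;> intro h <;> linarith

/-- the first argmax over a smaller window containing it in its interior -/
lemma FA_sub (hZ : Continuous Z) {p q : ℝ} (hap : a ≤ p) (hqb : q ≤ b) (h1 : p ≤ FA Z a b)
    (h2 : FA Z a b ≤ q) : FA Z p q = FA Z a b := by
  have hab : a ≤ b := hap.trans (h1.trans (h2.trans hqb))
  refine FA_eq hZ ⟨h1, h2⟩ (fun s hs => (FA_mem hZ hab).2 s ⟨hap.trans hs.1, hs.2.trans hqb⟩)
    fun s hs hs' => lt_FA hZ ⟨hap.trans hs, (hs'.le.trans h2).trans hqb⟩ hs'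

lemma FA_translate (hZ : Continuous Z) {Z' : ℝ → ℝ} (hZ' : Continuous Z') (hab : a ≤ b) (d c : ℝ)
    (h : ∀ t ∈ Icc a b, Z' (t + d) = Z t + c) : FA Z' (a + d) (b + d) = FA Z a b + d := by
  have hm := FA_mem hZ hab
  refine FA_eq hZ' ⟨by linarith [hm.1.1], by linarith [hm.1.2]⟩ (fun s hs => ?_) fun s hs hs' => ?_
  · have h1 := h _ hm.1
    have h2 := h (s - d) ⟨by linarith [hs.1], by linarith [hs.2]⟩
    rw [sub_add_cancel] at h2
    have := hm.2 (s - d) ⟨by linarith [hs.1], by linarith [hs.2]⟩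
    rw [h1, h2]
    linarith
  · have h1 := h _ hm.1
    have h2 := h (s - d) ⟨by linarith, by linarith [hm.1.2]⟩
    rw [sub_add_cancel] at h2
    have hlt : s - d < FA Z a b := by linarith
    have := lt_FA hZ (t := s - d) ⟨by linarith, by linarith [hm.1.2]⟩ hlt
    rw [h1, h2]
    linarith

end

section meas
variable {Ω : Type*} [MeasurableSpace Ω]

lemma FA_le_iff {Z : ℝ → ℝ} (hZ : Continuous Z) {a b c : ℝ} (hac : a ≤ c) (hcb : c ≤ b) :
    FA Z a b ≤ c ↔ ∀ (q : ℚ) (n : ℕ), (0 : ℝ) ≤ q → (q : ℝ) ≤ 1 →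
      ∃ r : ℚ, (0 : ℝ) ≤ r ∧ (r : ℝ) ≤ 1 ∧
        Z (a + (b - a) * q) - 1 / (n + 1) < Z (a + (c - a) * r) := by
  have hab := hac.trans hcb
  constructor
  · intro h q n hq0 hq1
    have hm := FA_mem hZ hab
    have hs : a + (b - a) * q ∈ Icc a b := by
      constructor
      · nlinarith
      · nlinarith
    have h1 := hm.2 _ hs
    -- the argmax is a + (c - a) x with x in [0,1]
    obtain ⟨x, hx0, hx1, hx⟩ : ∃ x : ℝ, 0 ≤ x ∧ x ≤ 1 ∧ FA Z a b = a + (c - a) * x := by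
      rcases hac.eq_or_lt with h' | h'
      · exact ⟨0, le_rfl, zero_le_one, by linarith [hm.1.1]⟩
      · refine ⟨(FA Z a b - a) / (c - a), div_nonneg (by linarith [hm.1.1]) (by linarith), ?_, ?_⟩
        · rw [div_le_one (by linarith)]
          linarith
        · field_simp [show c - a ≠ 0 by linarith]
          ring
    have hcont : Continuous fun r : ℝ => Z (a + (c - a) * r) := by fun_prop
    have hlt : Z (a + (b - a) * q) - 1 / (n + 1) < Z (a + (c - a) * x) := by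
      rw [← hx]
      have : (0 : ℝ) < 1 / (n + 1) := by positivity
      linarith
    have hopen : IsOpen {r : ℝ | Z (a + (b - a) * q) - 1 / (n + 1) < Z (a + (c - a) * r)} :=
      isOpen_lt continuous_const hcont
    -- find a rational close to x inside [0,1]
    have hx' : x ∈ closure (Ioo (0 : ℝ) 1) := by
      rw [closure_Ioo zero_ne_one]
      exact ⟨hx0, hx1⟩
    obtain ⟨y, hy1, hy2⟩ := mem_closure_iff.1 hx' _ hopen hlt
    obtain ⟨z, hz1, hz2⟩ := (Rat.isDenseEmbedding_coe_real.dense).exists_mem_open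
      (hopen.inter isOpen_Ioo) ⟨y, hy1, hy2⟩
    exact ⟨z, hz2.1.le, hz2.2.le, hz1⟩
  · intro h
    obtain ⟨t, ht, hmax⟩ := isCompact_Icc.exists_isMaxOn (nonempty_Icc.2 hac) hZ.continuousOn
    have hmax' : ∀ s ∈ Icc a c, Z s ≤ Z t := fun s hs => hmax hs
    refine (FA_le ⟨ht.1, ht.2.trans hcb⟩ ?_).trans ht.2
    -- show Z s ≤ Z t for all s in [a,b]
    have hq : ∀ q : ℚ, (0 : ℝ) ≤ q → (q : ℝ) ≤ 1 → Z (a + (b - a) * q) ≤ Z t := by
      intro q hq0 hq1
      refine le_of_forall_pos_lt_add fun ε hε => ?_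
      obtain ⟨n, hn⟩ := exists_nat_one_div_lt hε
      obtain ⟨r, hr0, hr1, hr⟩ := h q n hq0 hq1
      have := hmax' (a + (c - a) * r) ⟨by nlinarith, by nlinarith⟩
      linarith
    intro s hs
    rcases hab.eq_or_lt with h' | h'
    · have hsa : s = a := le_antisymm (by linarith [hs.2]) hs.1
      rw [hsa]
      exact hmax' a ⟨le_rfl, hac⟩
    · have hcont : Continuous fun r : ℝ => Z (a + (b - a) * r) := by fun_prop
      have hcl : IsClosed {r : ℝ | Z (a + (b - a) * r) ≤ Z t} := isClosed_le hcont continuous_const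
      have hx : (s - a) / (b - a) ∈ closure (Ioo (0 : ℝ) 1) := by
        rw [closure_Ioo zero_ne_one]
        exact ⟨div_nonneg (by linarith [hs.1]) (by linarith), by
          rw [div_le_one (by linarith)]; linarith [hs.2]⟩
      have hsub : Ioo (0 : ℝ) 1 ⊆ {r : ℝ | Z (a + (b - a) * r) ≤ Z t} := by
        intro x hx
        by_contra hc
        have hopen : IsOpen ({r : ℝ | Z (a + (b - a) * r) ≤ Z t}ᶜ ∩ Ioo 0 1) :=
          hcl.isOpen_compl.inter isOpen_Ioo
        obtain ⟨z, hz1, hz2⟩ := (Rat.isDenseEmbedding_coe_real.dense).exists_mem_open hopen ⟨x, hc, hx⟩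
        exact hz1 (hq z hz2.1.le hz2.2.le)
      have := closure_minimal hsub hcl hx
      simp only [mem_ofPred_eq] at this
      have e : a + (b - a) * ((s - a) / (b - a)) = s := by
        field_simp [show b - a ≠ 0 by linarith]
        ring
      rwa [e] at this

lemma measurable_FA {Z : Ω → ℝ → ℝ} (hc : ∀ ω, Continuous (Z ω)) (hm : ∀ t, Measurable fun ω => Z ω t)
    {a b : ℝ} (hab : a ≤ b) : Measurable (fun ω => FA (Z ω) a b) := by
  refine measurable_of_Iic fun c => ?_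
  rcases lt_or_ge c a with h | hac
  · have : (fun ω => FA (Z ω) a b) ⁻¹' Iic c = ∅ := by
      ext ω
      simp only [mem_preimage, mem_Iic, mem_empty_iff_false, iff_false, not_le]
      exact h.trans_le (FA_mem (hc ω) hab).1.1
    rw [this]
    exact MeasurableSet.empty
  rcases lt_or_ge b c with h | hcb
  · have : (fun ω => FA (Z ω) a b) ⁻¹' Iic c = univ := by
      ext ω
      simp only [mem_preimage, mem_Iic, mem_univ, iff_true]
      exact (FA_mem (hc ω) hab).1.2.trans h.le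
    rw [this]
    exact MeasurableSet.univ
  have : (fun ω => FA (Z ω) a b) ⁻¹' Iic c = ⋂ (q : ℚ) (n : ℕ) (_ : (0 : ℝ) ≤ q) (_ : (q : ℝ) ≤ 1),
      ⋃ (r : ℚ) (_ : (0 : ℝ) ≤ r) (_ : (r : ℝ) ≤ 1),
        {ω | Z ω (a + (b - a) * q) - 1 / (n + 1) < Z ω (a + (c - a) * r)} := by
    ext ω
    simp only [mem_preimage, mem_Iic, FA_le_iff (hc ω) hac hcb, mem_iInter, mem_iUnion, mem_ofPred_eq,
      exists_prop]
  rw [this]
  refine MeasurableSet.iInter fun q => MeasurableSet.iInter fun n => MeasurableSet.iInter fun _ =>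
    MeasurableSet.iInter fun _ => MeasurableSet.iUnion fun r => MeasurableSet.iUnion fun _ =>
      MeasurableSet.iUnion fun _ => measurableSet_lt ((hm _).sub_const _) (hm _)

end meas

end Pool.Agent.H4.BM
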