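import Mathlib
import Pool.Agent.H4.BM.Path

open MeasureTheory ProbabilityTheory Set Filter Topology
open scoped NNReal ENNReal

namespace Pool.Agent.H4.BM

open Pth

/-- `W` is Wiener measure on the path space. -/
def IsW (W : Measure Pth) : Prop := IsPreBrownianReal (fun (t : ℝ≥0) (A : Pth) => A t) W

section basic

variable {W : Measure Pth}

lemma IsW.prob (hW : IsW W) : IsProbabilityMeasure W :=
  IsPreBrownianReal.isGaussianProcess hW |>.isProbabilityMeasure

lemma measurable_restr : Measurable (fun (A : Pth) (t : ℝ≥0) => A t) :=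
  measurable_pi_iff.2 fun _ => measurable_apply _

lemma IsW.ext {μ ν : Measure Pth} (hμ : IsW μ) (hν : IsW ν) : μ = ν := by
  have h1 : μ.map (fun (A : Pth) (t : ℝ≥0) => A t) = ν.map (fun (A : Pth) (t : ℝ≥0) => A t) := by
    have hp : ∀ {κ : Measure Pth}, IsW κ → IsProjectiveLimit (κ.map (fun (A : Pth) (t : ℝ≥0) => A t))
        BrownianReal.projectiveFamily := by
      intro κ hκ I
      rw [Measure.map_map (by fun_prop) measurable_restr]
      exact (hκ.hasLaw I).map_eq
    exact (hp hμ).unique (hp hν)
  ext s hs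
  obtain ⟨S, hS, rfl⟩ := hs
  have he : Measurable (fun (g : ℝ≥0 → ℝ) (t : ℝ) => g t.toNNReal) :=
    measurable_pi_iff.2 fun t => measurable_pi_apply _
  have h2 : (Pth.toFun ⁻¹' S : Set Pth) =
      (fun (A : Pth) (t : ℝ≥0) => A t) ⁻¹' ((fun (g : ℝ≥0 → ℝ) (t : ℝ) => g t.toNNReal) ⁻¹' S) := by
    ext A
    have : (fun t : ℝ => A (t.toNNReal : ℝ)) = A.toFun := by
      funext t
      rcases le_total 0 t with h | h
      · rw [Real.coe_toNNReal _ h]
      · rw [A.of_nonpos h, Real.toNNReal_of_nonpos h, NNReal.coe_zero, A.zero]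
    change A.toFun ∈ S ↔ (fun t : ℝ => A (t.toNNReal : ℝ)) ∈ S
    rw [this]
  rw [h2, ← Measure.map_apply measurable_restr (he hS), h1,
    Measure.map_apply measurable_restr (he hS)]

variable {Ω : Type*} [MeasurableSpace Ω] {P : Measure Ω}

lemma measurable_restrI (I : Finset ℝ≥0) :
    Measurable (fun (A : Pth) => I.restrict (fun t : ℝ≥0 => A (t : ℝ))) :=
  measurable_pi_iff.2 fun _ => measurable_apply _

lemma isW_map {Φ : Ω → Pth} (hΦ : Measurable Φ)
    (h : IsPreBrownianReal (fun (t : ℝ≥0) ω => Φ ω t) P) : IsW (P.map Φ) where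
  hasLaw I := by
    constructor
    · exact (measurable_restrI I).aemeasurable
    · rw [Measure.map_map (measurable_restrI I) hΦ]
      exact (h.hasLaw I).map_eq

lemma IsW.map_eq (hW : IsW W) {Φ : Ω → Pth} (hΦ : Measurable Φ)
    (h : IsPreBrownianReal (fun (t : ℝ≥0) ω => Φ ω t) P) : P.map Φ = W :=
  (isW_map hΦ h).ext hW

/-- a random path with law `W` is a Brownian motion -/
lemma isBrownian_of_map_eq (hW : IsW W) {Φ : Ω → Pth} (hΦ : Measurable Φ) (h : P.map Φ = W) :
    IsBrownianReal (fun (t : ℝ≥0) ω => Φ ω t) P where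
  hasLaw I := by
    subst h
    constructor
    · exact ((measurable_restrI I).comp hΦ).aemeasurable
    · have := (hW.hasLaw I).map_eq
      rw [Measure.map_map (measurable_restrI I) hΦ] at this
      exact this
  cont := Eventually.of_forall fun ω => (Φ ω).continuous.comp NNReal.continuous_coe

end basic

section identities

variable {W : Measure Pth} (hW : IsW W)
include hW

lemma map_shift (c : ℝ≥0) : W.map (shift c) = W := by
  refine hW.map_eq (measurable_shift measurable_const measurable_id) ?_
  have h := IsPreBrownianReal.shift hW c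
  have e : (fun (t : ℝ≥0) (A : Pth) => shift c A t) =
      fun (t : ℝ≥0) (A : Pth) => A ((c + t : ℝ≥0) : ℝ) - A c := by
    funext t A
    rw [shift_apply_of_nonneg _ _ t.coe_nonneg]
    push_cast
    rfl
  rw [e]
  exact h

lemma indep_stop_shift (c : ℝ≥0) : IndepFun (stop c) (shift c) W := by
  have h := IsPreBrownianReal.indepFun_shift hW c
  -- express both as measurable functions
  have m1 : Measurable (fun (g : Iic c → ℝ) (t : ℝ) => g ⟨min t.toNNReal c, mem_Iic.2 (min_le_right _ _)⟩) :=
    measurable_pi_iff.2 fun t =>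
      measurable_pi_apply (⟨min t.toNNReal c, mem_Iic.2 (min_le_right _ _)⟩ : Iic c)
  have m2 : Measurable (fun (g : ℝ≥0 → ℝ) (t : ℝ) => g t.toNNReal) :=
    measurable_pi_iff.2 fun t => measurable_pi_apply _
  have h' := h.symm.comp m1 m2
  have e1 : Pth.toFun ∘ stop c = (fun (g : Iic c → ℝ) (t : ℝ) => g ⟨min t.toNNReal c, mem_Iic.2 (min_le_right _ _)⟩) ∘
      (fun (ω : Pth) (t : Iic c) => ω (t : ℝ≥0)) := by
    funext A t
    simp only [Function.comp_apply]
    change stop c A t = _
    rw [stop_apply, NNReal.coe_min]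
    rcases le_total 0 t with ht | ht
    · rw [Real.coe_toNNReal _ ht]
    · rw [Real.toNNReal_of_nonpos ht, A.of_nonpos ((min_le_left _ _).trans ht), NNReal.coe_zero,
        A.of_nonpos (min_le_left _ _)]
  have e2 : Pth.toFun ∘ shift c = (fun (g : ℝ≥0 → ℝ) (t : ℝ) => g t.toNNReal) ∘
      (fun (ω : Pth) (t : ℝ≥0) => ω ((c + t : ℝ≥0) : ℝ) - ω c) := by
    funext A t
    simp only [Function.comp_apply]
    change shift c A t = _
    rw [shift_apply, NNReal.coe_add]
    rcases le_total 0 t with ht | ht
    · rw [Real.coe_toNNReal _ ht, max_eq_left ht]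
    · rw [Real.toNNReal_of_nonpos ht, max_eq_right ht]
      simp
  rw [← e1, ← e2] at h'
  rw [IndepFun_iff_Indep] at h' ⊢
  simp only [← MeasurableSpace.comap_comp] at h'
  exact h'

/-- the joint law of the path before and after time `c` -/
lemma map_stop_shift (c : ℝ≥0) :
    W.map (fun A => (stop c A, shift c A)) = (W.map (stop c)).prod W := by
  have := hW.prob
  have m1 : Measurable (stop c) := measurable_stop measurable_const measurable_id
  have m2 : Measurable (shift c) := measurable_shift measurable_const measurable_id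
  have h := (indepFun_iff_map_prod_eq_prod_map_map m1.aemeasurable m2.aemeasurable).1
    (indep_stop_shift hW c)
  rw [h]
  congr 1
  exact map_shift hW c

lemma lintegral_stop_shift (c : ℝ≥0) {G : Pth × Pth → ℝ≥0∞} (hG : Measurable G) :
    ∫⁻ A, G (stop c A, shift c A) ∂W = ∫⁻ A, ∫⁻ B, G (stop c A, B) ∂W ∂W := by
  have := hW.prob
  have m : Measurable (fun A : Pth => (stop c A, shift c A)) :=
    (measurable_stop measurable_const measurable_id).prodMk
      (measurable_shift measurable_const measurable_id)
  have m1 : Measurable (stop c) := measurable_stop measurable_const measurable_id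
  rw [← lintegral_map hG m, map_stop_shift hW c, lintegral_prod _ hG.aemeasurable,
    lintegral_map (hG.lintegral_prod_right') m1]

/-- (I1) concatenation of independent Brownian motions -/
lemma lintegral_cat (c : ℝ≥0) {G : Pth → ℝ≥0∞} (hG : Measurable G) :
    ∫⁻ A, ∫⁻ B, G (cat c A B) ∂W ∂W = ∫⁻ A, G A ∂W := by
  have h := lintegral_stop_shift hW c (G := fun p => G (cat c p.1 p.2))
    (hG.comp (measurable_cat measurable_const measurable_fst measurable_snd))
  simp only [cat_stop, cat_shift] at h
  exact h.symm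

lemma isW_reflect (c : ℝ≥0) : W.map (fun A => glue c A (shift c A)) = W := by
  have mg : Measurable (fun A : Pth => glue c A (shift c A)) :=
    measurable_glue measurable_const measurable_id (measurable_shift measurable_const measurable_id)
  refine hW.map_eq mg ?_
  have := hW.prob
  have hB : IsPreBrownianReal (fun (t : ℝ≥0) (A : Pth) => A t) W := hW
  have e : ∀ (t : ℝ≥0) (A : Pth), glue c A (shift c A) t =
      A ((c - t : ℝ≥0) : ℝ) - A c + (A ((max t c : ℝ≥0) : ℝ) - A c) := by
    intro t A
    rw [glue_apply, max_eq_left t.coe_nonneg, shift_apply]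
    congr 2
    · rw [NNReal.coe_sub_def]
      rcases le_total (t : ℝ) c with h | h
      · rw [max_eq_left (by linarith)]
      · rw [max_eq_right (by linarith), A.zero, A.of_nonpos (by linarith)]
    · congr 1
      rw [NNReal.coe_max]
      rcases le_total (t : ℝ) c with h | h
      · rw [max_eq_right (by linarith), max_eq_right h]; ring
      · rw [max_eq_left (by linarith), max_eq_left h]; ring
  have e' : (fun (t : ℝ≥0) (A : Pth) => glue c A (shift c A) t) = fun (t : ℝ≥0) (A : Pth) =>
      A ((c - t : ℝ≥0) : ℝ) - A c + (A ((max t c : ℝ≥0) : ℝ) - A c) := by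
    funext t A
    exact e t A
  rw [e']
  have int : ∀ t : ℝ≥0, Integrable (fun A : Pth => A t) W := fun t => hB.integrable_eval t
  have l2 : ∀ t : ℝ≥0, MemLp (fun A : Pth => A t) 2 W := fun t =>
    (hB.isGaussianProcess.hasGaussianLaw_eval t).memLp_two
  refine IsGaussianProcess.isPreBrownianReal_of_covariance ?_ (fun t ↦ ?_) (fun s t hst ↦ ?_)
  · classical
    refine hB.isGaussianProcess.of_isGaussianProcess fun t => ⟨{c - t, c, max t c},
      { toFun x := x ⟨c - t, by simp⟩ - x ⟨c, by simp⟩ + (x ⟨max t c, by simp⟩ - x ⟨c, by simp⟩)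
        map_add' x y := by simp; ring
        map_smul' a x := by simp; ring }, fun A => by simp⟩
  · have h0 : ∀ t : ℝ≥0, ∫ A : Pth, A t ∂W = 0 := fun t => hB.integral_eval t
    have h1 : ∫ A : Pth, (A ((c - t : ℝ≥0) : ℝ) - A c) + (A ((max t c : ℝ≥0) : ℝ) - A c) ∂W =
        (∫ A : Pth, (A ((c - t : ℝ≥0) : ℝ) - A c) ∂W) +
          ∫ A : Pth, (A ((max t c : ℝ≥0) : ℝ) - A c) ∂W :=
      integral_add ((int _).sub (int _)) ((int _).sub (int _))
    have h2 : ∀ s : ℝ≥0, ∫ A : Pth, (A (s : ℝ) - A c) ∂W = 0 := by
      intro s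
      rw [integral_sub (int _) (int _), h0, h0, sub_zero]
    rw [h1, h2, h2, add_zero]
  · let a : ℝ≥0 → Pth → ℝ := fun t A => A t
    have cv : ∀ s t : ℝ≥0, cov[a s, a t; W] = min (s : ℝ) t := by
      intro s t
      have := hB.covariance_fun_eval s t
      simpa using this
    have l2' : ∀ t : ℝ≥0, MemLp (a t) 2 W := l2
    have l3 : ∀ s t : ℝ≥0, MemLp (a s - a t) 2 W := fun s t => (l2' s).sub (l2' t)
    have l4 : ∀ s t u v : ℝ≥0, MemLp (a s - a t + (a u - a v)) 2 W := fun s t u v =>
      (l3 s t).add (l3 u v)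
    change cov[(a (c - s) - a c) + (a (max s c) - a c), (a (c - t) - a c) + (a (max t c) - a c); W]
      = s
    rw [covariance_add_left (l3 _ _) (l3 _ _) (l4 _ _ _ _),
      covariance_sub_left (l2' _) (l2' _) (l4 _ _ _ _),
      covariance_sub_left (l2' _) (l2' _) (l4 _ _ _ _)]
    have key : ∀ r : ℝ≥0, cov[a r, (a (c - t) - a c) + (a (max t c) - a c); W] =
        min (r : ℝ) (c - t : ℝ≥0) - min (r : ℝ) c + (min (r : ℝ) (max t c : ℝ≥0) - min (r : ℝ) c) := by
      intro r
      rw [covariance_add_right (l2' _) (l3 _ _) (l3 _ _), covariance_sub_right (l2' _) (l2' _) (l2' _),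
        covariance_sub_right (l2' _) (l2' _) (l2' _)]
      simp only [cv]
    simp only [key, NNReal.coe_max, NNReal.coe_sub_def]
    have hs := s.coe_nonneg
    have ht := t.coe_nonneg
    have hc := c.coe_nonneg
    have hst' : (s : ℝ) ≤ t := hst
    rcases le_total (t : ℝ) c with h | h
    · rw [max_eq_left (by linarith : (0 : ℝ) ≤ c - s), max_eq_left (by linarith : (0 : ℝ) ≤ c - t),
        max_eq_right h, max_eq_right (hst'.trans h)]
      rw [min_eq_right (by linarith : (c : ℝ) - t ≤ c - s), min_eq_left (by linarith : (c : ℝ) - s ≤ c),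
        min_eq_right (by linarith : (c : ℝ) - t ≤ c), min_self]
      ring
    · rcases le_total (s : ℝ) c with h' | h'
      · rw [max_eq_left (by linarith : (0 : ℝ) ≤ c - s), max_eq_right (by linarith : (c : ℝ) - t ≤ 0),
          max_eq_left h, max_eq_right h']
        rw [min_eq_right (by linarith : (0 : ℝ) ≤ c - s), min_eq_left (by linarith : (c : ℝ) - s ≤ c),
          min_eq_left (by linarith : (c : ℝ) - s ≤ t), min_self,
          min_eq_right hc, min_eq_left h]
        ring
      · rw [max_eq_right (by linarith : (c : ℝ) - s ≤ 0), max_eq_right (by linarith : (c : ℝ) - t ≤ 0),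
          max_eq_left h, max_eq_left h']
        rw [min_self, min_self, min_eq_left hc, min_eq_right hc,
          min_eq_left ht, min_eq_right hs, min_eq_left h, min_eq_right h', min_eq_left hst']
        ring

/-- (I2) gluing of a reversed Brownian path and an independent Brownian motion -/
lemma lintegral_glue (c : ℝ≥0) {G : Pth → ℝ≥0∞} (hG : Measurable G) :
    ∫⁻ A, ∫⁻ B, G (glue c A B) ∂W ∂W = ∫⁻ A, G A ∂W := by
  have mg : Measurable (fun A : Pth => glue c A (shift c A)) :=
    measurable_glue measurable_const measurable_id (measurable_shift measurable_const measurable_id)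
  have h := lintegral_stop_shift hW c (G := fun p => G (glue c p.1 p.2))
    (hG.comp (measurable_glue measurable_const measurable_fst measurable_snd))
  simp only [glue_stop] at h
  rw [← h]
  conv_rhs => rw [← isW_reflect hW c, lintegral_map hG mg]

lemma lintegral_shift (c : ℝ≥0) {G : Pth → ℝ≥0∞} (hG : Measurable G) :
    ∫⁻ A, G (shift c A) ∂W = ∫⁻ A, G A ∂W := by
  have m2 : Measurable (shift c) := measurable_shift measurable_const measurable_id
  conv_rhs => rw [← map_shift hW c, lintegral_map hG m2]

end identities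

end Pool.Agent.H4.BM
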