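import Mathlib
import Pool.Agent.H4.BM.Wiener
import Pool.Agent.H4.BM.Argmax

open MeasureTheory ProbabilityTheory Set Filter Topology
open scoped NNReal ENNReal Real

namespace Pool.Agent.H4.BM

open Pth

/-- an increasing bijection of `ℝ` onto `(0, 1)` -/
noncomputable def hh (x : ℝ) : ℝ := 1 / 2 + Real.arctan x / π

lemma hh_pos (x : ℝ) : 0 < hh x := by
  unfold hh
  have h := Real.neg_pi_div_two_lt_arctan x
  have hπ := Real.pi_pos
  rw [← sub_neg_eq_add, sub_pos, ← neg_div, div_lt_iff₀ hπ]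
  linarith

lemma hh_lt_one (x : ℝ) : hh x < 1 := by
  unfold hh
  have h := Real.arctan_lt_pi_div_two x
  have hπ := Real.pi_pos
  have : Real.arctan x / π < 1 / 2 := by
    rw [div_lt_iff₀ hπ]
    linarith
  linarith

lemma continuous_hh : Continuous hh := by
  unfold hh
  fun_prop

lemma measurable_hh : Measurable hh := continuous_hh.measurable

lemma hh_injective : Function.Injective hh := by
  intro x y h
  unfold hh at h
  have hπ := Real.pi_ne_zero
  have : Real.arctan x = Real.arctan y := by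
    have h' : Real.arctan x / π = Real.arctan y / π := by linarith
    field_simp at h'
    exact h'
  exact Real.arctan_injective this

/-- the distances at which information is stored -/
def tt (j : ℕ) : ℕ := 16 ^ (j ^ 2)

/-- the number in `[0, 1]` stored by the increments of `Z` after `ρ` -/
noncomputable def beta (Z : ℝ → ℝ) (ρ : ℝ) : ℝ :=
  ∑' j : ℕ, (1 / 2 : ℝ) ^ (j + 1) * hh (Z (ρ + tt j + 1) - Z (ρ + tt j))

lemma summable_beta (Z : ℝ → ℝ) (ρ : ℝ) :
    Summable fun j : ℕ => (1 / 2 : ℝ) ^ (j + 1) * hh (Z (ρ + tt j + 1) - Z (ρ + tt j)) := by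
  refine Summable.of_nonneg_of_le (fun j => by have := (hh_pos (Z (ρ + tt j + 1) - Z (ρ + tt j))).le; positivity)
    (fun j => ?_) ((summable_geometric_of_lt_one (by norm_num : (0 : ℝ) ≤ 1 / 2) (by norm_num)))
  have h1 := (hh_lt_one (Z (ρ + tt j + 1) - Z (ρ + tt j))).le
  have h0 := (hh_pos (Z (ρ + tt j + 1) - Z (ρ + tt j))).le
  rw [pow_succ]
  have h2 : (0 : ℝ) < (1 / 2) ^ j := by positivity
  nlinarith

lemma beta_nonneg (Z : ℝ → ℝ) (ρ : ℝ) : 0 ≤ beta Z ρ :=
  tsum_nonneg fun j => by have := (hh_pos (Z (ρ + tt j + 1) - Z (ρ + tt j))).le; positivity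

lemma beta_le_one (Z : ℝ → ℝ) (ρ : ℝ) : beta Z ρ ≤ 1 := by
  have hg : HasSum (fun j : ℕ => (1 / 2 : ℝ) ^ (j + 1)) 1 := by
    have := (hasSum_geometric_of_lt_one (by norm_num : (0 : ℝ) ≤ 1 / 2) (by norm_num)).mul_right
      (1 / 2 : ℝ)
    have e : ((1 : ℝ) - 1 / 2)⁻¹ * (1 / 2) = 1 := by norm_num
    rw [e] at this
    simpa only [pow_succ] using this
  rw [← hg.tsum_eq]
  refine (summable_beta Z ρ).tsum_le_tsum (fun j => ?_) hg.summable
  have h1 := (hh_lt_one (Z (ρ + tt j + 1) - Z (ρ + tt j))).le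
  have h2 : (0 : ℝ) < (1 / 2) ^ (j + 1) := by positivity
  nlinarith

lemma beta_congr {Z Z' : ℝ → ℝ} {ρ ρ' : ℝ}
    (h : ∀ j, Z (ρ + tt j + 1) - Z (ρ + tt j) = Z' (ρ' + tt j + 1) - Z' (ρ' + tt j)) :
    beta Z ρ = beta Z' ρ' := by
  unfold beta
  simp only [h]

section meas
variable {Ω : Type*} [MeasurableSpace Ω]

lemma measurable_eval_of_cont {Z : Ω → ℝ → ℝ} (hc : ∀ ω, Continuous (Z ω))
    (hm : ∀ t, Measurable fun ω => Z ω t) {τ : Ω → ℝ} (hτ : Measurable τ) :
    Measurable fun ω => Z ω (τ ω) := by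
  have := measurable_uncurry_of_continuous_of_measurable (u := fun (t : ℝ) (ω : Ω) => Z ω t)
    (fun ω => hc ω) hm
  exact this.comp (hτ.prodMk measurable_id)

lemma measurable_beta {Z : Ω → ℝ → ℝ} (hc : ∀ ω, Continuous (Z ω))
    (hm : ∀ t, Measurable fun ω => Z ω t) {ρ : Ω → ℝ} (hρ : Measurable ρ) :
    Measurable fun ω => beta (Z ω) (ρ ω) := by
  have h1 : ∀ j : ℕ, Measurable fun ω =>
      (1 / 2 : ℝ) ^ (j + 1) * hh (Z ω (ρ ω + tt j + 1) - Z ω (ρ ω + tt j)) := by
    intro j
    refine measurable_const.mul (measurable_hh.comp (Measurable.sub ?_ ?_))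
    · exact measurable_eval_of_cont hc hm (by fun_prop)
    · exact measurable_eval_of_cont hc hm (by fun_prop)
  refine measurable_of_tendsto_metrizable (f := fun n ω => ∑ j ∈ Finset.range n,
    (1 / 2 : ℝ) ^ (j + 1) * hh (Z ω (ρ ω + tt j + 1) - Z ω (ρ ω + tt j)))
    (fun n => Finset.measurable_sum _ fun j _ => h1 j) ?_
  rw [tendsto_pi_nhds]
  intro ω
  exact (summable_beta (Z ω) (ρ ω)).hasSum.tendsto_sum_nat

end meas

/-- the marker: first maximum over `[0, 1]` -/
noncomputable def ww (A : Pth) : ℝ := FA A 0 1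

lemma ww_mem (A : Pth) : ww A ∈ Icc (0 : ℝ) 1 := (FA_mem A.continuous zero_le_one).1

lemma measurable_ww : Measurable ww :=
  measurable_FA (Z := fun A : Pth => (A : ℝ → ℝ)) (fun A => A.continuous)
    (fun t => measurable_apply t) zero_le_one

/-- the length of the inserted piece -/
noncomputable def vv (A : Pth) : ℝ≥0 := Real.toNNReal (1 + beta A (ww A) - ww A)

lemma coe_vv (A : Pth) : (vv A : ℝ) = 1 + beta A (ww A) - ww A := by
  unfold vv
  rw [Real.coe_toNNReal]
  have := beta_nonneg A (ww A)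
  have := (ww_mem A).2
  linarith

lemma vv_le (A : Pth) : (vv A : ℝ) ≤ 2 := by
  rw [coe_vv]
  have := beta_le_one A (ww A)
  have := (ww_mem A).1
  linarith

lemma vv_le' (A : Pth) : vv A ≤ 2 := by
  exact_mod_cast vv_le A

lemma measurable_vv : Measurable vv := by
  have h := measurable_beta (Z := fun A : Pth => (A : ℝ → ℝ)) (fun A => A.continuous)
    (fun t => measurable_apply t) measurable_ww
  exact (((measurable_const.add h).sub measurable_ww)).real_toNNReal

/-! ### Gaussian bounds -/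

lemma gauss_le (y : ℝ) : gaussianPDFReal 0 1 y ≤ 3 * (1 / (π * (1 + y ^ 2))) := by
  rw [gaussianPDFReal]
  have h1 : Real.exp (-(y - 0) ^ 2 / (2 * ((1 : ℝ≥0) : ℝ))) ≤ 2 / (1 + y ^ 2) := by
    have h2 : (1 + y ^ 2) / 2 ≤ Real.exp (y ^ 2 / 2) := by
      have := Real.add_one_le_exp (y ^ 2 / 2)
      nlinarith [sq_nonneg y]
    have e : -(y - 0) ^ 2 / (2 * ((1 : ℝ≥0) : ℝ)) = -(y ^ 2 / 2) := by
      push_cast
      ring
    rw [e, Real.exp_neg]
    rw [inv_eq_one_div, div_le_div_iff₀ (Real.exp_pos _) (by positivity)]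
    nlinarith
  have h3 : (√(2 * π * ((1 : ℝ≥0) : ℝ)))⁻¹ ≤ 3 / (2 * π) := by
    have hπ := Real.pi_gt_three
    have hπ' := Real.pi_lt_four
    rw [inv_eq_one_div, div_le_div_iff₀ (by positivity) (by positivity)]
    have : 2 * π / 3 ≤ √(2 * π * ((1 : ℝ≥0) : ℝ)) := by
      apply Real.le_sqrt_of_sq_le
      push_cast
      nlinarith
    nlinarith
  calc (√(2 * π * ((1 : ℝ≥0) : ℝ)))⁻¹ * Real.exp (-(y - 0) ^ 2 / (2 * ((1 : ℝ≥0) : ℝ)))
      ≤ 3 / (2 * π) * (2 / (1 + y ^ 2)) := by gcongr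
    _ = 3 * (1 / (π * (1 + y ^ 2))) := by
      field_simp

lemma hasDerivAt_aff (x a y : ℝ) :
    HasDerivAt (fun y => x + a * hh y) (a * (1 / (π * (1 + y ^ 2)))) y := by
  unfold hh
  have h := ((Real.hasDerivAt_arctan y).div_const π).const_add (1 / 2)
  have := (h.const_mul a).const_add x
  have e : a * (1 / (π * (1 + y ^ 2))) = a * (1 / (1 + y ^ 2) / π) := by
    rw [div_div, mul_comm π]
  rw [e]
  exact this

/-- the law of `x + a h(N)` has density at most `3 / a` -/
lemma lintegral_gauss_le {x a : ℝ} (ha : 0 < a) (G : ℝ → ℝ≥0∞) (hG : Measurable G) :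
    ∫⁻ y, G (x + a * hh y) ∂(gaussianReal 0 1) ≤ ENNReal.ofReal (3 / a) * ∫⁻ u, G u := by
  have hinj : InjOn (fun y => x + a * hh y) univ := by
    intro y _ z _ h
    simp only [add_right_inj, mul_eq_mul_left_iff] at h
    rcases h with h | h
    · exact hh_injective h
    · exact absurd h ha.ne'
  have himg := lintegral_image_eq_lintegral_abs_deriv_mul MeasurableSet.univ
    (fun y _ => (hasDerivAt_aff x a y).hasDerivWithinAt) hinj G
  have hG' : Measurable fun y => G (x + a * hh y) :=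
    hG.comp ((measurable_hh.const_mul a).const_add x)
  rw [gaussianReal_of_var_ne_zero 0 one_ne_zero, lintegral_withDensity_eq_lintegral_mul _
    (measurable_gaussianPDF 0 1) hG']
  calc ∫⁻ y, (gaussianPDF 0 1 * fun y => G (x + a * hh y)) y
      ≤ ∫⁻ y, ENNReal.ofReal (3 / a) *
          (ENNReal.ofReal |a * (1 / (π * (1 + y ^ 2)))| * G (x + a * hh y)) := by
        refine lintegral_mono fun y => ?_
        rw [Pi.mul_apply, ← mul_assoc, ← ENNReal.ofReal_mul (by positivity), gaussianPDF]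
        gcongr
        refine (gauss_le y).trans (le_of_eq ?_)
        rw [abs_of_nonneg (by positivity)]
        field_simp
    _ = ENNReal.ofReal (3 / a) * ∫⁻ y in univ,
          (ENNReal.ofReal |a * (1 / (π * (1 + y ^ 2)))| * G (x + a * hh y)) := by
        rw [Measure.restrict_univ, lintegral_const_mul]
        have := measurable_hh
        fun_prop
    _ = ENNReal.ofReal (3 / a) * ∫⁻ u in (fun y => x + a * hh y) '' univ, G u := by rw [himg]
    _ ≤ _ := by
        gcongr
        exact Measure.restrict_le_self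

section
variable {W : Measure Pth} (hW : IsW W)
include hW

lemma map_incr (w : ℝ≥0) : W.map (fun A : Pth => A (w + 1) - A w) = gaussianReal 0 1 := by
  have h := (IsPreBrownianReal.hasLaw_sub hW (w + 1) w).map_eq
  have e : nndist ((w + 1 : ℝ≥0)).1 w.1 = 1 := by
    rw [← NNReal.coe_inj]
    change dist ((w : ℝ) + 1) w = 1
    rw [Real.dist_eq]
    norm_num
  rw [e] at h
  exact h

lemma lintegral_incr (w : ℝ≥0) {G : ℝ → ℝ≥0∞} (hG : Measurable G) :
    ∫⁻ A, G (A (w + 1) - A w) ∂W = ∫⁻ y, G y ∂(gaussianReal 0 1) := by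
  rw [← map_incr hW w, lintegral_map hG]
  exact (measurable_apply _).sub (measurable_apply _)

end

end Pool.Agent.H4.BM
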