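import Mathlib
import Pool.Agent.H4.BM.Marker

open MeasureTheory ProbabilityTheory Set Filter Topology
open scoped NNReal ENNReal Real

namespace Pool.Agent.H4.BM

open Pth

lemma glue_cat_cat (u v c : ℝ≥0) (M P M' F : Pth) :
    glue (u + c) (cat u M P) (cat v M' F) = cat (c + u + v) (glue c P (glue u M M')) F := by
  have hu := u.coe_nonneg
  have hv := v.coe_nonneg
  have hc := c.coe_nonneg
  refine ext_pos fun t ht => ?_
  rcases le_total t (c + u + v) with h3 | h3
  · rw [cat_apply_of_le (c := c + u + v) _ _ (by push_cast; exact h3)]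
    rcases le_total t c with h1 | h1
    · rw [glue_apply_of_le (c := c) _ _ ht h1, glue_apply_of_le (c := u + c) _ _ ht (by push_cast; linarith),
        cat_apply_of_ge _ _ (by push_cast; linarith), cat_apply_of_ge _ _ (by push_cast; linarith)]
      push_cast
      ring_nf
    · rw [glue_apply_of_ge (c := c) _ _ h1]
      rcases le_total t (c + u) with h2 | h2
      · rw [glue_apply_of_le (c := u) _ _ (by linarith) (by linarith),
          glue_apply_of_le (c := u + c) _ _ ht (by push_cast; linarith),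
          cat_apply_of_le _ _ (by push_cast; linarith), cat_apply_of_ge _ _ (by push_cast; linarith)]
        push_cast
        ring_nf
      · rw [glue_apply_of_ge (c := u) _ _ (by linarith),
          glue_apply_of_ge (c := u + c) _ _ (by push_cast; linarith),
          cat_apply_of_ge _ _ (by push_cast; linarith), cat_apply_of_le _ _ (by push_cast; linarith)]
        push_cast
        ring_nf
  · rw [cat_apply_of_ge (c := c + u + v) _ _ (by push_cast; exact h3),
      glue_apply_of_ge (c := c) _ _ (by push_cast; linarith),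
      glue_apply_of_ge (c := u) _ _ (by push_cast; linarith),
      glue_apply_of_ge (c := u + c) _ _ (by push_cast; linarith),
      cat_apply_of_ge _ _ (by push_cast; linarith), cat_apply_of_ge _ _ (by push_cast; linarith)]
    push_cast
    ring_nf

lemma shift_glue_add (e d : ℝ≥0) (p f : Pth) : shift d (glue (e + d) p f) = glue e p f := by
  have he := e.coe_nonneg
  have hd := d.coe_nonneg
  refine ext_pos fun t ht => ?_
  rw [shift_apply_of_nonneg _ _ ht, glue_apply, glue_apply, glue_apply, max_eq_left (by linarith),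
    max_eq_left ht, max_eq_left hd, f.of_nonpos (by push_cast; linarith : (d : ℝ) - (e + d : ℝ≥0) ≤ 0)]
  push_cast
  ring_nf

lemma glue_add (u c d : ℝ≥0) (M P f : Pth) :
    glue (u + c + d) (cat u M P) f = glue d (shift c P) (glue (u + c) (cat u M P) f) := by
  have hu := u.coe_nonneg
  have hd := d.coe_nonneg
  have hc := c.coe_nonneg
  refine ext_pos fun t ht => ?_
  rcases le_total t d with h | h
  · rw [glue_apply_of_le (c := d) _ _ ht h, glue_apply_of_le (c := u + c + d) _ _ ht (by push_cast; linarith),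
      cat_apply_of_ge _ _ (by push_cast; linarith), cat_apply_of_ge _ _ (by push_cast; linarith),
      shift_apply_of_nonneg _ _ (by linarith), shift_apply_of_nonneg _ _ hd]
    push_cast
    ring_nf
  · rw [glue_apply_of_ge (c := d) _ _ h, shift_apply_of_nonneg _ _ hd, glue_apply, glue_apply,
      max_eq_left ht, max_eq_left (by linarith : 0 ≤ t - (d : ℝ)),
      cat_apply_of_ge (c := u) _ _ (by push_cast; linarith : (u : ℝ) ≤ ((u + c + d : ℝ≥0) : ℝ)),
      cat_apply_of_ge (c := u) _ _ (by push_cast; linarith : (u : ℝ) ≤ ((u + c : ℝ≥0) : ℝ))]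
    push_cast
    ring_nf

/-- gluing only depends on the first path up to the gluing length -/
lemma glue_cat_of_le {c d : ℝ≥0} (h : c ≤ d) (A B C : Pth) : glue c (cat d A B) C = glue c A C := by
  rw [← glue_stop c (cat d A B), stop_cat h, glue_stop]

lemma cat_cat_apply {c d : ℝ≥0} (Q1 Q2 Q3 : Pth) {t : ℝ} (ht : (c : ℝ) + d ≤ t) :
    cat c Q1 (cat d Q2 Q3) t = Q1 c + Q2 d + Q3 (t - c - d) := by
  have := d.coe_nonneg
  rw [cat_apply_of_ge _ _ (by linarith), cat_apply_of_ge _ _ (by linarith)]
  ring_nf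

lemma tt_pos (j : ℕ) : 1 ≤ tt j := Nat.one_le_pow _ _ (by norm_num)

lemma tt_mono {i j : ℕ} (h : i ≤ j) : tt i ≤ tt j :=
  Nat.pow_le_pow_right (by norm_num) (Nat.pow_le_pow_left h 2)

lemma tt_succ (k : ℕ) : tt (k + 1) = tt k * 16 ^ (2 * k + 1) := by
  unfold tt
  rw [← pow_add]
  congr 1
  ring

lemma tt_succ_ge (k : ℕ) : 16 * tt k ≤ tt (k + 1) := by
  rw [tt_succ]
  have : 16 ≤ 16 ^ (2 * k + 1) := by
    calc 16 = 16 ^ 1 := (pow_one _).symm
      _ ≤ _ := Nat.pow_le_pow_right (by norm_num) (by omega)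
  nlinarith [tt_pos k]

/-- `c_k` -/
def cc (k : ℕ) : ℕ := tt k + 2

lemma cc_le (k : ℕ) : 2 * cc k ≤ tt (k + 1) := by
  unfold cc
  have := tt_succ_ge k
  have := tt_pos k
  omega

lemma ww_cat {c : ℝ≥0} (hc : 1 ≤ c) (A B : Pth) : ww (cat c A B) = ww A := by
  unfold ww
  have hc' : (1 : ℝ) ≤ c := by exact_mod_cast hc
  refine FA_congr 0 fun t ht => ?_
  rw [cat_apply_of_le _ _ (ht.2.trans hc'), add_zero]

/-- the hidden middle piece does not influence `vv` -/
lemma vv_hidden (k : ℕ) {c d : ℝ≥0} (hc : (c : ℝ) = cc k) (hd : (c : ℝ) + d = tt (k + 1))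
    (Q1 Q2 Q2' Q3 : Pth) : vv (cat c Q1 (cat d Q2 Q3)) = vv (cat c Q1 (cat d Q2' Q3)) := by
  have h1 : (1 : ℝ≥0) ≤ c := by
    rw [← NNReal.coe_le_coe, hc]
    unfold cc
    push_cast
    have : (0 : ℝ) ≤ tt k := by positivity
    linarith
  unfold vv
  rw [ww_cat h1, ww_cat h1]
  congr 3
  have hw := ww_mem Q1
  refine beta_congr fun j => ?_
  rcases le_or_gt j k with hj | hj
  · have ht : (tt j : ℝ) ≤ tt k := by exact_mod_cast tt_mono hj
    have hcc : (c : ℝ) = tt k + 2 := by
      rw [hc]
      unfold cc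
      push_cast
      ring
    rw [cat_apply_of_le _ _ (by linarith [hw.2]), cat_apply_of_le _ _ (by linarith [hw.2]),
      cat_apply_of_le _ _ (by linarith [hw.2]), cat_apply_of_le _ _ (by linarith [hw.2])]
  · have ht : (tt (k + 1) : ℝ) ≤ tt j := by exact_mod_cast tt_mono hj
    rw [cat_cat_apply _ _ _ (by linarith [hw.1]), cat_cat_apply _ _ _ (by linarith [hw.1]),
      cat_cat_apply _ _ _ (by linarith [hw.1]), cat_cat_apply _ _ _ (by linarith [hw.1])]
    ring

/-- the part of `vv` that does not depend on the block `k + 1` -/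
noncomputable def AA (k : ℕ) (P1 P3 : Pth) : ℝ :=
  1 + beta (cat (tt (k + 1)) P1 (cat 2 default P3)) (ww P1) - (1 / 2) ^ (k + 2) * hh 0 - ww P1

lemma vv_block (k : ℕ) (P1 P2 P3 : Pth) :
    (vv (cat (tt (k + 1)) P1 (cat 2 P2 P3)) : ℝ) =
      AA k P1 P3 + (1 / 2) ^ (k + 2) * hh (P2 (ww P1 + 1) - P2 (ww P1)) := by
  have ha : (1 : ℝ≥0) ≤ (tt (k + 1) : ℝ≥0) := by exact_mod_cast tt_pos (k + 1)
  rw [coe_vv, ww_cat ha]
  have hw := ww_mem P1
  set w := ww P1 with hwdef
  have key : ∀ Q : Pth, beta (cat (tt (k + 1)) P1 (cat 2 Q P3)) w =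
      (1 / 2) ^ (k + 2) * hh (Q (w + 1) - Q w) +
        ∑' j : ℕ, if j = k + 1 then 0 else (1 / 2 : ℝ) ^ (j + 1) *
          hh (cat (tt (k + 1)) P1 (cat 2 (default : Pth) P3) (w + tt j + 1) -
            cat (tt (k + 1)) P1 (cat 2 (default : Pth) P3) (w + tt j)) := by
    intro Q
    unfold beta
    rw [(summable_beta _ w).tsum_eq_add_tsum_ite (k + 1)]
    congr 1
    · congr 2
      rw [cat_apply_of_ge (c := (tt (k + 1) : ℝ≥0)) _ _ (by push_cast; linarith [hw.1]),
        cat_apply_of_ge (c := (tt (k + 1) : ℝ≥0)) _ _ (by push_cast; linarith [hw.1])]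
      rw [cat_apply_of_le (c := 2) _ _ (by push_cast; linarith [hw.2]),
        cat_apply_of_le (c := 2) _ _ (by push_cast; linarith [hw.2])]
      push_cast
      ring_nf
    · refine tsum_congr fun j => ?_
      split_ifs with hj
      · rfl
      · congr 2
        rcases lt_or_gt_of_ne hj with hj | hj
        · have ht : (16 : ℝ) * tt j ≤ tt (k + 1) := by
            have h1 := tt_succ_ge j
            have h2 := tt_mono (show j + 1 ≤ k + 1 by omega)
            exact_mod_cast h1.trans h2
          have ht' : (1 : ℝ) ≤ tt j := by exact_mod_cast tt_pos j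
          rw [cat_apply_of_le _ _ (by push_cast; linarith [hw.2]),
            cat_apply_of_le _ _ (by push_cast; linarith [hw.2]),
            cat_apply_of_le _ _ (by push_cast; linarith [hw.2]),
            cat_apply_of_le _ _ (by push_cast; linarith [hw.2])]
        · have ht : (16 : ℝ) * tt (k + 1) ≤ tt j := by
            have h1 := tt_succ_ge (k + 1)
            have h2 := tt_mono (show k + 1 + 1 ≤ j by omega)
            exact_mod_cast h1.trans h2
          have ht' : (1 : ℝ) ≤ tt (k + 1) := by exact_mod_cast tt_pos (k + 1)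
          rw [cat_cat_apply _ _ _ (by push_cast; linarith [hw.1]),
            cat_cat_apply _ _ _ (by push_cast; linarith [hw.1]),
            cat_cat_apply _ _ _ (by push_cast; linarith [hw.1]),
            cat_cat_apply _ _ _ (by push_cast; linarith [hw.1])]
          ring
  rw [AA, ← hwdef, key P2, key default]
  have e : (default : Pth) (w + 1) - (default : Pth) w = 0 := by
    change (0 : ℝ) - 0 = 0
    ring
  rw [e]
  ring

lemma AA_bounds (k : ℕ) (P1 P3 : Pth) (y : ℝ) :
    AA k P1 P3 + (1 / 2) ^ (k + 2) * hh y ∈ Icc (0 : ℝ) 2 := by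
  -- choose a path whose increment equals `y`
  have hw := ww_mem P1
  let P2 : Pth := ⟨fun t => y * max (t - ww P1) 0, by fun_prop, fun t ht => by
    change y * max (t - ww P1) 0 = 0
    rw [max_eq_right (by linarith [hw.1]), mul_zero]⟩
  have h := vv_block k P1 P2 P3
  have e : P2 (ww P1 + 1) - P2 (ww P1) = y := by
    change y * max (ww P1 + 1 - ww P1) 0 - y * max (ww P1 - ww P1) 0 = y
    rw [add_sub_cancel_left, sub_self, max_self, max_eq_left zero_le_one]
    ring
  rw [e] at h
  rw [← h]
  exact ⟨NNReal.coe_nonneg _, vv_le _⟩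

lemma measurable_AA (k : ℕ) {Ω : Type*} [MeasurableSpace Ω] {P1 P3 : Ω → Pth} (h1 : Measurable P1)
    (h3 : Measurable P3) : Measurable fun ω => AA k (P1 ω) (P3 ω) := by
  unfold AA
  have hm : Measurable fun ω => cat (tt (k + 1)) (P1 ω) (cat 2 (default : Pth) (P3 ω)) :=
    measurable_cat measurable_const h1 (measurable_cat measurable_const measurable_const h3)
  have hb := measurable_beta (Z := fun ω => (cat (tt (k + 1)) (P1 ω) (cat 2 (default : Pth) (P3 ω)) : ℝ → ℝ))
    (fun ω => Pth.continuous _) (fun t => (measurable_apply t).comp hm) (measurable_ww.comp h1)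
  exact ((measurable_const.add hb).sub measurable_const).sub (measurable_ww.comp h1)

end Pool.Agent.H4.BM
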