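import Mathlib
import Pool.Agent.H4.BM.Ident

open MeasureTheory ProbabilityTheory Set Filter Topology
open scoped NNReal ENNReal Real

namespace Pool.Agent.H4.BM

open Pth

attribute [fun_prop] measurable_cat measurable_glue measurable_shift measurable_stop measurable_eval
  measurable_vv measurable_ww

section
variable {W : Measure Pth} (hW : IsW W)
include hW

/-- constant in the law bound for `vv` -/
noncomputable def Cb (k : ℕ) : ℝ≥0∞ := ENNReal.ofReal (3 / (1 / 2) ^ (k + 2))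

lemma LB1 (k : ℕ) {K : ℝ≥0 → Pth → ℝ≥0∞} (hK : Measurable (Function.uncurry K))
    (hloc : ∀ u P Q, K u (cat (tt (k + 1)) P Q) = K u P) :
    ∫⁻ P, K (vv P) P ∂W ≤ Cb k * ∫⁻ P, (∫⁻ u in Icc (0 : ℝ) 2, K u.toNNReal P) ∂W := by
  have := hW.prob
  have m0 : Measurable fun P : Pth => K (vv P) P := hK.comp (measurable_vv.prodMk measurable_id)
  have mK : ∀ {α : Type} [MeasurableSpace α] {u : α → ℝ≥0} {P : α → Pth}, Measurable u →
      Measurable P → Measurable fun x => K (u x) (P x) := by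
    intro α _ u P hu hP
    exact hK.comp (hu.prodMk hP)
  have mI : Measurable fun P => ∫⁻ u in Icc (0 : ℝ) 2, K u.toNNReal P := by
    apply Measurable.lintegral_prod_right (f := fun (P : Pth) (u : ℝ) => K u.toNNReal P)
    exact mK (by fun_prop) (by fun_prop)
  calc ∫⁻ P, K (vv P) P ∂W
      = ∫⁻ P1, ∫⁻ Q, K (vv (cat (tt (k + 1)) P1 Q)) (cat (tt (k + 1)) P1 Q) ∂W ∂W :=
        (lintegral_cat hW _ m0).symm
    _ = ∫⁻ P1, ∫⁻ Q, K (vv (cat (tt (k + 1)) P1 Q)) P1 ∂W ∂W := by simp only [hloc]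
    _ = ∫⁻ P1, ∫⁻ P2, ∫⁻ P3, K (vv (cat (tt (k + 1)) P1 (cat 2 P2 P3))) P1 ∂W ∂W ∂W := by
        refine lintegral_congr fun P1 => ?_
        exact (lintegral_cat hW 2 (G := fun Q => K (vv (cat (tt (k + 1)) P1 Q)) P1)
          (mK (by fun_prop) (by fun_prop))).symm
    _ = ∫⁻ P1, ∫⁻ P3, ∫⁻ P2, K (vv (cat (tt (k + 1)) P1 (cat 2 P2 P3))) P1 ∂W ∂W ∂W := by
        refine lintegral_congr fun P1 => ?_
        exact lintegral_lintegral_swap (mK (by fun_prop) (by fun_prop)).aemeasurable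
    _ ≤ ∫⁻ P1, ∫⁻ _P3, (Cb k * ∫⁻ u in Icc (0 : ℝ) 2, K u.toNNReal P1) ∂W ∂W := by
        refine lintegral_mono fun P1 => lintegral_mono fun P3 => ?_
        let G : ℝ → ℝ≥0∞ := (Icc (0 : ℝ) 2).indicator fun u => K u.toNNReal P1
        have mG : Measurable G :=
          (mK (u := fun u : ℝ => u.toNNReal) (P := fun _ => P1) (by fun_prop) (by fun_prop)).indicator
            measurableSet_Icc
        let w : ℝ≥0 := ⟨ww P1, (ww_mem P1).1⟩
        have e1 : ∀ P2 : Pth, K (vv (cat (tt (k + 1)) P1 (cat 2 P2 P3))) P1 =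
            G (AA k P1 P3 + (1 / 2) ^ (k + 2) * hh (P2 (w + 1) - P2 w)) := by
          intro P2
          have h1 := vv_block k P1 P2 P3
          have h2 := AA_bounds k P1 P3 (P2 (ww P1 + 1) - P2 (ww P1))
          change _ = (Icc (0 : ℝ) 2).indicator _ (AA k P1 P3 + (1 / 2) ^ (k + 2) * hh (P2 (ww P1 + 1) - P2 (ww P1)))
          rw [indicator_of_mem h2, ← h1, Real.toNNReal_coe]
        have mG' : Measurable fun y => G (AA k P1 P3 + (1 / 2) ^ (k + 2) * hh y) :=
          mG.comp ((measurable_hh.const_mul _).const_add _)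
        calc ∫⁻ P2, K (vv (cat (tt (k + 1)) P1 (cat 2 P2 P3))) P1 ∂W
            = ∫⁻ P2, G (AA k P1 P3 + (1 / 2) ^ (k + 2) * hh (P2 (w + 1) - P2 w)) ∂W :=
              lintegral_congr e1
          _ = ∫⁻ y, G (AA k P1 P3 + (1 / 2) ^ (k + 2) * hh y) ∂(gaussianReal 0 1) :=
              lintegral_incr hW w mG'
          _ ≤ Cb k * ∫⁻ u, G u := lintegral_gauss_le (by positivity) G mG
          _ = Cb k * ∫⁻ u in Icc (0 : ℝ) 2, K u.toNNReal P1 := by
              rw [lintegral_indicator measurableSet_Icc]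
    _ = Cb k * ∫⁻ P, (∫⁻ u in Icc (0 : ℝ) 2, K u.toNNReal P) ∂W := by
        simp only [lintegral_const, measure_univ, mul_one]
        exact lintegral_const_mul _ mI

/-- the four-fold product integral -/
lemma LB2 (c u : ℝ≥0) {G : Pth → ℝ≥0∞} (hG : Measurable G) :
    ∫⁻ P, ∫⁻ F, ∫⁻ M, ∫⁻ M', G (cat (c + u + vv F) (glue c P (glue u M M')) F) ∂W ∂W ∂W ∂W =
      ∫⁻ F, ∫⁻ B, G (cat (c + u + vv F) B F) ∂W ∂W := by
  have := hW.prob
  have h1 : ∀ P F : Pth, ∫⁻ M, ∫⁻ M', G (cat (c + u + vv F) (glue c P (glue u M M')) F) ∂W ∂W =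
      ∫⁻ B, G (cat (c + u + vv F) (glue c P B) F) ∂W := fun P F =>
    lintegral_glue hW u (G := fun B => G (cat (c + u + vv F) (glue c P B) F)) (by fun_prop)
  simp only [h1]
  rw [lintegral_lintegral_swap]
  · refine lintegral_congr fun F => ?_
    exact lintegral_glue hW c (G := fun B => G (cat (c + u + vv F) B F)) (by fun_prop)
  · apply Measurable.aemeasurable
    apply Measurable.lintegral_prod_right (f := fun (x : Pth × Pth) (B : Pth) =>
      G (cat (c + u + vv x.2) (glue c x.1 B) x.2))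
    fun_prop

lemma LB3 (c : ℝ≥0) {G : Pth → ℝ≥0∞} (hG : Measurable G) :
    ∫⁻ u in Icc (0 : ℝ) 2, ∫⁻ F, ∫⁻ B, G (cat (c + u.toNNReal + vv F) B F) ∂W ∂W ≤
      4 * ∫⁻ A, G A ∂W := by
  have := hW.prob
  have mφ : Measurable fun (x : ℝ × Pth) => ∫⁻ B, G (cat (c + x.1.toNNReal) B x.2) ∂W := by
    apply Measurable.lintegral_prod_right (f := fun (x : ℝ × Pth) (B : Pth) =>
      G (cat (c + x.1.toNNReal) B x.2))
    fun_prop
  calc ∫⁻ u in Icc (0 : ℝ) 2, ∫⁻ F, ∫⁻ B, G (cat (c + u.toNNReal + vv F) B F) ∂W ∂W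
      = ∫⁻ F, (∫⁻ u in Icc (0 : ℝ) 2, ∫⁻ B, G (cat (c + u.toNNReal + vv F) B F) ∂W) ∂W := by
        rw [lintegral_lintegral_swap]
        apply Measurable.aemeasurable
        apply Measurable.lintegral_prod_right (f := fun (x : ℝ × Pth) (B : Pth) =>
          G (cat (c + x.1.toNNReal + vv x.2) B x.2))
        fun_prop
    _ ≤ ∫⁻ F, (∫⁻ x in Icc (0 : ℝ) 4, ∫⁻ B, G (cat (c + x.toNNReal) B F) ∂W) ∂W := by
        refine lintegral_mono fun F => ?_
        have mF : Measurable fun x : ℝ => ∫⁻ B, G (cat (c + x.toNNReal) B F) ∂W :=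
          mφ.comp (measurable_id.prodMk measurable_const)
        calc ∫⁻ u in Icc (0 : ℝ) 2, ∫⁻ B, G (cat (c + u.toNNReal + vv F) B F) ∂W
            = ∫⁻ u in Icc (0 : ℝ) 2, ∫⁻ B, G (cat (c + (u + vv F).toNNReal) B F) ∂W := by
              refine setLIntegral_congr_fun measurableSet_Icc fun u hu => ?_
              rw [Real.toNNReal_add hu.1 (vv F).coe_nonneg, Real.toNNReal_coe, add_assoc]
          _ ≤ ∫⁻ u, (Icc (0 : ℝ) 4).indicator (fun x => ∫⁻ B, G (cat (c + x.toNNReal) B F) ∂W)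
                (u + vv F) := by
              rw [← lintegral_indicator measurableSet_Icc]
              refine lintegral_mono fun u => ?_
              by_cases hu : u ∈ Icc (0 : ℝ) 2
              · have h4 : u + (vv F : ℝ) ∈ Icc (0 : ℝ) 4 :=
                  ⟨add_nonneg hu.1 (vv F).coe_nonneg, by linarith [hu.2, vv_le F]⟩
                rw [indicator_of_mem hu, indicator_of_mem h4]
              · rw [indicator_of_notMem hu]
                exact zero_le
          _ = ∫⁻ u, (Icc (0 : ℝ) 4).indicator (fun x => ∫⁻ B, G (cat (c + x.toNNReal) B F) ∂W) u :=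
              lintegral_add_right_eq_self _ _
          _ = _ := lintegral_indicator measurableSet_Icc _
    _ = ∫⁻ x in Icc (0 : ℝ) 4, ∫⁻ F, ∫⁻ B, G (cat (c + x.toNNReal) B F) ∂W ∂W := by
        rw [lintegral_lintegral_swap]
        exact (mφ.comp measurable_swap).aemeasurable
    _ = ∫⁻ _x in Icc (0 : ℝ) 4, ∫⁻ A, G A ∂W := by
        refine lintegral_congr fun x => ?_
        rw [lintegral_lintegral_swap]
        · exact lintegral_cat hW (c + x.toNNReal) hG
        · exact Measurable.aemeasurable (by fun_prop)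
    _ = 4 * ∫⁻ A, G A ∂W := by
        rw [setLIntegral_const, Real.volume_Icc, mul_comm]
        norm_num

end

/-- the base probability space: `(P, M, F, M')` -/
abbrev Om := Pth × Pth × Pth × Pth

/-- the law on the base space -/
noncomputable def mu0 (W : Measure Pth) : Measure Om := W.prod (W.prod (W.prod W))

/-- the process seen from the time `- vv P - m` -/
noncomputable def Y (m : ℝ≥0) (ω : Om) : Pth :=
  glue (vv ω.1 + m) (cat (vv ω.1) ω.2.1 ω.1) (cat (vv ω.2.2.1) ω.2.2.2 ω.2.2.1)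

@[fun_prop] lemma measurable_Y (m : ℝ≥0) : Measurable (Y m) := by
  unfold Y
  fun_prop

section
variable {W : Measure Pth} (hW : IsW W)
include hW

lemma mu0_prob : IsProbabilityMeasure (mu0 W) := by
  have := hW.prob
  unfold mu0
  infer_instance

lemma lintegral_mu0 {G : Om → ℝ≥0∞} (hG : Measurable G) :
    ∫⁻ ω, G ω ∂(mu0 W) = ∫⁻ P, ∫⁻ M, ∫⁻ F, ∫⁻ M', G (P, M, F, M') ∂W ∂W ∂W ∂W := by
  have := hW.prob
  unfold mu0
  rw [lintegral_prod _ hG.aemeasurable]
  refine lintegral_congr fun P => ?_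
  rw [lintegral_prod _ (by fun_prop)]
  refine lintegral_congr fun M => ?_
  rw [lintegral_prod _ (by fun_prop)]

/-- **Law bound**: the law of the process seen from `- vv P - c_k` is at most `4 Cb k` times Wiener
measure. -/
lemma law_bound (k : ℕ) {G : Pth → ℝ≥0∞} (hG : Measurable G) :
    ∫⁻ ω, G (Y (cc k) ω) ∂(mu0 W) ≤ Cb k * 4 * ∫⁻ A, G A ∂W := by
  have := hW.prob
  set c : ℝ≥0 := (cc k : ℝ≥0) with hc
  have hca : c ≤ (tt (k + 1) : ℝ≥0) := by
    rw [hc]
    have := cc_le k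
    exact_mod_cast (by omega : cc k ≤ tt (k + 1))
  let K : ℝ≥0 → Pth → ℝ≥0∞ := fun u P =>
    ∫⁻ F, ∫⁻ M, ∫⁻ M', G (cat (c + u + vv F) (glue c P (glue u M M')) F) ∂W ∂W ∂W
  have mK : Measurable (Function.uncurry K) := by
    change Measurable fun x : ℝ≥0 × Pth =>
      ∫⁻ F, ∫⁻ M, ∫⁻ M', G (cat (c + x.1 + vv F) (glue c x.2 (glue x.1 M M')) F) ∂W ∂W ∂W
    apply Measurable.lintegral_prod_right (f := fun (x : ℝ≥0 × Pth) (F : Pth) =>
      ∫⁻ M, ∫⁻ M', G (cat (c + x.1 + vv F) (glue c x.2 (glue x.1 M M')) F) ∂W ∂W)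
    apply Measurable.lintegral_prod_right (f := fun (x : (ℝ≥0 × Pth) × Pth) (M : Pth) =>
      ∫⁻ M', G (cat (c + x.1.1 + vv x.2) (glue c x.1.2 (glue x.1.1 M M')) x.2) ∂W)
    apply Measurable.lintegral_prod_right (f := fun (x : ((ℝ≥0 × Pth) × Pth) × Pth) (M' : Pth) =>
      G (cat (c + x.1.1.1 + vv x.1.2) (glue c x.1.1.2 (glue x.1.1.1 x.2 M')) x.1.2))
    fun_prop
  have hloc : ∀ u P Q, K u (cat (tt (k + 1)) P Q) = K u P := by
    intro u P Q
    simp only [K, glue_cat_of_le hca]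
  calc ∫⁻ ω, G (Y c ω) ∂(mu0 W)
      = ∫⁻ P, ∫⁻ M, ∫⁻ F, ∫⁻ M', G (Y c (P, M, F, M')) ∂W ∂W ∂W ∂W :=
        lintegral_mu0 hW (by fun_prop)
    _ = ∫⁻ P, K (vv P) P ∂W := by
        refine lintegral_congr fun P => ?_
        simp only [K, Y, glue_cat_cat]
        rw [lintegral_lintegral_swap]
        apply Measurable.aemeasurable
        apply Measurable.lintegral_prod_right (f := fun (x : Pth × Pth) (M' : Pth) =>
          G (cat (c + vv P + vv x.2) (glue c P (glue (vv P) x.1 M')) x.2))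
        fun_prop
    _ ≤ Cb k * ∫⁻ P, (∫⁻ u in Icc (0 : ℝ) 2, K u.toNNReal P) ∂W := LB1 hW k mK hloc
    _ = Cb k * ∫⁻ u in Icc (0 : ℝ) 2, ∫⁻ P, K u.toNNReal P ∂W := by
        rw [lintegral_lintegral_swap]
        apply Measurable.aemeasurable
        exact mK.comp (((measurable_real_toNNReal).comp measurable_snd).prodMk measurable_fst)
    _ = Cb k * ∫⁻ u in Icc (0 : ℝ) 2, ∫⁻ F, ∫⁻ B, G (cat (c + u.toNNReal + vv F) B F) ∂W ∂W := by
        congr 1
        refine lintegral_congr fun u => ?_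
        exact LB2 hW c u.toNNReal hG
    _ ≤ Cb k * (4 * ∫⁻ A, G A ∂W) := by
        gcongr
        exact LB3 hW c hG
    _ = _ := by ring

end

end Pool.Agent.H4.BM
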