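import Mathlib
import Pool.Agent.H4.BM.LawBound

open MeasureTheory ProbabilityTheory Set Filter Topology
open scoped NNReal ENNReal Real

namespace Pool.Agent.H4.BM

open Pth

lemma Cb_ne_top (k : ℕ) : Cb k ≠ ∞ := ENNReal.ofReal_ne_top

lemma Cb_ne_zero (k : ℕ) : Cb k ≠ 0 := by
  unfold Cb
  rw [Ne, ENNReal.ofReal_eq_zero, not_le]
  positivity

lemma Cb4_ne_top (k : ℕ) : Cb k * 4 ≠ ∞ := ENNReal.mul_ne_top ENNReal.ofReal_ne_top (by norm_num)

lemma Cb4_ne_zero (k : ℕ) : Cb k * 4 ≠ 0 := mul_ne_zero (Cb_ne_zero k) (by norm_num)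

section
variable {W : Measure Pth} (hW : IsW W)
include hW

lemma exists_dens (k : ℕ) : ∃ f : Pth → ℝ≥0∞, Measurable f ∧ (∀ A, f A ≤ 1) ∧
    (mu0 W).map (Y (cc k)) = (Cb k * 4) • W.withDensity f := by
  have := hW.prob
  have := mu0_prob hW
  set ν := (mu0 W).map (Y (cc k)) with hν
  have hle : ν ≤ (Cb k * 4) • W := by
    refine Measure.le_iff.2 fun s hs => ?_
    have h := law_bound hW k (G := s.indicator 1) (measurable_one.indicator hs)
    rw [lintegral_indicator_one hs] at h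
    rw [hν, Measure.map_apply (measurable_Y _) hs, Measure.smul_apply, smul_eq_mul]
    refine le_trans (le_of_eq ?_) h
    rw [← lintegral_indicator_one ((measurable_Y _) hs)]
    rfl
  set ν' := (Cb k * 4)⁻¹ • ν with hν'
  have hle' : ν' ≤ W := by
    refine Measure.le_iff.2 fun s hs => ?_
    have h := Measure.le_iff.1 hle s hs
    rw [hν', Measure.smul_apply, smul_eq_mul]
    rw [Measure.smul_apply, smul_eq_mul] at h
    calc (Cb k * 4)⁻¹ * ν s ≤ (Cb k * 4)⁻¹ * (Cb k * 4 * W s) := by gcongr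
      _ = W s := by
        rw [← mul_assoc, ENNReal.inv_mul_cancel (Cb4_ne_zero k) (Cb4_ne_top k), one_mul]
  have hac : ν' ≪ W := Measure.absolutelyContinuous_of_le hle'
  have hfin : IsFiniteMeasure ν' := ⟨(hle' univ).trans_lt (measure_lt_top _ _)⟩
  have h1 : W.withDensity (ν'.rnDeriv W) = ν' := Measure.withDensity_rnDeriv_eq ν' W hac
  have h2 : ν'.rnDeriv W ≤ᵐ[W] 1 := Measure.rnDeriv_le_one_of_le hle'
  refine ⟨fun A => min (ν'.rnDeriv W A) 1, (Measure.measurable_rnDeriv _ _).min measurable_const,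
    fun A => min_le_right _ _, ?_⟩
  have h3 : W.withDensity (fun A => min (ν'.rnDeriv W A) 1) = ν' := by
    rw [← h1]
    refine withDensity_congr_ae ?_
    filter_upwards [h2] with A hA
    rw [h1]
    exact min_eq_left hA
  rw [h3, hν', smul_smul, ENNReal.mul_inv_cancel (Cb4_ne_zero k) (Cb4_ne_top k), one_smul]

/-- independence of the hidden stretch of the path -/
lemma hidden (k : ℕ) {d d' : ℝ≥0} (hd' : d' ≤ d) (hd : ((cc k : ℝ≥0) : ℝ) + d = tt (k + 1))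
    {G : Pth → ℝ≥0∞} (hG : Measurable G) :
    ∫⁻ ω, G (Y (cc k + d') ω) ∂(mu0 W) =
      ∫⁻ Q, ∫⁻ ω, G (glue d' Q (Y (cc k) ω)) ∂(mu0 W) ∂W := by
  have := hW.prob
  have := mu0_prob hW
  set c : ℝ≥0 := (cc k : ℝ≥0) with hc
  have hc' : (c : ℝ) = cc k := by rw [hc]; norm_cast
  let K : Pth → Pth → ℝ≥0∞ := fun Q P =>
    ∫⁻ M, ∫⁻ F, ∫⁻ M', G (glue d' Q (Y c (P, M, F, M'))) ∂W ∂W ∂W
  have mK : Measurable fun x : Pth × Pth => K x.1 x.2 := by
    apply Measurable.lintegral_prod_right (f := fun (x : Pth × Pth) (M : Pth) =>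
      ∫⁻ F, ∫⁻ M', G (glue d' x.1 (Y c (x.2, M, F, M'))) ∂W ∂W)
    apply Measurable.lintegral_prod_right (f := fun (x : (Pth × Pth) × Pth) (F : Pth) =>
      ∫⁻ M', G (glue d' x.1.1 (Y c (x.1.2, x.2, F, M'))) ∂W)
    apply Measurable.lintegral_prod_right (f := fun (x : ((Pth × Pth) × Pth) × Pth) (M' : Pth) =>
      G (glue d' x.1.1.1 (Y c (x.1.1.2, x.1.2, x.2, M'))))
    fun_prop
  have mK' : ∀ {α : Type} [MeasurableSpace α] {Q P : α → Pth}, Measurable Q → Measurable P →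
      Measurable fun x => K (Q x) (P x) := fun hQ hP => mK.comp (hQ.prodMk hP)
  have hind : ∀ Q Q1 Q2 Q2' Q3 : Pth, K Q (cat c Q1 (cat d Q2 Q3)) = K Q (cat c Q1 (cat d Q2' Q3)) := by
    intro Q Q1 Q2 Q2' Q3
    simp only [K]
    refine lintegral_congr fun M => lintegral_congr fun F => lintegral_congr fun M' => ?_
    have hv := vv_hidden k hc' hd Q1 Q2 Q2' Q3
    simp only [Y, glue_cat_cat, hv, glue_cat_of_le le_rfl]
  have hL : ∫⁻ ω, G (Y (c + d') ω) ∂(mu0 W) = ∫⁻ Q1, ∫⁻ Q2, ∫⁻ Q3, K Q2 (cat c Q1 (cat d Q2 Q3)) ∂W ∂W ∂W := by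
    have h1 : ∫⁻ ω, G (Y (c + d') ω) ∂(mu0 W) = ∫⁻ P, K (shift c P) P ∂W := by
      rw [lintegral_mu0 hW (by fun_prop)]
      refine lintegral_congr fun P => lintegral_congr fun M => lintegral_congr fun F =>
        lintegral_congr fun M' => ?_
      simp only [Y]
      rw [← add_assoc, glue_add]
    rw [h1, ← lintegral_cat hW c (mK' (by fun_prop) (by fun_prop))]
    refine lintegral_congr fun Q1 => ?_
    rw [← lintegral_cat hW d (mK' (by fun_prop) (by fun_prop))]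
    refine lintegral_congr fun Q2 => lintegral_congr fun Q3 => ?_
    rw [shift_cat]
    simp only [K, glue_cat_of_le hd']
  have hR : ∫⁻ Q, ∫⁻ ω, G (glue d' Q (Y c ω)) ∂(mu0 W) ∂W =
      ∫⁻ Q, ∫⁻ Q1, ∫⁻ Q3, K Q (cat c Q1 (cat d Q Q3)) ∂W ∂W ∂W := by
    refine lintegral_congr fun Q => ?_
    have h1 : ∫⁻ ω, G (glue d' Q (Y c ω)) ∂(mu0 W) = ∫⁻ P, K Q P ∂W := by
      rw [lintegral_mu0 hW (by fun_prop)]
    rw [h1, ← lintegral_cat hW c (mK' (by fun_prop) (by fun_prop))]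
    refine lintegral_congr fun Q1 => ?_
    rw [← lintegral_cat hW d (mK' (by fun_prop) (by fun_prop))]
    have h2 : ∀ Q2 : Pth, ∫⁻ Q3, K Q (cat c Q1 (cat d Q2 Q3)) ∂W = ∫⁻ Q3, K Q (cat c Q1 (cat d Q Q3)) ∂W :=
      fun Q2 => lintegral_congr fun Q3 => hind _ _ _ _ _
    simp only [h2, lintegral_const, measure_univ, mul_one]
  rw [hL, hR, lintegral_lintegral_swap]
  apply Measurable.aemeasurable
  apply Measurable.lintegral_prod_right (f := fun (x : Pth × Pth) (Q3 : Pth) =>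
    K x.2 (cat c x.1 (cat d x.2 Q3)))
  exact mK' (by fun_prop) (by fun_prop)

/-- the law of the process seen from `- vv P - c_k - d'` -/
lemma law_Y (k : ℕ) {d d' : ℝ≥0} (hd' : d' ≤ d) (hd : ((cc k : ℝ≥0) : ℝ) + d = tt (k + 1))
    {f : Pth → ℝ≥0∞} (hf : Measurable f)
    (hfY : (mu0 W).map (Y (cc k)) = (Cb k * 4) • W.withDensity f) {G : Pth → ℝ≥0∞}
    (hG : Measurable G) :
    ∫⁻ ω, G (Y (cc k + d') ω) ∂(mu0 W) = Cb k * 4 * ∫⁻ A, f (shift d' A) * G A ∂W := by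
  have := hW.prob
  have := mu0_prob hW
  rw [hidden hW k hd' hd hG]
  have h1 : ∀ Q : Pth, ∫⁻ ω, G (glue d' Q (Y (cc k) ω)) ∂(mu0 W) =
      Cb k * 4 * ∫⁻ z, f (shift d' (glue d' Q z)) * G (glue d' Q z) ∂W := by
    intro Q
    have e : ∫⁻ ω, G (glue d' Q (Y (cc k) ω)) ∂(mu0 W) =
        ∫⁻ z, G (glue d' Q z) ∂((mu0 W).map (Y (cc k))) := by
      rw [lintegral_map (by fun_prop) (measurable_Y _)]
    rw [e, hfY, lintegral_smul_measure, smul_eq_mul, lintegral_withDensity_eq_lintegral_mul _ hf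
      (by fun_prop)]
    simp only [shift_glue, Pi.mul_apply]
  simp only [h1]
  rw [lintegral_const_mul]
  · congr 1
    exact lintegral_glue hW d' (G := fun A => f (shift d' A) * G A) (by fun_prop)
  · apply Measurable.lintegral_prod_right (f := fun (Q z : Pth) =>
      f (shift d' (glue d' Q z)) * G (glue d' Q z))
    fun_prop

end

end Pool.Agent.H4.BM
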