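import Mathlib
import Pool.Agent.H4.BM.LawBound

open MeasureTheory ProbabilityTheory Set Filter Topology
open scoped NNReal ENNReal Real

namespace Pool.Agent.H4.BM

open Pth

/-! ### a variance bound -/

section var
variable {E : Type*} [MeasurableSpace E] {ν : Measure E} [IsProbabilityMeasure ν]

lemma integrable_of_bdd {f : E → ℝ} (hf : Measurable f) {K : ℝ} (hK : ∀ x, |f x| ≤ K) :
    Integrable f ν :=
  Integrable.of_bound hf.aestronglyMeasurable K (Eventually.of_forall fun x => by
    rw [Real.norm_eq_abs]; exact hK x)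

lemma var_bound {N c : ℕ} {K : ℝ} (D : ℕ → E → ℝ) (hm : ∀ j, Measurable (D j))
    (hb : ∀ j x, |D j x| ≤ K) (horth : ∀ i j, i < N → j < N → i + c ≤ j → ∫ x, D i x * D j x ∂ν = 0) :
    ∫ x, (∑ j ∈ Finset.range N, D j x) ^ 2 ∂ν ≤ N * (2 * c * K ^ 2) := by
  have hint : ∀ i j, Integrable (fun x => D i x * D j x) ν := by
    intro i j
    refine integrable_of_bdd ((hm i).mul (hm j)) (K := K * K) fun x => ?_
    rw [abs_mul]
    exact mul_le_mul (hb i x) (hb j x) (abs_nonneg _) ((abs_nonneg _).trans (hb i x))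
  have h1 : ∫ x, (∑ j ∈ Finset.range N, D j x) ^ 2 ∂ν =
      ∑ i ∈ Finset.range N, ∑ j ∈ Finset.range N, ∫ x, D i x * D j x ∂ν := by
    simp only [sq, Finset.sum_mul_sum]
    rw [integral_finsetSum _ fun i _ => integrable_finsetSum _ fun j _ => hint i j]
    refine Finset.sum_congr rfl fun i _ => ?_
    rw [integral_finsetSum _ fun j _ => hint i j]
  rw [h1]
  have h2 : ∀ i j, ∫ x, D i x * D j x ∂ν ≤ K ^ 2 := by
    intro i j
    have : ∫ x, D i x * D j x ∂ν ≤ ∫ _x, K ^ 2 ∂ν := by
      refine integral_mono (hint i j) (integrable_const _) fun x => ?_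
      calc D i x * D j x ≤ |D i x * D j x| := le_abs_self _
        _ = |D i x| * |D j x| := abs_mul _ _
        _ ≤ K * K := mul_le_mul (hb i x) (hb j x) (abs_nonneg _) ((abs_nonneg _).trans (hb i x))
        _ = K ^ 2 := (sq K).symm
    simpa using this
  have h3 : ∀ i ∈ Finset.range N, ∑ j ∈ Finset.range N, ∫ x, D i x * D j x ∂ν ≤ 2 * c * K ^ 2 := by
    intro i hi
    have hi' := Finset.mem_range.1 hi
    have h4 : ∑ j ∈ Finset.range N, ∫ x, D i x * D j x ∂ν ≤
        ∑ j ∈ (Finset.range N).filter (fun j => j < i + c ∧ i < j + c), K ^ 2 := by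
      rw [Finset.sum_filter]
      refine Finset.sum_le_sum fun j hj => ?_
      have hj' := Finset.mem_range.1 hj
      split_ifs with h
      · exact h2 i j
      · refine le_of_eq ?_
        rw [not_and_or] at h
        push Not at h
        rcases h with h | h
        · exact horth i j hi' hj' h
        · have := horth j i hj' hi' h
          simpa only [mul_comm] using this
    refine h4.trans ?_
    rw [Finset.sum_const, nsmul_eq_mul]
    have hcard : ((Finset.range N).filter (fun j => j < i + c ∧ i < j + c)).card ≤ 2 * c := by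
      have hsub : (Finset.range N).filter (fun j => j < i + c ∧ i < j + c) ⊆
          Finset.Ico (i + 1 - c) (i + c) := by
        intro j hj
        rw [Finset.mem_filter] at hj
        rw [Finset.mem_Ico]
        omega
      refine (Finset.card_le_card hsub).trans ?_
      rw [Nat.card_Ico]
      omega
    have : (((Finset.range N).filter (fun j => j < i + c ∧ i < j + c)).card : ℝ) ≤ 2 * c := by
      exact_mod_cast hcard
    nlinarith [sq_nonneg K]
  refine (Finset.sum_le_sum h3).trans ?_
  rw [Finset.sum_const, Finset.card_range, nsmul_eq_mul]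

lemma abs_le_of_sq (x : ℝ) {ε : ℝ} (hε : 0 < ε) : |x| ≤ ε + x ^ 2 / ε := by
  rw [← sub_le_iff_le_add', le_div_iff₀ hε, ← sq_abs]
  nlinarith [sq_nonneg (|x| - ε), abs_nonneg x, sq_nonneg (|x|)]

lemma l1_bound {N c : ℕ} (hN : 0 < N) {K : ℝ} (D : ℕ → E → ℝ) (hm : ∀ j, Measurable (D j))
    (hb : ∀ j x, |D j x| ≤ K) (horth : ∀ i j, i < N → j < N → i + c ≤ j → ∫ x, D i x * D j x ∂ν = 0)
    {ε : ℝ} (hε : 0 < ε) :
    ∫ x, |(1 / N : ℝ) * ∑ j ∈ Finset.range N, D j x| ∂ν ≤ ε + 2 * c * K ^ 2 / (N * ε) := by
  have hN' : (0 : ℝ) < N := by exact_mod_cast hN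
  have hms : Measurable fun x => ∑ j ∈ Finset.range N, D j x := Finset.measurable_sum _ fun j _ => hm j
  have hbs : ∀ x, |∑ j ∈ Finset.range N, D j x| ≤ N * K := by
    intro x
    refine (Finset.abs_sum_le_sum_abs _ _).trans ?_
    refine (Finset.sum_le_sum fun j _ => hb j x).trans ?_
    rw [Finset.sum_const, Finset.card_range, nsmul_eq_mul]
  have hi1 : Integrable (fun x => |(1 / N : ℝ) * ∑ j ∈ Finset.range N, D j x|) ν :=
    ((integrable_of_bdd hms hbs).const_mul _).abs
  have hi2 : Integrable (fun x => (∑ j ∈ Finset.range N, D j x) ^ 2) ν := by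
    refine integrable_of_bdd (hms.pow_const 2) (K := (N * K) ^ 2) fun x => ?_
    rw [abs_pow]
    exact pow_le_pow_left₀ (abs_nonneg _) (hbs x) 2
  have h1 : ∫ x, |(1 / N : ℝ) * ∑ j ∈ Finset.range N, D j x| ∂ν ≤
      ∫ x, (ε + (1 / (N ^ 2 * ε)) * (∑ j ∈ Finset.range N, D j x) ^ 2) ∂ν := by
    refine integral_mono hi1 ((integrable_const _).add (hi2.const_mul _)) fun x => ?_
    refine (abs_le_of_sq _ hε).trans (le_of_eq ?_)
    field_simp
  refine h1.trans ?_
  rw [integral_add (integrable_const _) (hi2.const_mul _), integral_const_mul]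
  have h2 := var_bound (ν := ν) D hm hb horth
  have h3 : 1 / ((N : ℝ) ^ 2 * ε) * ∫ x, (∑ j ∈ Finset.range N, D j x) ^ 2 ∂ν ≤
      1 / ((N : ℝ) ^ 2 * ε) * (N * (2 * c * K ^ 2)) := by gcongr
  have h4 : 1 / ((N : ℝ) ^ 2 * ε) * (N * (2 * c * K ^ 2)) = 2 * c * K ^ 2 / (N * ε) := by
    field_simp
  simp only [integral_const, probReal_univ, smul_eq_mul, one_mul]
  linarith

end var

/-! ### the law of large numbers for the shift -/

/-- shift by a natural number -/
def sh (n : ℕ) (A : Pth) : Pth := shift (n : ℝ≥0) A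

@[fun_prop] lemma measurable_sh (n : ℕ) : Measurable (sh n) :=
  measurable_shift measurable_const measurable_id

lemma sh_sh (a b : ℕ) (A : Pth) : sh a (sh b A) = sh (a + b) A := by
  unfold sh
  rw [shift_shift]
  push_cast
  rfl

lemma sh_zero (A : Pth) : sh 0 A = A := by
  unfold sh
  refine ext_pos fun t ht => ?_
  rw [shift_apply_of_nonneg _ _ ht]
  simp

section
variable {W : Measure Pth} (hW : IsW W)
include hW

lemma measurePreserving_sh (n : ℕ) : MeasurePreserving (sh n) W W :=
  ⟨measurable_sh n, map_shift hW _⟩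

lemma integral_sh (n : ℕ) {g : Pth → ℝ} (hg : Measurable g) :
    ∫ A, g (sh n A) ∂W = ∫ A, g A ∂W := by
  have h := (measurePreserving_sh hW n).map_eq
  conv_rhs => rw [← h]
  rw [integral_map (measurable_sh n).aemeasurable hg.aestronglyMeasurable]

/-- the filtration of the stopped paths -/
def Filt : Filtration ℕ (inferInstance : MeasurableSpace Pth) where
  seq n := MeasurableSpace.comap (stop (n : ℝ≥0)) inferInstance
  mono' := by
    intro n m h
    have e : stop (n : ℝ≥0) = stop (n : ℝ≥0) ∘ stop (m : ℝ≥0) := by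
      funext A
      ext t
      simp only [Function.comp_apply, stop_apply]
      have : (n : ℝ) ≤ m := by exact_mod_cast h
      rw [min_assoc, NNReal.coe_natCast, NNReal.coe_natCast, min_eq_left this]
    change MeasurableSpace.comap (stop (n : ℝ≥0)) _ ≤ MeasurableSpace.comap (stop (m : ℝ≥0)) _
    rw [e, ← MeasurableSpace.comap_comp]
    exact MeasurableSpace.comap_mono (measurable_stop measurable_const measurable_id).comap_le
  le' n := (measurable_stop measurable_const measurable_id).comap_le

lemma exists_local {g : Pth → ℝ} (hg : Measurable g) {K : ℝ} (hK : ∀ A, |g A| ≤ K) {ε : ℝ}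
    (hε : 0 < ε) : ∃ (c : ℕ) (G : Pth → ℝ), Measurable G ∧ (∀ A, |G A| ≤ K) ∧
      ∫ A, |G (stop c A) - g A| ∂W ≤ ε := by
  have := hW.prob
  have hgi : Integrable g W := integrable_of_bdd hg hK
  have hsup : (inferInstance : MeasurableSpace Pth) ≤ ⨆ n, Filt n := by
    intro s hs
    have hid : @Measurable Pth Pth (⨆ n, Filt n) _ id := by
      refine @measurable_of_eval Pth (⨆ n, Filt n) id fun t => ?_
      obtain ⟨n, hn⟩ := exists_nat_ge t
      have h1 : @Measurable Pth ℝ (Filt n) _ fun A => stop (n : ℝ≥0) A t :=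
        (measurable_apply t).comp (comap_measurable _)
      have e : (fun A : Pth => (id A : Pth) t) = fun A => stop (n : ℝ≥0) A t := by
        funext A
        rw [stop_apply, NNReal.coe_natCast, min_eq_left hn]
        rfl
      rw [e]
      exact h1.mono (le_iSup (fun n => Filt n) n) le_rfl
    exact hid hs
  have hconv := hgi.tendsto_eLpNorm_condExp (ℱ := Filt)
    ((hg.stronglyMeasurable).mono hsup)
  rw [ENNReal.tendsto_nhds_zero] at hconv
  obtain ⟨c, hc⟩ := (hconv (ENNReal.ofReal ε) (ENNReal.ofReal_pos.2 hε)).exists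
  obtain ⟨h, hh, heq⟩ := (stronglyMeasurable_condExp (f := g) (m := Filt c) (μ := W)).exists_eq_measurable_comp
  have hK0 : 0 ≤ K := (abs_nonneg _).trans (hK default)
  refine ⟨c, fun A => max (min (h A) K) (-K), (hh.measurable.min measurable_const).max measurable_const,
    fun A => ?_, ?_⟩
  · rw [abs_le]
    exact ⟨le_max_right _ _, max_le (min_le_right _ _) (by linarith)⟩
  · have h1 : ∫ A, |max (min (h (stop c A)) K) (-K) - g A| ∂W ≤ ∫ A, |h (stop c A) - g A| ∂W := by
      have hi : Integrable (fun A => h (stop c A)) W := by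
        have := integrable_condExp (m := Filt c) (f := g) (μ := W)
        rw [heq] at this
        exact this
      refine integral_mono_of_nonneg (Eventually.of_forall fun A => abs_nonneg _) (hi.sub hgi).abs
        (Eventually.of_forall fun A => ?_)
      have hgA := abs_le.1 (hK A)
      simp only
      rcases le_total (h (stop c A)) K with h2 | h2
      · rw [min_eq_left h2]
        rcases le_total (h (stop c A)) (-K) with h3 | h3
        · rw [max_eq_right h3, abs_sub_comm, abs_sub_comm (h (stop c A)), abs_of_nonneg (by linarith),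
            abs_of_nonneg (by linarith)]
          linarith
        · rw [max_eq_left h3]
      · rw [min_eq_right h2, max_eq_left (by linarith), abs_of_nonneg (by linarith),
          abs_of_nonneg (by linarith)]
        linarith
    refine h1.trans ?_
    have h2 : eLpNorm (W[g | Filt c] - g) 1 W = ENNReal.ofReal (∫ A, |h (stop c A) - g A| ∂W) := by
      rw [heq, eLpNorm_one_eq_lintegral_enorm, ofReal_integral_eq_lintegral_ofReal]
      · refine lintegral_congr fun A => ?_
        rw [Real.enorm_eq_ofReal_abs]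
        rfl
      · have := integrable_condExp (m := Filt c) (f := g) (μ := W)
        rw [heq] at this
        exact (this.sub hgi).abs
      · exact Eventually.of_forall fun A => abs_nonneg _
    rw [h2] at hc
    exact (ENNReal.ofReal_le_ofReal_iff hε.le).1 hc

lemma lln_local {c : ℕ} {G : Pth → ℝ} (hG : Measurable G) {K : ℝ} (hK : ∀ A, |G A| ≤ K)
    {N : ℕ} (hN : 0 < N) {ε : ℝ} (hε : 0 < ε) :
    ∫ A, |(1 / N : ℝ) * (∑ j ∈ Finset.range N, G (stop c (sh j A))) - ∫ B, G (stop c B) ∂W| ∂W ≤
      ε + 2 * c * (2 * K) ^ 2 / (N * ε) := by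
  have := hW.prob
  have hN' : (N : ℝ) ≠ 0 := by exact_mod_cast hN.ne'
  set g : Pth → ℝ := fun A => G (stop c A) with hg
  have hgm : Measurable g := hG.comp (measurable_stop measurable_const measurable_id)
  set I := ∫ B, g B ∂W with hI
  have hIK : |I| ≤ K := by
    rw [hI]
    refine (abs_integral_le_integral_abs).trans ?_
    have : ∫ A, |g A| ∂W ≤ ∫ _A, K ∂W :=
      integral_mono (integrable_of_bdd hgm (fun A => hK _)).abs (integrable_const _) fun A => hK _
    simpa using this
  have hb := l1_bound (ν := W) (c := c) hN (K := 2 * K) (fun j A => g (sh j A) - I)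
    (fun j => (hgm.comp (measurable_sh j)).sub_const _) (fun j A => by
      have h1 := hK (stop c (sh j A))
      have := abs_sub (g (sh j A)) I
      linarith) (fun i j _ _ hij => by
      -- independence
      obtain ⟨d, rfl⟩ : ∃ d, j = d + c + i := ⟨j - c - i, by omega⟩
      have e : (fun A => (g (sh i A) - I) * (g (sh (d + c + i) A) - I)) =
          fun A => (fun B => (g B - I) * (g (sh d (sh c B)) - I)) (sh i A) := by
        funext A
        simp only [sh_sh, add_assoc]
      rw [e, integral_sh hW i (g := fun B => (g B - I) * (g (sh d (sh c B)) - I))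
        ((hgm.sub_const _).mul
          ((hgm.comp ((measurable_sh d).comp (measurable_sh c))).sub_const _))]
      have hind : IndepFun (fun B => g B - I) (fun B => g (sh d (sh c B)) - I) W := by
        have h1 := indep_stop_shift hW (c : ℝ≥0)
        exact h1.comp (φ := fun B => G B - I) (ψ := fun B => g (sh d B) - I)
          (hG.sub_const _) ((hgm.comp (measurable_sh d)).sub_const _)
      have h2 : ∫ A, (g A - I) ∂W = 0 := by
        rw [integral_sub (integrable_of_bdd hgm fun A => hK _) (integrable_const _)]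
        simp [hI]
      have h3 := hind.integral_mul_eq_mul_integral (hgm.sub_const _).aestronglyMeasurable
        ((hgm.comp ((measurable_sh d).comp (measurable_sh c))).sub_const _).aestronglyMeasurable
      rw [h2, zero_mul] at h3
      exact h3) hε
  refine le_trans (le_of_eq ?_) hb
  refine integral_congr_ae (Eventually.of_forall fun A => ?_)
  simp only
  congr 1
  rw [Finset.sum_sub_distrib, Finset.sum_const, Finset.card_range, nsmul_eq_mul, mul_sub,
    ← mul_assoc, one_div_mul_cancel hN', one_mul]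

/-- **L¹ law of large numbers** for the shift on Wiener space -/
lemma lln {g : Pth → ℝ} (hg : Measurable g) {K : ℝ} (hK : ∀ A, |g A| ≤ K) {δ : ℝ} (hδ : 0 < δ) :
    ∃ N0 : ℕ, ∀ N ≥ N0, 0 < N →
      ∫ A, |(1 / N : ℝ) * (∑ j ∈ Finset.range N, g (sh j A)) - ∫ B, g B ∂W| ∂W ≤ δ := by
  have := hW.prob
  obtain ⟨c, G, hG, hGK, hGg⟩ := exists_local hW hg hK (ε := δ / 4) (by linarith)
  set C := 2 * c * (2 * K) ^ 2 with hC
  have hC0 : 0 ≤ C := by positivity
  obtain ⟨N0, hN0⟩ := exists_nat_gt (C * (16 / δ ^ 2))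
  refine ⟨N0, fun N hN hNpos => ?_⟩
  have hN' : (0 : ℝ) < N := by exact_mod_cast hNpos
  have hgi : Integrable g W := integrable_of_bdd hg hK
  have hGm : Measurable fun A => G (stop c A) := hG.comp (measurable_stop measurable_const measurable_id)
  have hGi : Integrable (fun A => G (stop c A)) W := integrable_of_bdd hGm fun A => hGK _
  have h1 := lln_local hW hG hGK (c := c) hNpos (ε := δ / 4) (by linarith)
  have hdi : Integrable (fun A => |G (stop c A) - g A|) W := (hGi.sub hgi).abs
  -- pointwise decomposition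
  have hpt : ∀ A, |(1 / N : ℝ) * (∑ j ∈ Finset.range N, g (sh j A)) - ∫ B, g B ∂W| ≤
      |(1 / N : ℝ) * (∑ j ∈ Finset.range N, G (stop c (sh j A))) - ∫ B, G (stop c B) ∂W| +
        (1 / N : ℝ) * (∑ j ∈ Finset.range N, |G (stop c (sh j A)) - g (sh j A)|) +
          ∫ B, |G (stop c B) - g B| ∂W := by
    intro A
    have e : (1 / N : ℝ) * (∑ j ∈ Finset.range N, g (sh j A)) - ∫ B, g B ∂W =
        ((1 / N : ℝ) * (∑ j ∈ Finset.range N, G (stop c (sh j A))) - ∫ B, G (stop c B) ∂W) -
          (1 / N : ℝ) * (∑ j ∈ Finset.range N, (G (stop c (sh j A)) - g (sh j A))) +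
            ∫ B, (G (stop c B) - g B) ∂W := by
      rw [Finset.sum_sub_distrib, integral_sub hGi hgi]
      ring
    rw [e]
    refine (abs_add_le _ _).trans (add_le_add ((abs_sub _ _).trans (add_le_add le_rfl ?_)) ?_)
    · rw [abs_mul, abs_of_nonneg (by positivity)]
      gcongr
      exact Finset.abs_sum_le_sum_abs _ _
    · exact abs_integral_le_integral_abs
  have hsum_int : Integrable (fun A => (1 / N : ℝ) *
      (∑ j ∈ Finset.range N, |G (stop c (sh j A)) - g (sh j A)|)) W := by
    refine Integrable.const_mul (integrable_finsetSum _ fun j _ => ?_) _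
    exact (measurePreserving_sh hW j).integrable_comp_of_integrable hdi
  have hfirst_int : Integrable (fun A => |(1 / N : ℝ) *
      (∑ j ∈ Finset.range N, G (stop c (sh j A))) - ∫ B, G (stop c B) ∂W|) W := by
    refine (Integrable.sub (Integrable.const_mul (integrable_finsetSum _ fun j _ => ?_) _)
      (integrable_const _)).abs
    exact (measurePreserving_sh hW j).integrable_comp_of_integrable hGi
  have h2 : ∫ A, |(1 / N : ℝ) * (∑ j ∈ Finset.range N, g (sh j A)) - ∫ B, g B ∂W| ∂W ≤
      ∫ A, (|(1 / N : ℝ) * (∑ j ∈ Finset.range N, G (stop c (sh j A))) - ∫ B, G (stop c B) ∂W| +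
        (1 / N : ℝ) * (∑ j ∈ Finset.range N, |G (stop c (sh j A)) - g (sh j A)|) +
          ∫ B, |G (stop c B) - g B| ∂W) ∂W :=
    integral_mono_of_nonneg (Eventually.of_forall fun A => abs_nonneg _)
      ((hfirst_int.add hsum_int).add (integrable_const _)) (Eventually.of_forall hpt)
  refine h2.trans ?_
  have hsplit : ∫ A, (|(1 / N : ℝ) * (∑ j ∈ Finset.range N, G (stop c (sh j A))) - ∫ B, G (stop c B) ∂W| +
        (1 / N : ℝ) * (∑ j ∈ Finset.range N, |G (stop c (sh j A)) - g (sh j A)|) +
          ∫ B, |G (stop c B) - g B| ∂W) ∂W =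
      (∫ A, |(1 / N : ℝ) * (∑ j ∈ Finset.range N, G (stop c (sh j A))) - ∫ B, G (stop c B) ∂W| ∂W) +
        (∫ A, (1 / N : ℝ) * (∑ j ∈ Finset.range N, |G (stop c (sh j A)) - g (sh j A)|) ∂W) +
          ∫ _A, (∫ B, |G (stop c B) - g B| ∂W) ∂W := by
    have e1 := integral_add (μ := W)
      (f := fun A => |(1 / N : ℝ) * (∑ j ∈ Finset.range N, G (stop c (sh j A))) - ∫ B, G (stop c B) ∂W| +
        (1 / N : ℝ) * (∑ j ∈ Finset.range N, |G (stop c (sh j A)) - g (sh j A)|))
      (g := fun _ => ∫ B, |G (stop c B) - g B| ∂W) (hfirst_int.add hsum_int) (integrable_const _)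
    have e2 := integral_add hfirst_int hsum_int
    rw [e1, e2]
  have hdj : ∀ j, Integrable (fun A => |G (stop c (sh j A)) - g (sh j A)|) W := fun j =>
    (measurePreserving_sh hW j).integrable_comp_of_integrable hdi
  rw [hsplit, integral_const_mul, integral_finsetSum _ fun j _ => hdj j]
  have h3 : ∀ j ∈ Finset.range N, ∫ A, |G (stop c (sh j A)) - g (sh j A)| ∂W =
      ∫ A, |G (stop c A) - g A| ∂W := by
    intro j _
    exact integral_sh hW j (g := fun A => |G (stop c A) - g A|) (hGm.sub hg).abs
  rw [Finset.sum_congr rfl h3, Finset.sum_const, Finset.card_range, nsmul_eq_mul, integral_const,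
    probReal_univ, smul_eq_mul, one_mul]
  have h4 : (1 / N : ℝ) * (N * ∫ A, |G (stop c A) - g A| ∂W) = ∫ A, |G (stop c A) - g A| ∂W := by
    field_simp
  rw [h4]
  have h5 : 2 * c * (2 * K) ^ 2 / (N * (δ / 4)) ≤ δ / 4 := by
    rw [← hC, div_le_iff₀ (by positivity)]
    have h6 : C * (16 / δ ^ 2) < N := hN0.trans_le (by exact_mod_cast hN)
    have h7 : C * 16 < N * δ ^ 2 := by
      rw [mul_div_assoc', div_lt_iff₀ (by positivity)] at h6
      exact h6
    nlinarith
  linarith

end

end Pool.Agent.H4.BM
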