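import Mathlib
import Pool.Agent.H4.BM.Density
import Pool.Agent.H4.BM.Ergodic

open MeasureTheory ProbabilityTheory Set Filter Topology
open scoped NNReal ENNReal Real

namespace Pool.Agent.H4.BM

open Pth

/-- real version of the constant -/
noncomputable def Cr (k : ℕ) : ℝ := (Cb k * 4).toReal

lemma Cr_eq (k : ℕ) : Cr k = 12 * 2 ^ (k + 2) := by
  unfold Cr Cb
  rw [ENNReal.toReal_mul, ENNReal.toReal_ofReal (by positivity)]
  rw [one_div, inv_pow, div_inv_eq_mul]
  norm_num
  ring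

lemma Cr_mono {j k : ℕ} (h : j ≤ k) : Cr j ≤ Cr k := by
  rw [Cr_eq, Cr_eq]
  have : (2 : ℝ) ^ (j + 2) ≤ 2 ^ (k + 2) := pow_le_pow_right₀ (by norm_num) (by omega)
  linarith

lemma Cr_pos (k : ℕ) : 0 < Cr k := by
  rw [Cr_eq]
  positivity

/-- half of `t_(k+1)` -/
def nn (k : ℕ) : ℕ := tt (k + 1) / 2

lemma two_nn (k : ℕ) : 2 * nn k = tt (k + 1) := by
  unfold nn
  refine Nat.mul_div_cancel' ?_
  rw [tt_succ]
  refine Dvd.dvd.mul_left (dvd_pow (by norm_num) (by omega)) _

lemma cc_le_nn (k : ℕ) : cc k ≤ nn k := by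
  have h1 := cc_le k
  have h2 := two_nn k
  omega

lemma nn_pos (k : ℕ) : 0 < nn k := by
  have h1 := cc_le_nn k
  unfold cc at h1
  omega

lemma lt_nn (k : ℕ) : k < nn k := by
  have h1 := cc_le_nn k
  have h2 : k < tt k + 1 := by
    unfold tt
    have : k < 16 ^ k := Nat.lt_pow_self (by norm_num)
    have h3 : 16 ^ k ≤ 16 ^ (k ^ 2) := Nat.pow_le_pow_right (by norm_num) (Nat.le_self_pow (by norm_num) k)
    omega
  unfold cc at h1
  omega

lemma ratio_le (k : ℕ) : 2 * (cc k : ℝ) * Cr k ^ 2 / nn k ≤ 27648 / 64 ^ k := by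
  have hn : (nn k : ℝ) = tt k * 16 ^ (2 * k + 1) / 2 := by
    have h := two_nn k
    rw [tt_succ] at h
    have h' : 2 * (nn k : ℝ) = tt k * 16 ^ (2 * k + 1) := by exact_mod_cast h
    linarith
  have hc : (cc k : ℝ) ≤ 3 * tt k := by
    unfold cc
    have : (1 : ℝ) ≤ tt k := by exact_mod_cast tt_pos k
    push_cast
    linarith
  have ht : (0 : ℝ) < tt k := by exact_mod_cast tt_pos k
  rw [hn, Cr_eq, div_le_div_iff₀ (by positivity) (by positivity)]
  have e1 : (16 : ℝ) ^ (2 * k + 1) = 16 * (64 ^ k * 4 ^ k) := by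
    rw [pow_add, pow_mul, ← mul_pow]
    norm_num
    ring
  have e2 : ((12 : ℝ) * 2 ^ (k + 2)) ^ 2 = 2304 * 4 ^ k := by
    rw [mul_pow, ← pow_mul, pow_mul', pow_add]
    norm_num
    ring
  rw [e1, e2]
  have h4 : (0 : ℝ) < 4 ^ k := by positivity
  have h64 : (0 : ℝ) < 64 ^ k := by positivity
  calc 2 * (cc k : ℝ) * (2304 * 4 ^ k) * 64 ^ k ≤ 2 * (3 * tt k) * (2304 * 4 ^ k) * 64 ^ k := by gcongr
    _ ≤ 27648 * (tt k * (16 * (64 ^ k * 4 ^ k)) / 2) := by
      have : 0 < (tt k : ℝ) * 4 ^ k * 64 ^ k := by positivity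
      nlinarith

lemma sh_Y (a d : ℕ) (ω : Om) : sh d (Y ((a + d : ℕ) : ℝ≥0) ω) = Y (a : ℝ≥0) ω := by
  unfold sh Y
  rw [Nat.cast_add, ← add_assoc, shift_glue_add]

lemma sh_Y' {a m : ℕ} (h : a ≤ m) (ω : Om) : sh (m - a) (Y (m : ℝ≥0) ω) = Y (a : ℝ≥0) ω := by
  obtain ⟨d, rfl⟩ := Nat.exists_eq_add_of_le h
  rw [Nat.add_sub_cancel_left]
  exact sh_Y a d ω

section
variable {W : Measure Pth} (hW : IsW W)

/-- the normalised density of the law of `Y (cc k)` -/
noncomputable def dn (k : ℕ) : Pth → ℝ≥0∞ := (exists_dens hW k).choose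

lemma measurable_dn (k : ℕ) : Measurable (dn hW k) := (exists_dens hW k).choose_spec.1

lemma dn_le (k : ℕ) (A : Pth) : dn hW k A ≤ 1 := (exists_dens hW k).choose_spec.2.1 A

lemma dn_spec (k : ℕ) : (mu0 W).map (Y (cc k)) = (Cb k * 4) • W.withDensity (dn hW k) :=
  (exists_dens hW k).choose_spec.2.2

/-- the density of the law of `Y (cc k)` -/
noncomputable def Fr (k : ℕ) (A : Pth) : ℝ := (Cb k * 4 * dn hW k A).toReal

lemma measurable_Fr (k : ℕ) : Measurable (Fr hW k) :=
  ((measurable_dn hW k).const_mul _).ennreal_toReal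

lemma Fr_nonneg (k : ℕ) (A : Pth) : 0 ≤ Fr hW k A := ENNReal.toReal_nonneg

lemma Fr_le (k : ℕ) (A : Pth) : Fr hW k A ≤ Cr k := by
  unfold Fr Cr
  refine ENNReal.toReal_mono (Cb4_ne_top k) ?_
  calc Cb k * 4 * dn hW k A ≤ Cb k * 4 * 1 := by gcongr; exact dn_le hW k A
    _ = _ := mul_one _

lemma map_Y (k m : ℕ) (h1 : cc k ≤ m) (h2 : m ≤ tt (k + 1)) :
    (mu0 W).map (Y (m : ℝ≥0)) = W.withDensity (fun A => Cb k * 4 * dn hW k (sh (m - cc k) A)) := by
  have := hW.prob
  obtain ⟨d', rfl⟩ := Nat.exists_eq_add_of_le h1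
  obtain ⟨e, he⟩ := Nat.exists_eq_add_of_le h2
  rw [Nat.add_sub_cancel_left]
  ext s hs
  rw [Measure.map_apply (measurable_Y _) hs, withDensity_apply _ hs, ← lintegral_indicator_one
    ((measurable_Y _) hs)]
  have hl := law_Y hW k (d := ((d' + e : ℕ) : ℝ≥0)) (d' := (d' : ℝ≥0)) (by push_cast; simp)
    (by
      rw [he]
      push_cast
      ring) (measurable_dn hW k) (dn_spec hW k) (G := s.indicator 1) (measurable_one.indicator hs)
  rw [Nat.cast_add]
  have e1 : ∫⁻ ω, (Y ((cc k : ℝ≥0) + (d' : ℝ≥0)) ⁻¹' s).indicator 1 ω ∂(mu0 W) =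
      ∫⁻ ω, s.indicator 1 (Y ((cc k : ℝ≥0) + (d' : ℝ≥0)) ω) ∂(mu0 W) := rfl
  rw [e1, hl, ← lintegral_indicator hs, ← lintegral_const_mul]
  · refine lintegral_congr fun A => ?_
    by_cases hA : A ∈ s
    · rw [indicator_of_mem hA, indicator_of_mem hA, Pi.one_apply, mul_one]
      rfl
    · rw [indicator_of_notMem hA, indicator_of_notMem hA, mul_zero, mul_zero]
  · exact ((measurable_dn hW k).comp (measurable_shift measurable_const measurable_id)).mul
      (measurable_one.indicator hs)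

lemma integral_Y (k m : ℕ) (h1 : cc k ≤ m) (h2 : m ≤ tt (k + 1)) {G : Pth → ℝ} (hG : Measurable G) :
    ∫ ω, G (Y (m : ℝ≥0) ω) ∂(mu0 W) = ∫ A, Fr hW k (sh (m - cc k) A) * G A ∂W := by
  have e : ∫ ω, G (Y (m : ℝ≥0) ω) ∂(mu0 W) = ∫ A, G A ∂((mu0 W).map (Y (m : ℝ≥0))) := by
    rw [integral_map (measurable_Y _).aemeasurable hG.aestronglyMeasurable]
  rw [e, map_Y hW k m h1 h2, integral_withDensity_eq_integral_toReal_smul]
  · rfl
  · exact ((measurable_dn hW k).comp (measurable_sh _)).const_mul _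
  · refine Eventually.of_forall fun A => ?_
    refine lt_of_le_of_lt ?_ (Cb4_ne_top k).lt_top
    calc Cb k * 4 * dn hW k (sh (m - cc k) A) ≤ Cb k * 4 * 1 := by gcongr; exact dn_le hW k _
      _ = _ := mul_one _

variable (k0 : ℕ) (φ : Pth → ℝ)

/-- the density of the averaged law with weight `φ (Y (tt (k0+1)))` -/
noncomputable def hk (k : ℕ) (A : Pth) : ℝ :=
  (1 / nn k : ℝ) * ∑ j ∈ Finset.range (nn k),
    Fr hW k (sh (nn k + j - cc k) A) * φ (sh (nn k + j - tt (k0 + 1)) A)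

variable {φ} (hφ : Measurable φ) (hφ0 : ∀ A, 0 ≤ φ A) (hφ1 : ∀ A, φ A ≤ 1)
include hφ

lemma measurable_hk (k : ℕ) : Measurable (hk hW k0 φ k) := by
  unfold hk
  refine measurable_const.mul (Finset.measurable_sum _ fun j _ => ?_)
  exact ((measurable_Fr hW k).comp (measurable_sh _)).mul (hφ.comp (measurable_sh _))

include hφ0 in
omit hφ in
lemma hk_nonneg (k : ℕ) (A : Pth) : 0 ≤ hk hW k0 φ k A := by
  unfold hk
  have : ∀ j ∈ Finset.range (nn k), 0 ≤
    Fr hW k (sh (nn k + j - cc k) A) * φ (sh (nn k + j - tt (k0 + 1)) A) := fun j _ =>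
      mul_nonneg (Fr_nonneg hW _ _) (hφ0 _)
  have := Finset.sum_nonneg this
  positivity

include hφ0 hφ1 in
omit hφ in
lemma hk_le (k : ℕ) (A : Pth) : hk hW k0 φ k A ≤ Cr k := by
  unfold hk
  have hn : (0 : ℝ) < nn k := by exact_mod_cast nn_pos k
  have : ∀ j ∈ Finset.range (nn k),
    Fr hW k (sh (nn k + j - cc k) A) * φ (sh (nn k + j - tt (k0 + 1)) A) ≤ Cr k := fun j _ => by
      have h1 := Fr_le hW k (sh (nn k + j - cc k) A)
      have h2 := Fr_nonneg hW k (sh (nn k + j - cc k) A)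
      have h3 := hφ1 (sh (nn k + j - tt (k0 + 1)) A)
      have h4 := hφ0 (sh (nn k + j - tt (k0 + 1)) A)
      nlinarith
  have h5 := Finset.sum_le_sum this
  rw [Finset.sum_const, Finset.card_range, nsmul_eq_mul] at h5
  rw [one_div, inv_mul_le_iff₀ hn]
  exact h5

omit hφ in
/-- `tt (k0+1) ≤ nn k` for `k0 < k` -/
lemma tt_le_nn {k0 k : ℕ} (h : k0 < k) : tt (k0 + 1) ≤ nn k := by
  have h1 := cc_le_nn k
  have h2 := tt_mono (show k0 + 1 ≤ k by omega)
  unfold cc at h1
  omega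

lemma integral_hk {k : ℕ} (hk0 : k0 < k) {G : Pth → ℝ} (hG : Measurable G) {K : ℝ}
    (hGK : ∀ A, |G A| ≤ K) (hφb : ∀ A, |φ A| ≤ 1) :
    (1 / nn k : ℝ) * ∑ j ∈ Finset.range (nn k),
      ∫ ω, φ (Y (tt (k0 + 1) : ℕ) ω) * G (Y (nn k + j : ℕ) ω) ∂(mu0 W) =
        ∫ A, hk hW k0 φ k A * G A ∂W := by
  have := hW.prob
  have h1 : ∀ j ∈ Finset.range (nn k),
      ∫ ω, φ (Y (tt (k0 + 1) : ℕ) ω) * G (Y (nn k + j : ℕ) ω) ∂(mu0 W) =
        ∫ A, Fr hW k (sh (nn k + j - cc k) A) * (φ (sh (nn k + j - tt (k0 + 1)) A) * G A) ∂W := by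
    intro j hj
    have hj' := Finset.mem_range.1 hj
    have h2 := two_nn k
    have h3 := cc_le_nn k
    have h4 := tt_le_nn hk0
    have h5 := integral_Y hW k (nn k + j) (by omega) (by omega)
      (G := fun A => φ (sh (nn k + j - tt (k0 + 1)) A) * G A) ((hφ.comp (measurable_sh _)).mul hG)
    rw [← h5]
    refine integral_congr_ae (Eventually.of_forall fun ω => ?_)
    simp only
    rw [sh_Y' (by omega)]
  rw [Finset.sum_congr rfl h1, ← integral_finsetSum, ← integral_const_mul]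
  · refine integral_congr_ae (Eventually.of_forall fun A => ?_)
    simp only [hk]
    rw [mul_assoc, Finset.sum_mul]
    simp only [mul_assoc]
  · intro j _
    refine integrable_of_bdd ((((measurable_Fr hW k).comp (measurable_sh _))).mul
      (((hφ.comp (measurable_sh _))).mul hG)) (K := Cr k * (1 * K)) fun A => ?_
    rw [abs_mul, abs_mul]
    have hK : 0 ≤ K := (abs_nonneg _).trans (hGK default)
    refine mul_le_mul ?_ (mul_le_mul (hφb _) (hGK _) (abs_nonneg _) zero_le_one) (by positivity)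
      (Cr_pos k).le
    rw [abs_of_nonneg (Fr_nonneg hW _ _)]
    exact Fr_le hW _ _

include hφ0 hφ1 in
/-- **Convergence of the densities** -/
lemma conv {δ : ℝ} (hδ : 0 < δ) (K0 : ℕ) : ∃ k, K0 ≤ k ∧ k0 < k ∧
    ∫ A, |hk hW k0 φ k A - ∫ ω, φ (Y (tt (k0 + 1) : ℕ) ω) ∂(mu0 W)| ∂W ≤ δ := by
  have := hW.prob
  have hφb : ∀ A, |φ A| ≤ 1 := fun A => by rw [abs_of_nonneg (hφ0 A)]; exact hφ1 A
  set a := tt (k0 + 1) with ha
  have hca : cc k0 ≤ a := by have := cc_le k0; omega
  set g : Pth → ℝ := fun B => Fr hW k0 (sh (a - cc k0) B) * φ B with hg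
  have hgm : Measurable g := ((measurable_Fr hW k0).comp (measurable_sh _)).mul hφ
  have hgK : ∀ A, |g A| ≤ Cr k0 := by
    intro A
    rw [hg, abs_mul, abs_of_nonneg (Fr_nonneg hW _ _), abs_of_nonneg (hφ0 _)]
    have h1 := Fr_le hW k0 (sh (a - cc k0) A)
    have h2 := Fr_nonneg hW k0 (sh (a - cc k0) A)
    have h3 := hφ1 A
    have h4 := hφ0 A
    nlinarith
  set cb := ∫ ω, φ (Y (a : ℕ) ω) ∂(mu0 W) with hcb
  have hlaw : ∀ {H : Pth → ℝ}, Measurable H → ∫ ω, φ (Y (a : ℕ) ω) * H (Y (a : ℕ) ω) ∂(mu0 W) =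
      ∫ A, g A * H A ∂W := by
    intro H hH
    have := integral_Y hW k0 a hca le_rfl (G := fun A => φ A * H A) (hφ.mul hH)
    rw [this]
    refine integral_congr_ae (Eventually.of_forall fun A => ?_)
    simp only [hg]
    ring
  have hgint : ∫ B, g B ∂W = cb := by
    have := hlaw (H := fun _ => 1) measurable_const
    simp only [mul_one] at this
    exact this.symm
  obtain ⟨N0, hN0⟩ := lln hW hgm hgK (δ := δ / 2) (by linarith)
  -- choose k
  obtain ⟨k1, hk1⟩ : ∃ k1 : ℕ, ∀ k ≥ k1, (27648 : ℝ) / 64 ^ k ≤ (δ / 4) ^ 2 := by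
    have ht : Tendsto (fun k : ℕ => (27648 : ℝ) / 64 ^ k) atTop (𝓝 0) := by
      have h1 : Tendsto (fun k : ℕ => ((1 : ℝ) / 64) ^ k) atTop (𝓝 0) :=
        tendsto_pow_atTop_nhds_zero_of_lt_one (by norm_num) (by norm_num)
      have h2 := h1.const_mul 27648
      rw [mul_zero] at h2
      refine h2.congr fun k => ?_
      rw [div_pow, one_pow]
      ring
    obtain ⟨k1, hk1⟩ := eventually_atTop.1 (ht.eventually (ge_mem_nhds (show (0 : ℝ) < (δ / 4) ^ 2 by positivity)))
    exact ⟨k1, hk1⟩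
  set k := max (max K0 (k0 + 1)) (max N0 k1) with hkdef
  have hk0 : k0 < k := by omega
  refine ⟨k, by omega, hk0, ?_⟩
  set n := nn k with hn
  have hnpos : 0 < n := nn_pos k
  have hn' : (0 : ℝ) < n := by exact_mod_cast hnpos
  have han : a ≤ n := tt_le_nn hk0
  have hcn : cc k ≤ n := cc_le_nn k
  have h2n : 2 * n = tt (k + 1) := two_nn k
  set D : ℕ → Pth → ℝ := fun j A => Fr hW k (sh (n + j - cc k) A) * φ (sh (n + j - a) A) -
    g (sh (n + j - a) A) with hD
  have hDm : ∀ j, Measurable (D j) := fun j =>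
    (((measurable_Fr hW k).comp (measurable_sh _)).mul (hφ.comp (measurable_sh _))).sub
      (hgm.comp (measurable_sh _))
  have hDb : ∀ j A, |D j A| ≤ Cr k := by
    intro j A
    simp only [hD]
    have h1 := Fr_le hW k (sh (n + j - cc k) A)
    have h2 := Fr_nonneg hW k (sh (n + j - cc k) A)
    have h3 := hφ1 (sh (n + j - a) A)
    have h4 := hφ0 (sh (n + j - a) A)
    have h5 : 0 ≤ g (sh (n + j - a) A) := mul_nonneg (Fr_nonneg hW _ _) (hφ0 _)
    have h6 := hgK (sh (n + j - a) A)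
    rw [abs_of_nonneg h5] at h6
    have h7 := Cr_mono hk0.le
    rw [abs_le]
    constructor
    · have : 0 ≤ Fr hW k (sh (n + j - cc k) A) * φ (sh (n + j - a) A) := mul_nonneg h2 h4
      linarith
    · have : Fr hW k (sh (n + j - cc k) A) * φ (sh (n + j - a) A) ≤ Cr k := by nlinarith
      linarith
  have horth : ∀ i j, i < n → j < n → i + cc k ≤ j → ∫ A, D i A * D j A ∂W = 0 := by
    intro i j hi hj hij
    -- D j is a function of the path after time n + i - a
    set H : Pth → ℝ := fun B => Fr hW k (sh (j - i + a - cc k) B) * φ (sh (j - i) B) - g (sh (j - i) B)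
      with hH
    have hHm : Measurable H := (((measurable_Fr hW k).comp (measurable_sh _)).mul
      (hφ.comp (measurable_sh _))).sub (hgm.comp (measurable_sh _))
    have hDH : ∀ A, D j A = H (sh (n + i - a) A) := by
      intro A
      simp only [hD, hH, sh_sh]
      congr 3
      · congr 2; omega
      · congr 1; omega
      · congr 1; omega
    have hHb : ∀ B, |H B| ≤ Cr k := by
      intro B
      simp only [hH]
      have h1 := Fr_le hW k (sh (j - i + a - cc k) B)
      have h2 := Fr_nonneg hW k (sh (j - i + a - cc k) B)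
      have h3 := hφ1 (sh (j - i) B)
      have h4 := hφ0 (sh (j - i) B)
      have h5 : 0 ≤ g (sh (j - i) B) := mul_nonneg (Fr_nonneg hW _ _) (hφ0 _)
      have h6 := hgK (sh (j - i) B)
      rw [abs_of_nonneg h5] at h6
      have h7 := Cr_mono hk0.le
      rw [abs_le]
      constructor
      · have : 0 ≤ Fr hW k (sh (j - i + a - cc k) B) * φ (sh (j - i) B) := mul_nonneg h2 h4
        linarith
      · have : Fr hW k (sh (j - i + a - cc k) B) * φ (sh (j - i) B) ≤ Cr k := by nlinarith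
        linarith
    have e1 : ∀ A, D i A * D j A =
        Fr hW k (sh (n + i - cc k) A) * (φ (sh (n + i - a) A) * H (sh (n + i - a) A)) -
          (fun B => g B * H B) (sh (n + i - a) A) := by
      intro A
      rw [hDH]
      simp only [hD]
      ring
    simp only [e1]
    rw [integral_sub]
    · have h1 := integral_Y hW k (n + i) (by omega) (by omega)
        (G := fun A => φ (sh (n + i - a) A) * H (sh (n + i - a) A))
        ((hφ.comp (measurable_sh _)).mul (hHm.comp (measurable_sh _)))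
      rw [← h1]
      have h2 : ∫ ω, φ (sh (n + i - a) (Y (n + i : ℕ) ω)) * H (sh (n + i - a) (Y (n + i : ℕ) ω)) ∂(mu0 W) =
          ∫ A, g A * H A ∂W := by
        rw [← hlaw hHm]
        refine integral_congr_ae (Eventually.of_forall fun ω => ?_)
        simp only
        rw [sh_Y' (by omega)]
      rw [h2, integral_sh hW (n + i - a) (g := fun B => g B * H B) (hgm.mul hHm), sub_self]
    · refine integrable_of_bdd ((((measurable_Fr hW k).comp (measurable_sh _))).mul
        (((hφ.comp (measurable_sh _))).mul (hHm.comp (measurable_sh _)))) (K := Cr k * (1 * Cr k))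
        fun A => ?_
      rw [abs_mul, abs_mul]
      refine mul_le_mul ?_ (mul_le_mul (hφb _) (hHb _) (abs_nonneg _) zero_le_one) (by positivity)
        (Cr_pos k).le
      rw [abs_of_nonneg (Fr_nonneg hW _ _)]
      exact Fr_le hW _ _
    · refine integrable_of_bdd ((hgm.mul hHm).comp (measurable_sh _)) (K := Cr k0 * Cr k) fun A => ?_
      rw [abs_mul]
      exact mul_le_mul (hgK _) (hHb _) (abs_nonneg _) (Cr_pos k0).le
  have hb1 := l1_bound (ν := W) hnpos D hDm hDb horth (ε := δ / 4) (by linarith)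
  have hb2 := hN0 n (by have := lt_nn k; omega) hnpos
  rw [hgint] at hb2
  -- decomposition
  have hdec : ∀ A, |hk hW k0 φ k A - cb| ≤ |(1 / n : ℝ) * ∑ j ∈ Finset.range n, D j A| +
      (fun B => |(1 / n : ℝ) * (∑ j ∈ Finset.range n, g (sh j B)) - cb|) (sh (n - a) A) := by
    intro A
    have e : hk hW k0 φ k A - cb = (1 / n : ℝ) * (∑ j ∈ Finset.range n, D j A) +
        ((1 / n : ℝ) * (∑ j ∈ Finset.range n, g (sh j (sh (n - a) A))) - cb) := by
      have e2 : ∀ j, g (sh j (sh (n - a) A)) = g (sh (n + j - a) A) := by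
        intro j
        rw [sh_sh]
        congr 2
        omega
      simp only [e2, hD, Finset.sum_sub_distrib]
      unfold BM.hk
      ring
    rw [e]
    exact abs_add_le _ _
  have hDsm : Measurable fun A => ∑ j ∈ Finset.range n, D j A := Finset.measurable_sum _ fun j _ => hDm j
  have hi1 : Integrable (fun A => |(1 / n : ℝ) * ∑ j ∈ Finset.range n, D j A|) W := by
    refine Integrable.abs (Integrable.const_mul (integrable_finsetSum _ fun j _ => ?_) _)
    exact integrable_of_bdd (hDm j) (hDb j)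
  have hgsm : Measurable fun B => |(1 / n : ℝ) * (∑ j ∈ Finset.range n, g (sh j B)) - cb| :=
    ((measurable_const.mul (Finset.measurable_sum _ fun j _ => hgm.comp (measurable_sh j))).sub_const _).abs
  have hi2 : Integrable (fun B => |(1 / n : ℝ) * (∑ j ∈ Finset.range n, g (sh j B)) - cb|) W := by
    refine Integrable.abs (Integrable.sub (Integrable.const_mul (integrable_finsetSum _ fun j _ => ?_) _)
      (integrable_const _))
    exact integrable_of_bdd (hgm.comp (measurable_sh j)) fun A => hgK _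
  have hi3 : Integrable (fun A => (fun B => |(1 / n : ℝ) * (∑ j ∈ Finset.range n, g (sh j B)) - cb|)
      (sh (n - a) A)) W := (measurePreserving_sh hW (n - a)).integrable_comp_of_integrable hi2
  have h3 : ∫ A, |hk hW k0 φ k A - cb| ∂W ≤ ∫ A, (|(1 / n : ℝ) * ∑ j ∈ Finset.range n, D j A| +
      (fun B => |(1 / n : ℝ) * (∑ j ∈ Finset.range n, g (sh j B)) - cb|) (sh (n - a) A)) ∂W :=
    integral_mono_of_nonneg (Eventually.of_forall fun A => abs_nonneg _) (hi1.add hi3)
      (Eventually.of_forall hdec)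
  refine h3.trans ?_
  rw [integral_add hi1 hi3, integral_sh hW (n - a) hgsm]
  have h4 : 2 * (cc k : ℝ) * Cr k ^ 2 / (n * (δ / 4)) ≤ δ / 4 := by
    have h5 := (ratio_le k).trans (hk1 k (by omega))
    rw [← div_div, div_le_iff₀ (by linarith)]
    calc _ ≤ (δ / 4) ^ 2 := h5
      _ = _ := by ring
  linarith

end

end Pool.Agent.H4.BM
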