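import Mathlib

open MeasureTheory ProbabilityTheory Set Filter Topology
open scoped NNReal ENNReal RealInnerProductSpace

namespace Pool.Agent.H4.BM

/-! ### Existence of a process with the finite-dimensional laws of Brownian motion -/

section gauss
variable {Ω : Type*} [MeasurableSpace Ω] {P : Measure Ω} [IsProbabilityMeasure P]

/-- square integrable functions with centred Gaussian characteristic function -/
def GG (P : Measure Ω) : Set (Lp ℝ 2 P) :=
  {f | ∀ t : ℝ, ∫ ω, Complex.exp (t * f ω * Complex.I) ∂P = Complex.exp (-(‖f‖ ^ 2 * t ^ 2 / 2 : ℝ))}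

lemma norm_exp_sub_le (x y : ℝ) :
    ‖Complex.exp (x * Complex.I) - Complex.exp (y * Complex.I)‖ ≤ |x - y| := by
  have h1 : Complex.exp (x * Complex.I) - Complex.exp (y * Complex.I) =
      Complex.exp (y * Complex.I) * (Complex.exp (Complex.I * ((x - y : ℝ) : ℂ)) - 1) := by
    rw [mul_sub, ← Complex.exp_add, mul_one]
    congr 2
    push_cast
    ring
  rw [h1, norm_mul, Complex.norm_exp_ofReal_mul_I, one_mul]
  exact Real.norm_exp_I_mul_ofReal_sub_one_le

lemma integral_abs_le_norm (f : Lp ℝ 2 P) : ∫ ω, |f ω| ∂P ≤ ‖f‖ := by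
  have h1 : eLpNorm f 1 P ≤ eLpNorm f 2 P :=
    eLpNorm_le_eLpNorm_of_exponent_le (by norm_num) (Lp.aestronglyMeasurable f)
  have h2 : ENNReal.ofReal (∫ ω, |f ω| ∂P) = eLpNorm f 1 P := by
    rw [eLpNorm_one_eq_lintegral_enorm, ofReal_integral_eq_lintegral_ofReal]
    · refine lintegral_congr fun ω => ?_
      rw [Real.enorm_eq_ofReal_abs]
    · exact ((Lp.memLp f).integrable (by norm_num)).abs
    · exact Eventually.of_forall fun ω => abs_nonneg _
  rw [Lp.norm_def]
  rw [← h2] at h1
  exact (ENNReal.ofReal_le_iff_le_toReal (Lp.eLpNorm_ne_top f)).1 h1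

lemma integrable_cexp (t : ℝ) (f : Lp ℝ 2 P) :
    Integrable (fun ω => Complex.exp (t * f ω * Complex.I)) P := by
  have h1 := (Lp.aestronglyMeasurable f).aemeasurable
  refine Integrable.of_bound (AEMeasurable.aestronglyMeasurable ?_) 1 (Eventually.of_forall fun ω => ?_)
  · fun_prop
  · have := Complex.norm_exp_ofReal_mul_I (t * f ω)
    push_cast at this
    exact this.le

lemma isClosed_GG : IsClosed (GG P) := by
  have h : GG P = ⋂ t : ℝ, {f : Lp ℝ 2 P | ∫ ω, Complex.exp (t * f ω * Complex.I) ∂P =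
      Complex.exp (-(‖f‖ ^ 2 * t ^ 2 / 2 : ℝ))} := by
    ext f
    simp [GG]
  rw [h]
  refine isClosed_iInter fun t => isClosed_eq ?_ (by fun_prop)
  have hL : LipschitzWith (Real.nnabs t) (fun f : Lp ℝ 2 P => ∫ ω, Complex.exp (t * f ω * Complex.I) ∂P) := by
    refine LipschitzWith.of_dist_le_mul fun f g => ?_
    rw [dist_eq_norm, dist_eq_norm, ← integral_sub (integrable_cexp t f) (integrable_cexp t g)]
    have hfg : ∫ ω, |(f - g : Lp ℝ 2 P) ω| ∂P = ∫ ω, |f ω - g ω| ∂P := by
      refine integral_congr_ae ?_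
      filter_upwards [Lp.coeFn_sub f g] with ω hω
      rw [hω, Pi.sub_apply]
    have hi : Integrable (fun ω => |f ω - g ω|) P :=
      (((Lp.memLp f).integrable (by norm_num)).sub ((Lp.memLp g).integrable (by norm_num))).abs
    calc ‖∫ ω, (Complex.exp (t * f ω * Complex.I) - Complex.exp (t * g ω * Complex.I)) ∂P‖
        ≤ ∫ ω, ‖Complex.exp (t * f ω * Complex.I) - Complex.exp (t * g ω * Complex.I)‖ ∂P :=
          norm_integral_le_integral_norm _
      _ ≤ ∫ ω, |t| * |f ω - g ω| ∂P := by
          refine integral_mono_of_nonneg (Eventually.of_forall fun ω => norm_nonneg _)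
            (hi.const_mul _) (Eventually.of_forall fun ω => ?_)
          have := norm_exp_sub_le (t * f ω) (t * g ω)
          push_cast at this
          refine this.trans (le_of_eq ?_)
          rw [← mul_sub, abs_mul]
      _ = |t| * ∫ ω, |(f - g : Lp ℝ 2 P) ω| ∂P := by rw [integral_const_mul, hfg]
      _ ≤ Real.nnabs t * ‖f - g‖ := by
          rw [Real.coe_nnabs]
          gcongr
          exact integral_abs_le_norm _
  exact hL.continuous

omit [IsProbabilityMeasure P] in
lemma norm_sq_eq (f : Lp ℝ 2 P) : ‖f‖ ^ 2 = ∫ ω, f ω ^ 2 ∂P := by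
  rw [← real_inner_self_eq_norm_sq, L2.inner_def]
  refine integral_congr_ae (Eventually.of_forall fun ω => ?_)
  simp [sq]

omit [IsProbabilityMeasure P] in
lemma mem_GG_of_gaussian {f : Lp ℝ 2 P} (hf : HasGaussianLaw f P) (h0 : ∫ ω, f ω ∂P = 0) :
    f ∈ GG P := by
  intro t
  have h1 := hf.map_eq_gaussianReal
  have h2 := charFun_gaussianReal (μ := P[f]) (v := Var[f; P].toNNReal) t
  rw [← h1, charFun_apply_real, integral_map hf.aemeasurable] at h2
  · rw [h2, h0]
    have h3 : Var[f; P] = ‖f‖ ^ 2 := by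
      rw [variance_eq_integral hf.aemeasurable, h0, norm_sq_eq]
      simp
    rw [h3]
    congr 1
    rw [Real.coe_toNNReal _ (by positivity)]
    push_cast
    ring
  · exact Measurable.aestronglyMeasurable (by fun_prop)

lemma map_of_mem_GG {f : Lp ℝ 2 P} (hf : f ∈ GG P) :
    P.map f = gaussianReal 0 (Real.toNNReal (‖f‖ ^ 2)) := by
  have hm := (Lp.aestronglyMeasurable f).aemeasurable
  have : IsProbabilityMeasure (P.map f) := Measure.isProbabilityMeasure_map hm
  refine Measure.ext_of_charFun ?_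
  funext t
  rw [charFun_gaussianReal, charFun_apply_real, integral_map hm, hf t]
  · congr 1
    rw [Real.coe_toNNReal _ (by positivity)]
    push_cast
    ring
  · exact Measurable.aestronglyMeasurable (by fun_prop)

end gauss

/-- **Isonormal process**: there is a linear isometry from a Hilbert space to centred Gaussian
random variables. -/
theorem exists_isonormal (H : Type) [NormedAddCommGroup H] [InnerProductSpace ℝ H] [CompleteSpace H] :
    ∃ (Ω : Type) (_ : MeasurableSpace Ω) (P : Measure Ω) (_ : IsProbabilityMeasure P)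
      (T : H →ₗᵢ[ℝ] Lp ℝ 2 P), ∀ h, T h ∈ GG P ∧ ∫ ω, T h ω ∂P = 0 := by
  obtain ⟨w, b, hb⟩ := exists_hilbertBasis ℝ H
  obtain ⟨Ω, mΩ, P, Z, mZ, lZ, iZ, hP⟩ := exists_iid (w : Type) (gaussianReal 0 1)
  refine ⟨Ω, mΩ, P, hP, ?_⟩
  have gZ : ∀ i, HasGaussianLaw (Z i) P := fun i => (lZ i).hasGaussianLaw
  have mem : ∀ i, MemLp (Z i) 2 P := fun i => (gZ i).memLp_two
  have meanZ : ∀ i, ∫ ω, Z i ω ∂P = 0 := by
    intro i
    have h1 : ∫ x, x ∂(gaussianReal 0 1) = 0 := integral_id_gaussianReal
    rw [← (lZ i).map_eq, integral_map (mZ i).aemeasurable measurable_id'.aestronglyMeasurable] at h1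
    exact h1
  have varZ : ∀ i, ∫ ω, Z i ω * Z i ω ∂P = 1 := by
    intro i
    have h1 : Var[fun x => x; gaussianReal 0 1] = (1 : ℝ≥0) := variance_fun_id_gaussianReal
    rw [variance_eq_integral aemeasurable_id', integral_id_gaussianReal, ← (lZ i).map_eq,
      integral_map (mZ i).aemeasurable (by fun_prop)] at h1
    simp only [sub_zero, sq, NNReal.coe_one] at h1
    exact h1
  let z : w → Lp ℝ 2 P := fun i => (mem i).toLp
  have hz : ∀ i, z i =ᵐ[P] Z i := fun i => (mem i).coeFn_toLp
  have hinner : ∀ i j, ⟪z i, z j⟫ = ∫ ω, Z i ω * Z j ω ∂P := by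
    intro i j
    rw [L2.inner_def]
    refine integral_congr_ae ?_
    filter_upwards [hz i, hz j] with ω h1 h2
    rw [h1, h2]
    simp [mul_comm]
  have hort : Orthonormal ℝ z := by
    classical
    rw [orthonormal_iff_ite]
    intro i j
    rw [hinner]
    split_ifs with hij
    · subst hij
      exact varZ i
    · have h1 := (iZ.indepFun hij).integral_mul_eq_mul_integral (mZ i).aestronglyMeasurable
        (mZ j).aestronglyMeasurable
      rw [meanZ i, zero_mul] at h1
      exact h1
  let V := hort.orthogonalFamily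
  let T : H →ₗᵢ[ℝ] Lp ℝ 2 P := V.linearIsometry.comp b.repr.toLinearIsometry
  have hsum : ∀ h, HasSum (fun i => (b.repr h i) • z i) (T h) := by
    intro h
    have := V.hasSum_linearIsometry (b.repr h)
    simp only [LinearIsometry.toSpanSingleton_apply] at this
    exact this
  -- finite sums
  have hfin : ∀ (s : Finset w) (a : w → ℝ), (∑ i ∈ s, a i • z i) ∈ GG P ∧
      ∫ ω, (∑ i ∈ s, a i • z i : Lp ℝ 2 P) ω ∂P = 0 := by
    intro s a
    have hae : (∑ i ∈ s, a i • z i : Lp ℝ 2 P) =ᵐ[P] fun ω => ∑ i : s, a i * Z i ω := by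
      have h1 : (∑ i ∈ s, a i • z i : Lp ℝ 2 P) =ᵐ[P] ∑ i ∈ s, (a i • z i : Lp ℝ 2 P) :=
        Lp.coeFn_finsetSum _ _
      have h2 : ∀ᵐ ω ∂P, ∀ i ∈ s, (a i • z i : Lp ℝ 2 P) ω = a i * Z i ω := by
        rw [eventually_all_finset]
        intro i _
        filter_upwards [Lp.coeFn_smul (a i) (z i), hz i] with ω h3 h4
        rw [h3, Pi.smul_apply, h4, smul_eq_mul]
      filter_upwards [h1, h2] with ω h3 h4
      rw [h3, Finset.sum_apply, Finset.sum_congr rfl h4, ← Finset.sum_coe_sort]
    have hmean : ∫ ω, (∑ i ∈ s, a i • z i : Lp ℝ 2 P) ω ∂P = 0 := by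
      rw [integral_congr_ae hae, integral_finsetSum]
      · simp only [integral_const_mul, meanZ, mul_zero, Finset.sum_const_zero]
      · intro i _
        exact ((mem i).integrable (by norm_num)).const_mul _
    refine ⟨mem_GG_of_gaussian ?_ hmean, hmean⟩
    have h5 : iIndepFun (fun i : s => fun ω => a i * Z i ω) P := by
      have h6 : iIndepFun (fun i : s => Z i) P := iZ.precomp Subtype.val_injective
      exact h6.comp (fun i x => a i * x) (fun i => measurable_const_mul _)
    have h7 := (iIndepFun.hasGaussianLaw (X := fun (i : s) ω => a i * Z i ω)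
      (fun i => (gZ i).fun_smul (a i)) h5).fun_sum
    exact h7.congr hae.symm
  refine ⟨T, fun h => ?_⟩
  have hG : T h ∈ GG P :=
    isClosed_GG.mem_of_tendsto (hsum h) (Eventually.of_forall fun s => (hfin s _).1)
  refine ⟨hG, ?_⟩
  have h8 := map_of_mem_GG hG
  have h9 : ∫ x, x ∂(gaussianReal 0 (Real.toNNReal (‖T h‖ ^ 2))) = 0 := integral_id_gaussianReal
  rw [← h8, integral_map (Lp.aestronglyMeasurable _).aemeasurable measurable_id'.aestronglyMeasurable] at h9
  exact h9

/-- **Existence of pre-Brownian motion** -/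
theorem exists_preBM : ∃ (Ω : Type) (_ : MeasurableSpace Ω) (P : Measure Ω) (_ : IsProbabilityMeasure P)
    (B : ℝ≥0 → Ω → ℝ), (∀ t, Measurable (B t)) ∧ IsPreBrownianReal B P := by
  obtain ⟨Ω, mΩ, P, hP, T, hT⟩ := exists_isonormal (Lp ℝ 2 (volume : Measure ℝ))
  have hfin : ∀ t : ℝ≥0, volume (Icc (0 : ℝ) t) ≠ ∞ := fun t => by
    rw [Real.volume_Icc]
    exact ENNReal.ofReal_ne_top
  let e : ℝ≥0 → Lp ℝ 2 (volume : Measure ℝ) := fun t =>
    indicatorConstLp 2 (measurableSet_Icc (a := (0 : ℝ)) (b := t)) (hfin t) 1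
  have he : ∀ s t : ℝ≥0, s ≤ t → ⟪e s, e t⟫ = (s : ℝ) := by
    intro s t hst
    rw [L2.real_inner_indicatorConstLp_one_indicatorConstLp_one _ _ (hfin s) (hfin t),
      inter_eq_left.2 (Icc_subset_Icc_right (by exact_mod_cast hst))]
    simp
  let B : ℝ≥0 → Ω → ℝ := fun t => T (e t)
  have mem : ∀ t, MemLp (B t) 2 P := fun t => Lp.memLp _
  have hB : IsPreBrownianReal B P := by
    refine IsGaussianProcess.isPreBrownianReal_of_covariance ⟨fun I => ⟨?_⟩⟩ (fun t => (hT _).2)
      fun s t hst => ?_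
    · refine isGaussian_of_map_eq_gaussianReal fun L => ?_
      classical
      set a : I → ℝ := fun i => L (Pi.single i 1) with ha
      have hL : ∀ x : I → ℝ, L x = ∑ i, a i * x i := by
        intro x
        conv_lhs => rw [pi_eq_sum_univ' x]
        rw [map_sum]
        refine Finset.sum_congr rfl fun i _ => ?_
        rw [map_smul, smul_eq_mul, mul_comm, ha]
      have hae : (fun ω => L (I.restrict fun t => B t ω)) =ᵐ[P] T (∑ i : I, a i • e i) := by
        have h1 : T (∑ i : I, a i • e i) = ∑ i : I, a i • T (e i) := by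
          rw [map_sum]
          simp only [map_smul]
        rw [h1]
        have h2 : (∑ i : I, a i • T (e i) : Lp ℝ 2 P) =ᵐ[P] ∑ i : I, (a i • T (e i) : Lp ℝ 2 P) :=
          Lp.coeFn_finsetSum _ _
        have h3 : ∀ᵐ ω ∂P, ∀ i : I, (a i • T (e i) : Lp ℝ 2 P) ω = a i * B i ω := by
          rw [eventually_all]
          intro i
          filter_upwards [Lp.coeFn_smul (a i) (T (e i))] with ω h4
          rw [h4, Pi.smul_apply, smul_eq_mul]
        filter_upwards [h2, h3] with ω h4 h5
        rw [h4, Finset.sum_apply, hL]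
        exact (Finset.sum_congr rfl fun i _ => (h5 i)).symm
      have hm : AEMeasurable (fun ω => I.restrict fun t => B t ω) P :=
        aemeasurable_pi_lambda _ fun i => (mem i).aestronglyMeasurable.aemeasurable
      rw [AEMeasurable.map_map_of_aemeasurable (by fun_prop) hm]
      refine ⟨0, Real.toNNReal (‖T (∑ i : I, a i • e i)‖ ^ 2), ?_⟩
      rw [← map_of_mem_GG (hT (∑ i : I, a i • e i)).1]
      exact Measure.map_congr hae
    · rw [covariance_eq_sub (mem s) (mem t)]
      have h1 : P[B s] = 0 := (hT _).2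
      rw [h1, zero_mul, sub_zero]
      have h2 := T.inner_map_map (e s) (e t)
      rw [he s t hst, L2.inner_def] at h2
      rw [← h2]
      refine integral_congr_ae (Eventually.of_forall fun ω => ?_)
      simp [B, mul_comm]
  refine ⟨Ω, mΩ, P, hP, fun t => (mem t).aestronglyMeasurable.aemeasurable.mk _, fun t =>
    (mem t).aestronglyMeasurable.aemeasurable.measurable_mk, hB.congr fun t =>
      (mem t).aestronglyMeasurable.aemeasurable.ae_eq_mk⟩

end Pool.Agent.H4.BM
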