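import Mathlib
import Pool.Agent.H4.BM.PreBM
import Pool.Agent.H4.BM.Wiener

open MeasureTheory ProbabilityTheory Set Filter Topology
open scoped NNReal ENNReal

namespace Pool.Agent.H4.BM

open Pth

/-! ### Existence of Wiener measure -/

/-- dyadic approximation from below -/
noncomputable def dya (n : ℕ) (t : ℝ≥0) : ℝ≥0 := (⌊2 ^ n * t⌋₊ : ℝ≥0) / 2 ^ n

lemma dya_le (n : ℕ) (t : ℝ≥0) : dya n t ≤ t := by
  unfold dya
  rw [div_le_iff₀ (by positivity)]
  exact (Nat.floor_le zero_le).trans (le_of_eq (mul_comm _ _))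

lemma lt_dya (n : ℕ) (t : ℝ≥0) : t ≤ dya n t + (1 / 2) ^ n := by
  unfold dya
  have h := (Nat.lt_floor_add_one (2 ^ n * t)).le
  have h2 : t = (2 ^ n * t) / 2 ^ n := by field_simp
  rw [one_div, inv_pow]
  conv_lhs => rw [h2]
  rw [div_le_iff₀ (by positivity), add_mul, div_mul_cancel₀ _ (by positivity),
    inv_mul_cancel₀ (by positivity)]
  exact h

/-- the good paths: the increments over dyadic intervals are small -/
def GoodPath (x : ℝ≥0 → ℝ) : Prop := ∃ n0 : ℕ, ∀ n ≥ n0, ∀ k < n * 2 ^ n,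
  |x (((k : ℝ≥0) + 1) / 2 ^ n) - x ((k : ℝ≥0) / 2 ^ n)| ≤ (9 / 10) ^ n

lemma step_bound {x : ℝ≥0 → ℝ} {n0 : ℕ} (h : ∀ n ≥ n0, ∀ k < n * 2 ^ n,
    |x (((k : ℝ≥0) + 1) / 2 ^ n) - x ((k : ℝ≥0) / 2 ^ n)| ≤ (9 / 10) ^ n) {N : ℕ} {t : ℝ≥0}
    (ht : t ≤ N) {n : ℕ} (hn : max n0 (N + 1) ≤ n) :
    |x (dya (n + 1) t) - x (dya n t)| ≤ (9 / 10) ^ (n + 1) := by
  have hn0 : n0 ≤ n := (le_max_left _ _).trans hn
  have hN : N + 1 ≤ n := (le_max_right _ _).trans hn
  unfold dya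
  set k := ⌊2 ^ n * t⌋₊ with hk
  set j := ⌊2 ^ (n + 1) * t⌋₊ with hj
  have h1 : (k : ℝ≥0) ≤ 2 ^ n * t := Nat.floor_le zero_le
  have h2 : 2 ^ n * t < k + 1 := Nat.lt_floor_add_one _
  have h3 : (j : ℝ≥0) ≤ 2 ^ (n + 1) * t := Nat.floor_le zero_le
  have h4 : 2 ^ (n + 1) * t < j + 1 := Nat.lt_floor_add_one _
  have e : (2 : ℝ≥0) ^ (n + 1) * t = 2 * (2 ^ n * t) := by ring
  rw [e] at h3 h4
  have h5 : 2 * k ≤ j := by
    have : ((2 * k : ℕ) : ℝ≥0) < ((j + 1 : ℕ) : ℝ≥0) := by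
      push_cast
      calc 2 * (k : ℝ≥0) ≤ 2 * (2 ^ n * t) := by gcongr
        _ < j + 1 := h4
    have := Nat.cast_lt.1 this
    omega
  have h6 : j ≤ 2 * k + 1 := by
    have : ((j : ℕ) : ℝ≥0) < ((2 * k + 2 : ℕ) : ℝ≥0) := by
      push_cast
      calc (j : ℝ≥0) ≤ 2 * (2 ^ n * t) := h3
        _ < 2 * (k + 1) := by gcongr
        _ = 2 * k + 2 := by ring
    have := Nat.cast_lt.1 this
    omega
  have e2 : (k : ℝ≥0) / 2 ^ n = ((2 * k : ℕ) : ℝ≥0) / 2 ^ (n + 1) := by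
    push_cast
    rw [pow_succ]
    field_simp
  rw [e2]
  rcases Nat.eq_or_lt_of_le h5 with h7 | h7
  · rw [← h7, sub_self, abs_zero]
    positivity
  · have h8 : j = 2 * k + 1 := by omega
    rw [h8]
    have h9 := h (n + 1) (by omega) (2 * k) (by
      have h10 : (k : ℝ≥0) < ((N * 2 ^ n + 1 : ℕ) : ℝ≥0) := by
        push_cast
        calc (k : ℝ≥0) ≤ 2 ^ n * t := h1
          _ ≤ 2 ^ n * N := by gcongr
          _ = N * 2 ^ n := by ring
          _ < N * 2 ^ n + 1 := by simp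
      have h11 := Nat.cast_lt.1 h10
      have h12 : (N + 1) * 2 ^ n ≤ n * 2 ^ n := Nat.mul_le_mul_right _ hN
      have h13 : 0 < 2 ^ n := by positivity
      calc 2 * k ≤ 2 * (N * 2 ^ n) := by omega
        _ < 2 * ((N + 1) * 2 ^ n) := by nlinarith
        _ ≤ 2 * (n * 2 ^ n) := by omega
        _ ≤ (n + 1) * 2 ^ (n + 1) := by rw [pow_succ]; nlinarith)
    push_cast at h9 ⊢
    exact h9

lemma exists_limit {x : ℝ≥0 → ℝ} (hx : GoodPath x) :
    ∃ g : ℝ≥0 → ℝ, Continuous g ∧ ∀ t, Tendsto (fun n => x (dya n t)) atTop (𝓝 (g t)) := by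
  obtain ⟨n0, h⟩ := hx
  have hstep : ∀ (N : ℕ) (t : ℝ≥0), t ≤ N → ∀ m, dist (x (dya (m + max n0 (N + 1)) t))
      (x (dya (m + 1 + max n0 (N + 1)) t)) ≤ (9 / 10) ^ (max n0 (N + 1) + 1) * (9 / 10) ^ m := by
    intro N t ht m
    rw [dist_comm, Real.dist_eq, show m + 1 + max n0 (N + 1) = m + max n0 (N + 1) + 1 by ring]
    refine (step_bound h ht (by omega)).trans (le_of_eq ?_)
    rw [← pow_add]
    congr 1
    omega
  have hlim : ∀ t : ℝ≥0, ∃ y, Tendsto (fun n => x (dya n t)) atTop (𝓝 y) := by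
    intro t
    obtain ⟨N, hN⟩ := exists_nat_ge t
    have hc := cauchySeq_of_le_geometric (9 / 10) _ (by norm_num) (hstep N t hN)
    obtain ⟨y, hy⟩ := cauchySeq_tendsto_of_complete hc
    exact ⟨y, (tendsto_add_atTop_iff_nat _).1 hy⟩
  choose g hg using hlim
  refine ⟨g, ?_, hg⟩
  -- rate of convergence
  have hrate : ∀ (N : ℕ) (t : ℝ≥0), t ≤ N → ∀ n, max n0 (N + 1) ≤ n →
      |x (dya n t) - g t| ≤ 10 * (9 / 10) ^ n := by
    intro N t ht n hn
    obtain ⟨m, rfl⟩ := Nat.exists_eq_add_of_le hn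
    have h1 := dist_le_of_le_geometric_of_tendsto (9 / 10) _ (by norm_num) (hstep N t ht)
      ((tendsto_add_atTop_iff_nat _).2 (hg t)) m
    rw [Real.dist_eq, add_comm m] at h1
    refine h1.trans ?_
    rw [pow_succ, pow_add]
    have : (0 : ℝ) < (9 / 10) ^ (max n0 (N + 1)) * (9 / 10) ^ m := by positivity
    norm_num
    nlinarith
  rw [Metric.continuous_iff]
  intro t ε hε
  obtain ⟨N, hN⟩ := exists_nat_ge (t + 1)
  obtain ⟨n1, hn1⟩ := exists_pow_lt_of_lt_one (show (0 : ℝ) < ε / 21 by positivity)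
    (show (9 / 10 : ℝ) < 1 by norm_num)
  set n := max n1 (max n0 (N + 1)) with hn
  have hnn : (9 / 10 : ℝ) ^ n < ε / 21 :=
    (pow_le_pow_of_le_one (by norm_num) (by norm_num) (le_max_left _ _)).trans_lt hn1
  have hn' : max n0 (N + 1) ≤ n := le_max_right _ _
  have hn0 : n0 ≤ n := (le_max_left _ _).trans hn'
  have hnN : N + 1 ≤ n := (le_max_right _ _).trans hn'
  refine ⟨(1 / 2) ^ n, by positivity, fun s hs => ?_⟩
  have hs1 : s ≤ N := by
    have h1 : (1 / 2 : ℝ) ^ n ≤ 1 := pow_le_one₀ (by norm_num) (by norm_num)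
    have h2 : dist s t < 1 := hs.trans_le h1
    have h3 : (s : ℝ) ≤ t + 1 := by
      rw [NNReal.dist_eq] at h2
      have := (abs_lt.1 h2).2
      linarith
    have h4 : (s : ℝ) ≤ N := h3.trans (by exact_mod_cast hN)
    exact_mod_cast h4
  have ht1 : t ≤ N := le_trans (by simp) hN
  -- the two dyadic approximations are neighbours
  have key : ∀ s t : ℝ≥0, s ≤ N → t ≤ N → s ≤ t → dist s t < (1 / 2) ^ n →
      |x (dya n s) - x (dya n t)| ≤ (9 / 10) ^ n := by
    intro s t hs ht hst hd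
    unfold dya
    set k := ⌊2 ^ n * s⌋₊ with hk
    set j := ⌊2 ^ n * t⌋₊ with hj
    have hkj : k ≤ j := Nat.floor_mono (by gcongr)
    have h1 : (2 ^ n * s : ℝ≥0) < k + 1 := Nat.lt_floor_add_one _
    have h2 : (j : ℝ≥0) ≤ 2 ^ n * t := Nat.floor_le zero_le
    have h3 : j ≤ k + 1 := by
      have h4 : ((j : ℕ) : ℝ) < ((k + 2 : ℕ) : ℝ) := by
        have h1' : (2 : ℝ) ^ n * s < k + 1 := by exact_mod_cast h1
        have h2' : (j : ℝ) ≤ 2 ^ n * t := by exact_mod_cast h2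
        have hst' : (s : ℝ) ≤ t := by exact_mod_cast hst
        rw [NNReal.dist_eq, abs_sub_comm, abs_of_nonneg (by linarith)] at hd
        have h5 : (2 : ℝ) ^ n * (t - s) < 1 := by
          calc (2 : ℝ) ^ n * (t - s) < 2 ^ n * (1 / 2) ^ n := by gcongr
            _ = 1 := by rw [← mul_pow]; norm_num
        push_cast
        nlinarith
      have := Nat.cast_lt.1 h4
      omega
    rcases Nat.eq_or_lt_of_le hkj with h7 | h7
    · rw [← h7, sub_self, abs_zero]
      positivity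
    · have h8 : j = k + 1 := by omega
      rw [h8, abs_sub_comm]
      push_cast
      refine h n hn0 k ?_
      have h10 : ((k + 1 : ℕ) : ℝ≥0) ≤ ((N * 2 ^ n : ℕ) : ℝ≥0) := by
        rw [← h8]
        push_cast
        calc (j : ℝ≥0) ≤ 2 ^ n * t := h2
          _ ≤ 2 ^ n * N := by gcongr
          _ = N * 2 ^ n := by ring
      have h11 := Nat.cast_le.1 h10
      have h12 : N * 2 ^ n ≤ n * 2 ^ n := Nat.mul_le_mul_right _ (by omega)
      omega
  have hmid : |x (dya n s) - x (dya n t)| ≤ (9 / 10) ^ n := by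
    rcases le_total s t with h1 | h1
    · exact key s t hs1 ht1 h1 hs
    · rw [abs_sub_comm]
      exact key t s ht1 hs1 h1 (by rw [dist_comm]; exact hs)
  have r1 := hrate N s hs1 n hn'
  have r2 := hrate N t ht1 n hn'
  rw [Real.dist_eq]
  have e : g s - g t = -(x (dya n s) - g s) + (x (dya n s) - x (dya n t)) + (x (dya n t) - g t) := by ring
  rw [e]
  calc |-(x (dya n s) - g s) + (x (dya n s) - x (dya n t)) + (x (dya n t) - g t)|
      ≤ |-(x (dya n s) - g s) + (x (dya n s) - x (dya n t))| + |x (dya n t) - g t| := abs_add_le _ _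
    _ ≤ |-(x (dya n s) - g s)| + |x (dya n s) - x (dya n t)| + |x (dya n t) - g t| := by
        gcongr
        exact abs_add_le _ _
    _ = |x (dya n s) - g s| + |x (dya n s) - x (dya n t)| + |x (dya n t) - g t| := by rw [abs_neg]
    _ ≤ 10 * (9 / 10) ^ n + (9 / 10) ^ n + 10 * (9 / 10) ^ n := by gcongr
    _ = 21 * (9 / 10) ^ n := by ring
    _ < ε := by linarith

/-! ### moments -/

/-- the fourth moment of a standard Gaussian -/
noncomputable def C4 : ℝ := ∫ x, x ^ 4 ∂(gaussianReal 0 1)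

lemma C4_nonneg : 0 ≤ C4 := integral_nonneg fun x => by positivity

section
variable {Ω : Type*} [MeasurableSpace Ω] {P : Measure Ω} {X : Ω → ℝ} {v : ℝ≥0}

lemma integrable_four (m : ℝ) (v : ℝ≥0) : Integrable (fun x : ℝ => x ^ 4) (gaussianReal m v) := by
  have h := (memLp_id_gaussianReal (μ := m) (v := v) 4).integrable_norm_pow (p := 4) (by norm_num)
  refine h.congr (Eventually.of_forall fun x => ?_)
  simp only [id, Real.norm_eq_abs]
  rw [← abs_pow, abs_of_nonneg (by positivity)]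

lemma gauss_four (v : ℝ≥0) : ∫ x, x ^ 4 ∂(gaussianReal 0 v) = v ^ 2 * C4 := by
  have h : (gaussianReal 0 1).map (fun x => √(v : ℝ) * x) = gaussianReal 0 v := by
    rw [gaussianReal_map_const_mul]
    congr 1
    · simp
    · rw [mul_one]
      ext
      change (√(v : ℝ)) ^ 2 = v
      exact Real.sq_sqrt v.coe_nonneg
  rw [← h, integral_map (by fun_prop) (by fun_prop), C4, ← integral_const_mul]
  refine integral_congr_ae (Eventually.of_forall fun x => ?_)
  simp only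
  rw [mul_pow]
  congr 1
  rw [show (4 : ℕ) = 2 * 2 by norm_num, pow_mul, Real.sq_sqrt v.coe_nonneg]

lemma markov_four [IsFiniteMeasure P] (hX : HasLaw X (gaussianReal 0 v) P) {ε : ℝ} (hε : 0 < ε) :
    P {ω | ε < |X ω|} ≤ ENNReal.ofReal (v ^ 2 * C4 / ε ^ 4) := by
  have hi : Integrable (fun ω => X ω ^ 4) P := by
    have := integrable_four 0 v
    rw [← hX.map_eq, integrable_map_measure (by fun_prop) hX.aemeasurable] at this
    exact this
  have h1 := mul_meas_ge_le_integral_of_nonneg (μ := P) (f := fun ω => X ω ^ 4)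
    (Eventually.of_forall fun ω => by positivity) hi (ε ^ 4)
  have h2 : ∫ ω, X ω ^ 4 ∂P = v ^ 2 * C4 := by
    rw [← gauss_four, ← hX.map_eq, integral_map hX.aemeasurable (by fun_prop)]
  rw [h2] at h1
  have h3 : P.real {ω | ε < |X ω|} ≤ v ^ 2 * C4 / ε ^ 4 := by
    rw [le_div_iff₀ (by positivity), mul_comm]
    refine le_trans (mul_le_mul_of_nonneg_left (measureReal_mono ?_) (by positivity)) h1
    intro ω hω
    simp only [mem_ofPred_eq] at hω ⊢
    have := pow_le_pow_left₀ hε.le hω.le 4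
    rwa [← abs_pow, abs_of_nonneg (by positivity)] at this
  rw [← ofReal_measureReal]
  exact ENNReal.ofReal_le_ofReal h3

end

section
variable {Ω : Type*} [MeasurableSpace Ω] {P : Measure Ω} [IsProbabilityMeasure P] {B : ℝ≥0 → Ω → ℝ}
  (hB : IsPreBrownianReal B P)
include hB

lemma incr_bound (s t : ℝ≥0) {d : ℝ} (hd : dist s t ≤ d) {ε : ℝ} (hε : 0 < ε) :
    P {ω | ε < |B s ω - B t ω|} ≤ ENNReal.ofReal (d ^ 2 * C4 / ε ^ 4) := by
  have h := markov_four (hB.hasLaw_sub s t) hε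
  refine h.trans (ENNReal.ofReal_le_ofReal ?_)
  have h1 : ((nndist s.1 t.1 : ℝ≥0) : ℝ) ≤ d := hd
  have := C4_nonneg
  gcongr

lemma ae_good : ∀ᵐ ω ∂P, GoodPath fun t => B t ω := by
  set S : ℕ → Set Ω := fun n => ⋃ k ∈ Finset.range (n * 2 ^ n),
    {ω | (9 / 10 : ℝ) ^ n < |B (((k : ℝ≥0) + 1) / 2 ^ n) ω - B ((k : ℝ≥0) / 2 ^ n) ω|} with hS
  have hbd : ∀ n, P (S n) ≤ ENNReal.ofReal (n * (8 / 10) ^ n * C4) := by
    intro n
    have h1 : ∀ k ∈ Finset.range (n * 2 ^ n),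
        P {ω | (9 / 10 : ℝ) ^ n < |B (((k : ℝ≥0) + 1) / 2 ^ n) ω - B ((k : ℝ≥0) / 2 ^ n) ω|} ≤
          ENNReal.ofReal (((1 / 2) ^ n) ^ 2 * C4 / ((9 / 10) ^ n) ^ 4) := by
      intro k _
      refine incr_bound hB _ _ (le_of_eq ?_) (by positivity)
      rw [NNReal.dist_eq]
      push_cast
      rw [← sub_div, add_sub_cancel_left, abs_of_nonneg (by positivity), one_div_pow]
    refine (measure_biUnion_finset_le _ _).trans ((Finset.sum_le_sum h1).trans ?_)
    rw [Finset.sum_const, Finset.card_range, nsmul_eq_mul]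
    rw [← ENNReal.ofReal_natCast, ← ENNReal.ofReal_mul (by positivity)]
    refine ENNReal.ofReal_le_ofReal ?_
    push_cast
    have e : (n : ℝ) * 2 ^ n * (((1 / 2) ^ n) ^ 2 * C4 / ((9 / 10) ^ n) ^ 4) =
        n * (2 * (1 / 2) ^ 2 / (9 / 10) ^ 4) ^ n * C4 := by
      have a1 : ((1 / 2 : ℝ) ^ n) ^ 2 = ((1 / 2) ^ 2) ^ n := by rw [← pow_mul, ← pow_mul, mul_comm]
      have a2 : ((9 / 10 : ℝ) ^ n) ^ 4 = ((9 / 10) ^ 4) ^ n := by rw [← pow_mul, ← pow_mul, mul_comm]
      rw [a1, a2, div_pow (2 * (1 / 2) ^ 2) ((9 / 10) ^ 4) n, mul_pow 2 ((1 / 2) ^ 2) n]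
      ring
    rw [e]
    exact mul_le_mul_of_nonneg_right (mul_le_mul_of_nonneg_left
      (pow_le_pow_left₀ (by norm_num) (by norm_num) n) (by positivity)) C4_nonneg
  have hsum : ∑' n, P (S n) ≠ ∞ := by
    have h1 : Summable fun n : ℕ => (n : ℝ) * (8 / 10) ^ n * C4 := by
      have := summable_pow_mul_geometric_of_norm_lt_one 1 (r := (8 / 10 : ℝ)) (by
        rw [Real.norm_eq_abs, abs_of_nonneg (by norm_num)]; norm_num)
      simp only [pow_one] at this
      exact this.mul_right _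
    refine ne_top_of_le_ne_top ?_ (ENNReal.tsum_le_tsum hbd)
    exact h1.tsum_ofReal_ne_top
  filter_upwards [ae_eventually_notMem hsum] with ω hω
  obtain ⟨n0, hn0⟩ := eventually_atTop.1 hω
  refine ⟨n0, fun n hn k hk => ?_⟩
  have h1 := hn0 n hn
  simp only [hS, mem_iUnion, Finset.mem_range, not_exists, mem_ofPred_eq, not_lt] at h1
  exact h1 k hk

lemma ae_tendsto (t : ℝ≥0) : ∀ᵐ ω ∂P, Tendsto (fun n => B (dya n t) ω) atTop (𝓝 (B t ω)) := by
  set S : ℕ → Set Ω := fun n => {ω | (9 / 10 : ℝ) ^ n < |B (dya n t) ω - B t ω|} with hS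
  have hbd : ∀ n, P (S n) ≤ ENNReal.ofReal ((8 / 10) ^ n * C4) := by
    intro n
    refine (incr_bound hB (dya n t) t (d := (1 / 2) ^ n) ?_ (by positivity)).trans
      (ENNReal.ofReal_le_ofReal ?_)
    · have h1 := dya_le n t
      have h2 := lt_dya n t
      have h1' : (dya n t : ℝ) ≤ t := by exact_mod_cast h1
      have h2' : (t : ℝ) ≤ dya n t + (1 / 2) ^ n := by
        have := NNReal.coe_le_coe.2 h2
        push_cast at this
        exact this
      rw [NNReal.dist_eq, abs_sub_comm, abs_of_nonneg (by linarith)]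
      linarith
    · have e : (((1 / 2 : ℝ)) ^ n) ^ 2 * C4 / ((9 / 10) ^ n) ^ 4 =
          ((1 / 2) ^ 2 / (9 / 10) ^ 4) ^ n * C4 := by
        have a1 : ((1 / 2 : ℝ) ^ n) ^ 2 = ((1 / 2) ^ 2) ^ n := by rw [← pow_mul, ← pow_mul, mul_comm]
        have a2 : ((9 / 10 : ℝ) ^ n) ^ 4 = ((9 / 10) ^ 4) ^ n := by
          rw [← pow_mul, ← pow_mul, mul_comm]
        rw [a1, a2, div_pow ((1 / 2) ^ 2) ((9 / 10) ^ 4) n]
        ring
      rw [e]
      exact mul_le_mul_of_nonneg_right (pow_le_pow_left₀ (by norm_num) (by norm_num) n) C4_nonneg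
  have hsum : ∑' n, P (S n) ≠ ∞ := by
    have h1 : Summable fun n : ℕ => (8 / 10 : ℝ) ^ n * C4 :=
      (summable_geometric_of_lt_one (by norm_num) (by norm_num)).mul_right _
    exact ne_top_of_le_ne_top h1.tsum_ofReal_ne_top (ENNReal.tsum_le_tsum hbd)
  filter_upwards [ae_eventually_notMem hsum] with ω hω
  rw [tendsto_iff_dist_tendsto_zero]
  refine squeeze_zero' (Eventually.of_forall fun n => dist_nonneg) ?_
    (tendsto_pow_atTop_nhds_zero_of_lt_one (r := (9 / 10 : ℝ)) (by norm_num) (by norm_num))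
  filter_upwards [hω] with n hn
  simp only [hS, mem_ofPred_eq, not_lt] at hn
  exact hn

end

/-- **Existence of Wiener measure** on the path space -/
theorem exists_IsW : ∃ W : Measure Pth, IsW W := by
  obtain ⟨Ω, mΩ, P, hP, B, mB, hB⟩ := exists_preBM
  classical
  set Good : Set Ω := {ω | GoodPath fun t => B t ω} with hGood
  have mGood : MeasurableSet Good := by
    have e : Good = ⋃ n0 : ℕ, ⋂ n : ℕ, ⋂ (_ : n ≥ n0), ⋂ k : ℕ, ⋂ (_ : k < n * 2 ^ n),
        {ω | |B (((k : ℝ≥0) + 1) / 2 ^ n) ω - B ((k : ℝ≥0) / 2 ^ n) ω| ≤ (9 / 10) ^ n} := by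
      ext ω
      simp only [hGood, GoodPath, mem_ofPred_eq, mem_iUnion, mem_iInter]
    rw [e]
    refine MeasurableSet.iUnion fun n0 => MeasurableSet.iInter fun n => MeasurableSet.iInter fun _ =>
      MeasurableSet.iInter fun k => MeasurableSet.iInter fun _ => ?_
    exact measurableSet_le (((mB _).sub (mB _)).abs) measurable_const
  have hlim : ∀ ω ∈ Good, ∃ g : ℝ≥0 → ℝ, Continuous g ∧
      ∀ t, Tendsto (fun n => B (dya n t) ω) atTop (𝓝 (g t)) := fun ω hω =>
        exists_limit (x := fun t => B t ω) hω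
  choose! g hgc hg using hlim
  let Φ : Ω → Pth := fun ω => if h : ω ∈ Good then ⟨fun t => g ω t.toNNReal - g ω 0, by
    have := hgc ω h
    have h2 : Continuous Real.toNNReal := continuous_real_toNNReal
    fun_prop, fun t ht => by rw [Real.toNNReal_of_nonpos ht, sub_self]⟩ else default
  have hΦ : ∀ ω ∈ Good, ∀ t : ℝ≥0, Φ ω t = g ω t - g ω 0 := by
    intro ω hω t
    simp only [Φ, dif_pos hω]
    change g ω (t : ℝ).toNNReal - g ω 0 = _
    rw [Real.toNNReal_coe]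
  have hΦ' : ∀ ω ∉ Good, ∀ t : ℝ, Φ ω t = 0 := by
    intro ω hω t
    simp only [Φ, dif_neg hω]
    rfl
  have mΦ : Measurable Φ := by
    refine measurable_of_eval_pos fun t ht => ?_
    lift t to ℝ≥0 using ht
    refine measurable_of_tendsto_metrizable
      (f := fun n ω => Good.indicator (fun ω => B (dya n t) ω - B (dya n 0) ω) ω)
      (fun n => ((mB _).sub (mB _)).indicator mGood) ?_
    rw [tendsto_pi_nhds]
    intro ω
    by_cases hω : ω ∈ Good
    · simp only [indicator_of_mem hω]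
      rw [hΦ ω hω t]
      exact (hg ω hω t).sub (hg ω hω 0)
    · simp only [indicator_of_notMem hω]
      rw [hΦ' ω hω]
      exact tendsto_const_nhds
  refine ⟨P.map Φ, isW_map mΦ (hB.congr fun t => ?_)⟩
  filter_upwards [ae_good hB, ae_tendsto hB t, ae_tendsto hB 0, hB.eval_zero_ae_eq_zero] with ω h1 h2 h3 h4
  have hω : ω ∈ Good := h1
  rw [hΦ ω hω t, tendsto_nhds_unique (hg ω hω t) h2, tendsto_nhds_unique (hg ω hω 0) h3, h4, sub_zero]

end Pool.Agent.H4.BM
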