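import Mathlib
import Pool.Agent.H4.BM.Conv

open MeasureTheory ProbabilityTheory Set Filter Topology
open scoped NNReal ENNReal Real

namespace Pool.Agent.H4.BM

open Pth

/-- a stage of the filling scheme: `φ` gives the mass not yet used, `r` the density not yet
filled -/
structure St (W : Measure Pth) where
  /-- the scale -/
  k : ℕ
  /-- the remaining mass -/
  φ : Pth → ℝ
  /-- the remaining density -/
  r : Pth → ℝ
  mφ : Measurable φ
  φ0 : ∀ A, 0 ≤ φ A
  φ1 : ∀ A, φ A ≤ 1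
  mr : Measurable r
  r0 : ∀ A, 0 ≤ r A
  r1 : ∀ A, r A ≤ 1
  bal : ∫ ω, φ (Y (tt (k + 1) : ℕ) ω) ∂(mu0 W) = ∫ A, r A ∂W

section
variable {W : Measure Pth} (hW : IsW W)
include hW

lemma step (s : St W) (K0 : ℕ) {δ : ℝ} (hδ : 0 < δ) :
    ∃ (s' : St W) (α : Pth → ℝ), K0 ≤ s'.k ∧ s.k < s'.k ∧ Measurable α ∧ (∀ A, 0 ≤ α A) ∧
      (∀ A, α A ≤ 1) ∧
      (∀ ω, s'.φ (Y (tt (s'.k + 1) : ℕ) ω) = s.φ (Y (tt (s.k + 1) : ℕ) ω) *
        (1 - (1 / nn s'.k : ℝ) * ∑ j ∈ Finset.range (nn s'.k), α (Y (nn s'.k + j : ℕ) ω))) ∧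
      (∀ G : Pth → ℝ, Measurable G → (∀ A, |G A| ≤ 1) →
        (1 / nn s'.k : ℝ) * ∑ j ∈ Finset.range (nn s'.k),
          ∫ ω, s.φ (Y (tt (s.k + 1) : ℕ) ω) *
            (α (Y (nn s'.k + j : ℕ) ω) * G (Y (nn s'.k + j : ℕ) ω)) ∂(mu0 W)
          = ∫ A, (s.r A - s'.r A) * G A ∂W) ∧
      (∀ A, s'.r A ≤ s.r A) ∧
      ∫ A, s'.r A ∂W ≤ ∫ A, s.r A ∂W - (∫ A, s.r A ∂W) ^ 2 + δ := by
  have := hW.prob
  have := mu0_prob hW
  obtain ⟨k, hK, hk0, hconv⟩ := conv hW s.k s.mφ s.φ0 s.φ1 hδ K0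
  set n := nn k with hn
  have hnpos : 0 < n := nn_pos k
  have hn' : (0 : ℝ) < n := by exact_mod_cast hnpos
  have h2n : 2 * n = tt (k + 1) := two_nn k
  have han : tt (s.k + 1) ≤ n := tt_le_nn hk0
  have hφb : ∀ A, |s.φ A| ≤ 1 := fun A => by rw [abs_of_nonneg (s.φ0 A)]; exact s.φ1 A
  set h := hk hW s.k s.φ k with hh
  have mh : Measurable h := measurable_hk hW s.k s.mφ k
  have h0 : ∀ A, 0 ≤ h A := fun A => hk_nonneg hW s.k s.φ0 k A
  have h1 : ∀ A, h A ≤ Cr k := fun A => hk_le hW s.k s.φ0 s.φ1 k A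
  set α : Pth → ℝ := fun A => min (h A) (s.r A) / h A with hα
  have mα : Measurable α := (mh.min s.mr).div mh
  have α0 : ∀ A, 0 ≤ α A := fun A => div_nonneg (le_min (h0 A) (s.r0 A)) (h0 A)
  have α1 : ∀ A, α A ≤ 1 := fun A => div_le_one_of_le₀ (min_le_left _ _) (h0 A)
  have hαh : ∀ A, h A * α A = min (h A) (s.r A) := by
    intro A
    simp only [hα]
    rcases eq_or_lt_of_le (h0 A) with h | h
    · rw [← h, zero_mul, min_eq_left (s.r0 A)]
    · field_simp
  have αb : ∀ A, |α A| ≤ 1 := fun A => by rw [abs_of_nonneg (α0 A)]; exact α1 A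
  have hm0 : ∀ A, 0 ≤ min (h A) (s.r A) := fun A => le_min (h0 A) (s.r0 A)
  have mm : Measurable fun A => min (h A) (s.r A) := mh.min s.mr
  -- the key identity
  have key : ∀ G : Pth → ℝ, Measurable G → (∀ A, |G A| ≤ 1) →
        (1 / n : ℝ) * ∑ j ∈ Finset.range n,
          ∫ ω, s.φ (Y (tt (s.k + 1) : ℕ) ω) *
            (α (Y (n + j : ℕ) ω) * G (Y (n + j : ℕ) ω)) ∂(mu0 W)
          = ∫ A, min (h A) (s.r A) * G A ∂W := by
    intro G hG hGb
    have e := integral_hk hW s.k s.mφ hk0 (G := fun A => α A * G A) (mα.mul hG) (K := 1)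
      (fun A => by
        rw [abs_mul]
        exact mul_le_one₀ (αb A) (abs_nonneg _) (hGb A)) hφb
    rw [e]
    refine integral_congr_ae (Eventually.of_forall fun A => ?_)
    simp only
    rw [← mul_assoc, ← hh, hαh]
  have hsum_le : ∀ f : ℕ → Pth, (1 / n : ℝ) * ∑ j ∈ Finset.range n, α (f j) ≤ 1 := by
    intro f
    have : ∑ j ∈ Finset.range n, α (f j) ≤ ∑ j ∈ Finset.range n, (1 : ℝ) :=
      Finset.sum_le_sum fun j _ => α1 _
    rw [Finset.sum_const, Finset.card_range, nsmul_eq_mul, mul_one] at this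
    rw [one_div, inv_mul_le_iff₀ hn', mul_one]
    exact this
  have hsum_nn : ∀ f : ℕ → Pth, 0 ≤ (1 / n : ℝ) * ∑ j ∈ Finset.range n, α (f j) := by
    intro f
    have : 0 ≤ ∑ j ∈ Finset.range n, α (f j) := Finset.sum_nonneg fun j _ => α0 _
    positivity
  set φ' : Pth → ℝ := fun B => s.φ (sh (2 * n - tt (s.k + 1)) B) *
    (1 - (1 / n : ℝ) * ∑ j ∈ Finset.range n, α (sh (2 * n - (n + j)) B)) with hφ'
  have mφ' : Measurable φ' := by
    refine (s.mφ.comp (measurable_sh _)).mul (measurable_const.sub (measurable_const.mul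
      (Finset.measurable_sum _ fun j _ => mα.comp (measurable_sh _))))
  have hφ'Y : ∀ ω, φ' (Y (tt (k + 1) : ℕ) ω) = s.φ (Y (tt (s.k + 1) : ℕ) ω) *
        (1 - (1 / n : ℝ) * ∑ j ∈ Finset.range n, α (Y (n + j : ℕ) ω)) := by
    intro ω
    simp only [hφ']
    rw [← h2n, sh_Y' (by omega)]
    congr 3
    refine Finset.sum_congr rfl fun j hj => ?_
    have := Finset.mem_range.1 hj
    rw [sh_Y' (by omega)]
  set r' : Pth → ℝ := fun A => s.r A - min (h A) (s.r A) with hr'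
  have ir : Integrable s.r W := integrable_of_bdd s.mr (K := 1) fun A => by
    rw [abs_of_nonneg (s.r0 A)]; exact s.r1 A
  have im : Integrable (fun A => min (h A) (s.r A)) W := integrable_of_bdd mm (K := 1) fun A => by
    rw [abs_of_nonneg (hm0 A)]
    exact (min_le_right _ _).trans (s.r1 A)
  have hbal : ∫ ω, φ' (Y (tt (k + 1) : ℕ) ω) ∂(mu0 W) = ∫ A, r' A ∂W := by
    simp only [hφ'Y]
    have e1 : ∀ ω, s.φ (Y (tt (s.k + 1) : ℕ) ω) *
        (1 - (1 / n : ℝ) * ∑ j ∈ Finset.range n, α (Y (n + j : ℕ) ω)) =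
        s.φ (Y (tt (s.k + 1) : ℕ) ω) - (1 / n : ℝ) * ∑ j ∈ Finset.range n,
          s.φ (Y (tt (s.k + 1) : ℕ) ω) * (α (Y (n + j : ℕ) ω) * (fun _ => (1 : ℝ)) (Y (n + j : ℕ) ω)) := by
      intro ω
      simp only [mul_one]
      rw [← Finset.mul_sum]
      ring
    have i1 : Integrable (fun ω => s.φ (Y (tt (s.k + 1) : ℕ) ω)) (mu0 W) :=
      integrable_of_bdd (s.mφ.comp (measurable_Y _)) fun ω => hφb _
    have i2 : ∀ j, Integrable (fun ω => s.φ (Y (tt (s.k + 1) : ℕ) ω) *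
        (α (Y (n + j : ℕ) ω) * (fun _ => (1 : ℝ)) (Y (n + j : ℕ) ω))) (mu0 W) := by
      intro j
      refine integrable_of_bdd ((s.mφ.comp (measurable_Y _)).mul
        ((mα.comp (measurable_Y _)).mul measurable_const)) (K := 1) fun ω => ?_
      simp only [mul_one]
      rw [abs_mul]
      exact mul_le_one₀ (hφb _) (abs_nonneg _) (αb _)
    simp only [e1]
    rw [integral_sub i1 ((integrable_finsetSum _ fun j _ => i2 j).const_mul _), s.bal,
      integral_const_mul, integral_finsetSum _ fun j _ => i2 j,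
      key (fun _ => 1) measurable_const (fun _ => by simp), hr', integral_sub ir im]
    simp
  refine ⟨⟨k, φ', r', mφ', fun B => ?_, fun B => ?_, s.mr.sub mm, fun A => ?_, fun A => ?_, hbal⟩,
    α, hK, hk0, mα, α0, α1, hφ'Y, ?_, fun A => ?_, ?_⟩
  · have := hsum_le fun j => sh (2 * n - (n + j)) B
    exact mul_nonneg (s.φ0 _) (by linarith)
  · have h3 := hsum_le fun j => sh (2 * n - (n + j)) B
    have h4 := hsum_nn fun j => sh (2 * n - (n + j)) B
    exact mul_le_one₀ (s.φ1 _) (by linarith) (by linarith)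
  · exact sub_nonneg.2 (min_le_right _ _)
  · have := hm0 A
    have := s.r1 A
    simp only [hr']
    linarith
  · intro G hG hGb
    simp only [hr', sub_sub_cancel]
    exact key G hG hGb
  · have := hm0 A
    simp only [hr']
    linarith
  · simp only [hr']
    rw [integral_sub ir im]
    rw [s.bal] at hconv
    set m := ∫ A, s.r A ∂W with hm
    have hm0' : 0 ≤ m := integral_nonneg s.r0
    have hm1 : m ≤ 1 := by
      have : ∫ A, s.r A ∂W ≤ ∫ _A, (1 : ℝ) ∂W := integral_mono ir (integrable_const _) s.r1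
      simpa using this
    have ihm : Integrable (fun A => |h A - m|) W := by
      refine ((integrable_of_bdd mh (K := Cr k) fun A => ?_).sub (integrable_const _)).abs
      rw [abs_of_nonneg (h0 A)]
      exact h1 A
    have h5 : ∫ A, (m * s.r A - |h A - m|) ∂W ≤ ∫ A, min (h A) (s.r A) ∂W := by
      refine integral_mono ((ir.const_mul m).sub ihm) im fun A => ?_
      simp only
      have a1 := s.r0 A
      have a2 := s.r1 A
      refine le_min ?_ ?_
      · have := neg_abs_le (h A - m)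
        nlinarith
      · have := abs_nonneg (h A - m)
        nlinarith
    rw [integral_sub (ir.const_mul m) ihm, integral_const_mul, ← hm] at h5
    nlinarith

end

end Pool.Agent.H4.BM
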