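import Mathlib
import Pool.Agent.H4.BM.Ident

open MeasureTheory ProbabilityTheory Set Filter Topology
open scoped NNReal ENNReal Real

namespace Pool.Agent.H4.BM

open Pth

/-- the two-sided path with given forward and backward parts -/
def two (f g : Pth) (t : ℝ) : ℝ := f t + g (-t)

lemma continuous_two (f g : Pth) : Continuous (two f g) := by
  unfold two
  have := f.continuous
  have := g.continuous
  fun_prop

lemma two_neg (f g : Pth) (t : ℝ) : two f g (-t) = two g f t := by
  unfold two
  rw [neg_neg, add_comm]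

lemma le_tt (K : ℕ) : K ≤ tt K := by
  unfold tt
  have h1 : K < 16 ^ K := Nat.lt_pow_self (by norm_num)
  rcases Nat.eq_zero_or_pos K with h | h
  · subst h; norm_num
  · have h3 : 16 ^ K ≤ 16 ^ (K ^ 2) :=
      Nat.pow_le_pow_right (by norm_num) (Nat.le_self_pow (by norm_num) K)
    omega

section
variable {W : Measure Pth} (hW : IsW W)
include hW

/-- a set of paths is null if it is null conditionally on everything but one block -/
lemma null_of_block {S : Set Pth} (hS : MeasurableSet S) (Q : ℝ≥0) (c : Pth → ℝ≥0)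
    (h : ∀ f1 B1 B3, W {B2 | cat Q f1 (cat (c f1) B1 (cat 1 B2 B3)) ∈ S} = 0) : W S = 0 := by
  have := hW.prob
  have mi : Measurable (S.indicator (1 : Pth → ℝ≥0∞)) := measurable_one.indicator hS
  rw [← lintegral_indicator_one hS, ← lintegral_cat hW Q mi]
  have h1 : ∀ f1, ∫⁻ B, S.indicator (1 : Pth → ℝ≥0∞) (cat Q f1 B) ∂W = 0 := by
    intro f1
    have m1 : Measurable fun B => S.indicator (1 : Pth → ℝ≥0∞) (cat Q f1 B) :=
      mi.comp (measurable_cat measurable_const measurable_const measurable_id)
    rw [← lintegral_cat hW (c f1) m1]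
    have h2 : ∀ B1, ∫⁻ B', S.indicator (1 : Pth → ℝ≥0∞) (cat Q f1 (cat (c f1) B1 B')) ∂W = 0 := by
      intro B1
      have m2 : Measurable fun B' => S.indicator (1 : Pth → ℝ≥0∞) (cat Q f1 (cat (c f1) B1 B')) :=
        m1.comp (measurable_cat measurable_const measurable_const measurable_id)
      rw [← lintegral_cat hW 1 m2, lintegral_lintegral_swap]
      · have h3 : ∀ B3, ∫⁻ B2, S.indicator (1 : Pth → ℝ≥0∞)
            (cat Q f1 (cat (c f1) B1 (cat 1 B2 B3))) ∂W = 0 := by
          intro B3
          have hm : MeasurableSet {B2 | cat Q f1 (cat (c f1) B1 (cat 1 B2 B3)) ∈ S} :=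
            (measurable_cat measurable_const measurable_const (measurable_cat measurable_const
              measurable_const (measurable_cat measurable_const measurable_id measurable_const))) hS
          have h4 := h f1 B1 B3
          rw [← lintegral_indicator_one hm] at h4
          exact h4
        simp only [h3, lintegral_zero]
      · apply Measurable.aemeasurable
        exact m2.comp (measurable_cat measurable_const measurable_fst measurable_snd)
    simp only [h2, lintegral_zero]
  simp only [h1, lintegral_zero]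

lemma null_incr {T : Set ℝ} (hT : T.Subsingleton) : W {B : Pth | B 1 ∈ T} = 0 := by
  have hTm : MeasurableSet T := hT.measurableSet
  have h1 := map_incr hW 0
  have h2 : W {B : Pth | B 1 ∈ T} = gaussianReal 0 1 T := by
    have m1 : Measurable (fun A : Pth => A (((0 : ℝ≥0) : ℝ) + 1) - A ((0 : ℝ≥0) : ℝ)) :=
      (measurable_apply _).sub (measurable_apply _)
    rw [← h1, Measure.map_apply m1 hTm]
    congr 1
    ext B
    simp
  rw [h2]
  have := nullSingletonClass_gaussianReal (μ := 0) (v := 1) one_ne_zero
  exact hT.measure_zero _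

end

section
variable {Q c : ℝ≥0} {f1 B1 B2 B3 : Pth}

lemma blk1 {t : ℝ} (ht : t ≤ Q) : cat Q f1 (cat c B1 (cat 1 B2 B3)) t = f1 t := by
  rw [cat_apply_of_le _ _ ht]

lemma blk2 {t : ℝ} (ht : t ≤ Q + c) : cat Q f1 (cat c B1 (cat 1 B2 B3)) t =
    cat Q f1 (cat c B1 (cat 1 default B3)) t := by
  rw [cat_apply Q, cat_apply Q, cat_apply_of_le (c := c) _ _ (by linarith),
    cat_apply_of_le (c := c) _ _ (by linarith)]

lemma blk3 {t : ℝ} (ht : Q + c + 1 ≤ t) : cat Q f1 (cat c B1 (cat 1 B2 B3)) t =
    cat Q f1 (cat c B1 (cat 1 default B3)) t + B2 1 := by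
  have h1 := Q.coe_nonneg
  have h2 := c.coe_nonneg
  rw [cat_apply_of_ge (c := Q) _ _ (by linarith), cat_apply_of_ge (c := Q) _ _ (by linarith),
    cat_apply_of_ge (c := c) _ _ (by linarith), cat_apply_of_ge (c := c) _ _ (by linarith),
    cat_apply_of_ge (c := 1) _ _ (by push_cast; linarith),
    cat_apply_of_ge (c := 1) _ _ (by push_cast; linarith)]
  have e : (default : Pth) ((1 : ℝ≥0) : ℝ) = 0 := rfl
  rw [e]
  push_cast
  ring

lemma blk4 : cat Q f1 (cat c B1 (cat 1 B2 B3)) (Q + c + 1) =
    cat Q f1 (cat c B1 (cat 1 B2 B3)) (Q + c) + B2 1 := by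
  have h1 := Q.coe_nonneg
  have h2 := c.coe_nonneg
  rw [cat_apply_of_ge (c := Q) _ _ (by linarith), cat_apply_of_ge (c := Q) _ _ (by linarith),
    cat_apply_of_ge (c := c) _ _ (by linarith), cat_apply_of_ge (c := c) _ _ (by linarith),
    cat_apply_of_ge (c := 1) _ _ (by push_cast; linarith),
    cat_apply_of_le (c := 1) _ _ (by push_cast; linarith)]
  have e1 : (Q : ℝ) + c + 1 - Q - c - (1 : ℝ≥0) = 0 := by push_cast; ring
  have e2 : (Q : ℝ) + c - Q - c = 0 := by ring
  rw [e1, e2, B3.zero, B2.zero]
  push_cast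
  ring

end

lemma beta_block {Q c : ℝ≥0} {f1 B1 B3 g : Pth} {ρ : ℝ} {K : ℕ} (hρ : ρ + tt K = Q + c) (B2 : Pth) :
    beta (two (cat Q f1 (cat c B1 (cat 1 B2 B3))) g) ρ =
      (1 / 2) ^ (K + 1) * hh (B2 1) +
        ∑' j : ℕ, if j = K then 0 else (1 / 2 : ℝ) ^ (j + 1) *
          hh (two (cat Q f1 (cat c B1 (cat 1 default B3))) g (ρ + tt j + 1) -
            two (cat Q f1 (cat c B1 (cat 1 default B3))) g (ρ + tt j)) := by
  unfold beta
  rw [(summable_beta _ ρ).tsum_eq_add_tsum_ite K]
  have h1 := Q.coe_nonneg
  have h2 := c.coe_nonneg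
  congr 1
  · congr 2
    unfold two
    rw [hρ, blk4, g.of_nonpos (by linarith), g.of_nonpos (by linarith)]
    ring
  · refine tsum_congr fun j => ?_
    split_ifs with hj
    · rfl
    · congr 2
      unfold two
      rcases lt_or_gt_of_ne hj with hj | hj
      · have ht : (16 : ℝ) * tt j ≤ tt K := by
          have h1 := tt_succ_ge j
          have h2 := tt_mono (show j + 1 ≤ K by omega)
          exact_mod_cast h1.trans h2
        have ht' : (1 : ℝ) ≤ tt j := by exact_mod_cast tt_pos j
        rw [blk2 (B2 := B2) (by linarith), blk2 (B2 := B2) (by linarith)]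
      · have ht : (16 : ℝ) * tt K ≤ tt j := by
          have h1 := tt_succ_ge K
          have h2 := tt_mono (show K + 1 ≤ j by omega)
          exact_mod_cast h1.trans h2
        have ht' : (1 : ℝ) ≤ tt K := by exact_mod_cast tt_pos K
        rw [blk3 (B2 := B2) (by linarith), blk3 (B2 := B2) (by linarith)]
        ring

/-- the bad event -/
def Bad (q q' r r' : ℝ) : Set (Pth × Pth) := {x | FA (two x.1 x.2) q q' + FA (two x.2 x.1) r r' =
  2 + beta (two x.1 x.2) (FA (two x.1 x.2) q q') + beta (two x.2 x.1) (FA (two x.2 x.1) r r')}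

lemma measurable_two (t : ℝ) : Measurable fun x : Pth × Pth => two x.1 x.2 t := by
  unfold two
  exact ((measurable_apply _).comp measurable_fst).add ((measurable_apply _).comp measurable_snd)

lemma measurable_two' (t : ℝ) : Measurable fun x : Pth × Pth => two x.2 x.1 t := by
  unfold two
  exact ((measurable_apply _).comp measurable_snd).add ((measurable_apply _).comp measurable_fst)

lemma measurableSet_Bad {q q' r r' : ℝ} (hq : q ≤ q') (hr : r ≤ r') :
    MeasurableSet (Bad q q' r r') := by
  have m1 : Measurable fun x : Pth × Pth => FA (two x.1 x.2) q q' :=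
    measurable_FA (fun x => continuous_two _ _) measurable_two hq
  have m2 : Measurable fun x : Pth × Pth => FA (two x.2 x.1) r r' :=
    measurable_FA (fun x => continuous_two _ _) measurable_two' hr
  have m3 : Measurable fun x : Pth × Pth => beta (two x.1 x.2) (FA (two x.1 x.2) q q') :=
    measurable_beta (fun x => continuous_two _ _) measurable_two m1
  have m4 : Measurable fun x : Pth × Pth => beta (two x.2 x.1) (FA (two x.2 x.1) r r') :=
    measurable_beta (fun x => continuous_two _ _) measurable_two' m2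
  exact measurableSet_eq_fun (m1.add m2) ((measurable_const.add m3).add m4)

lemma null_Bad {W : Measure Pth} (hW : IsW W) {q q' r r' : ℝ} (hq : q ≤ q') (hr : r ≤ r') :
    (W.prod W) (Bad q q' r r') = 0 := by
  have := hW.prob
  have hm := measurableSet_Bad hq hr
  rw [Measure.prod_apply_symm hm]
  have h0 : ∀ g, W ((fun x => (x, g)) ⁻¹' Bad q q' r r') = 0 := by
    intro g
    obtain ⟨n, hn⟩ := exists_nat_ge (max (max |q| |q'|) (max |r| |r'|))
    have hnq : |q| ≤ n := (le_max_left _ _).trans ((le_max_left _ _).trans hn)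
    have hnq' : |q'| ≤ n := (le_max_right _ _).trans ((le_max_left _ _).trans hn)
    have hnr : |r| ≤ n := (le_max_left _ _).trans ((le_max_right _ _).trans hn)
    have hnr' : |r'| ≤ n := (le_max_right _ _).trans ((le_max_right _ _).trans hn)
    rw [abs_le] at hnq hnq' hnr hnr'
    set K := 2 * n with hK
    have htK : 2 * (n : ℝ) ≤ tt K := by
      have := le_tt K
      have h2 : ((2 * n : ℕ) : ℝ) ≤ tt K := by exact_mod_cast this
      push_cast at h2
      exact h2
    have hρ : ∀ f1 : Pth, FA (two f1 g) q q' ∈ Icc q q' := fun f1 =>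
      (FA_mem (continuous_two _ _) hq).1
    have hc : ∀ f1 : Pth, 0 ≤ FA (two f1 g) q q' + tt K - n := by
      intro f1
      have := (hρ f1).1
      linarith
    refine null_of_block hW (measurable_id.prodMk measurable_const hm) (n : ℝ≥0)
      (fun f1 => ⟨FA (two f1 g) q q' + tt K - n, hc f1⟩) fun f1 B1 B3 => ?_
    set ρ := FA (two f1 g) q q' with hρdef
    set c : ℝ≥0 := ⟨ρ + tt K - n, hc f1⟩ with hcdef
    have hcc : (c : ℝ) = ρ + tt K - n := rfl
    set G : Pth → Pth := fun B2 => cat (n : ℝ≥0) f1 (cat c B1 (cat 1 B2 B3)) with hG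
    set l := FA (two g (G default)) r r' with hl
    have hlm : l ∈ Icc r r' := (FA_mem (continuous_two _ _) hr).1
    have e1 : ∀ B2, FA (two (G B2) g) q q' = ρ := by
      intro B2
      refine FA_congr 0 fun t ht => ?_
      unfold two
      simp only [hG]
      rw [blk1 (by push_cast; linarith [ht.2]), add_zero]
    have e2 : ∀ B2, FA (two g (G B2)) r r' = l := by
      intro B2
      refine FA_congr 0 fun t ht => ?_
      unfold two
      simp only [hG]
      rw [blk1 (by push_cast; linarith [ht.1]), blk1 (by push_cast; linarith [ht.1]), add_zero]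
    have e3 : ∀ B2, beta (two g (G B2)) l = beta (two g (G default)) l := by
      intro B2
      refine beta_congr fun j => ?_
      have hj : (0 : ℝ) ≤ tt j := by positivity
      unfold two
      simp only [hG]
      rw [blk1 (by push_cast; linarith [hlm.1]), blk1 (by push_cast; linarith [hlm.1]),
        blk1 (by push_cast; linarith [hlm.1]), blk1 (by push_cast; linarith [hlm.1])]
    have e4 : ∀ B2, beta (two (G B2) g) ρ = (1 / 2) ^ (K + 1) * hh (B2 1) +
        ∑' j : ℕ, if j = K then 0 else (1 / 2 : ℝ) ^ (j + 1) *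
          hh (two (G default) g (ρ + tt j + 1) - two (G default) g (ρ + tt j)) := fun B2 =>
      beta_block (by rw [hcc]; push_cast; ring) B2
    set R := ∑' j : ℕ, if j = K then 0 else (1 / 2 : ℝ) ^ (j + 1) *
          hh (two (G default) g (ρ + tt j + 1) - two (G default) g (ρ + tt j)) with hR
    refine measure_mono_null (t := {B2 : Pth | B2 1 ∈ {y : ℝ | ρ + l = 2 + ((1 / 2) ^ (K + 1) * hh y + R) +
      beta (two g (G default)) l}}) ?_ (null_incr hW ?_)
    · intro B2 hB2
      have hB2' : FA (two (G B2) g) q q' + FA (two g (G B2)) r r' =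
        2 + beta (two (G B2) g) (FA (two (G B2) g) q q') +
          beta (two g (G B2)) (FA (two g (G B2)) r r') := hB2
      rw [e1, e2, e3, e4] at hB2'
      exact hB2'
    · intro y hy z hz
      simp only [mem_ofPred_eq] at hy hz
      have h1 : (1 / 2 : ℝ) ^ (K + 1) * hh y = (1 / 2) ^ (K + 1) * hh z := by linarith
      have h2 : (0 : ℝ) < (1 / 2) ^ (K + 1) := by positivity
      exact hh_injective (mul_left_cancel₀ h2.ne' h1)
  simp only [h0, lintegral_zero]

end Pool.Agent.H4.BM
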