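import Mathlib
import Pool.Agent.H4.BM.NullSet
import Pool.Agent.H4.BM.LawBound

open MeasureTheory ProbabilityTheory Set Filter Topology
open scoped NNReal ENNReal

namespace Pool.Agent.H4.BM

open Pth

/-! ### the marker lies inside with positive probability -/

section
variable {W : Measure Pth} (hW : IsW W)
include hW

omit hW in
lemma gauss_pos {v : ℝ≥0} (hv : v ≠ 0) {U : Set ℝ} (hU : IsOpen U) (hne : U.Nonempty) :
    gaussianReal 0 v U ≠ 0 := by
  intro h
  have h1 := gaussianReal_absolutelyContinuous' 0 hv h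
  exact (hU.measure_pos volume hne).ne' h1

lemma ww_pos : W {A | ww A ∈ Ioo (0 : ℝ) 1} ≠ 0 := by
  have := hW.prob
  let c : ℝ≥0 := 1 / 2
  have hc : (c : ℝ) = 1 / 2 := by simp [c]
  have hc0 : c ≠ 0 := by
    intro h
    rw [h] at hc
    norm_num at hc
  have hsub : {A : Pth | 0 < stop c A c} ∩ {A : Pth | shift c A c < 0} ⊆ {A | ww A ∈ Ioo (0 : ℝ) 1} := by
    intro A hA
    have h1 : 0 < A (1 / 2) := by
      have := hA.1
      simp only [mem_ofPred_eq, stop_apply, min_self, hc] at this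
      exact this
    have h2 : A 1 < A (1 / 2) := by
      have := hA.2
      simp only [mem_ofPred_eq] at this
      rw [shift_apply_of_nonneg _ _ c.coe_nonneg, hc, sub_neg] at this
      norm_num at this ⊢
      exact this
    have hm := FA_mem A.continuous (zero_le_one' ℝ)
    have h3 := hm.2 (1 / 2) ⟨by norm_num, by norm_num⟩
    change A (1 / 2) ≤ A (ww A) at h3
    have h4 : ww A ∈ Icc (0 : ℝ) 1 := hm.1
    refine ⟨lt_of_le_of_ne h4.1 ?_, lt_of_le_of_ne h4.2 ?_⟩
    · intro h
      rw [← h, A.zero] at h3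
      linarith
    · intro h
      rw [h] at h3
      linarith
  have hind := indep_stop_shift hW c
  have m1 : MeasurableSet {A : Pth | 0 < A c} := measurableSet_lt measurable_const (measurable_apply _)
  have m2 : MeasurableSet {A : Pth | A c < 0} := measurableSet_lt (measurable_apply _) measurable_const
  have hmul := hind.measure_inter_preimage_eq_mul _ _ m1 m2
  have p1 : W (stop c ⁻¹' {A : Pth | 0 < A c}) ≠ 0 := by
    have e : stop c ⁻¹' {A : Pth | 0 < A c} = {A : Pth | 0 < A c} := by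
      ext A
      simp only [mem_preimage, mem_ofPred_eq, stop_apply, min_self]
    rw [e]
    have h1 := (IsPreBrownianReal.hasLaw_eval hW c).map_eq
    have h2 : W {A : Pth | 0 < A c} = gaussianReal 0 c (Ioi 0) := by
      rw [← h1, Measure.map_apply (measurable_apply _) measurableSet_Ioi]
      rfl
    rw [h2]
    exact gauss_pos hc0 isOpen_Ioi ⟨1, by simp⟩
  have p2 : W (shift c ⁻¹' {A : Pth | A c < 0}) ≠ 0 := by
    have e : W.map (shift c) = W := map_shift hW c
    have ms : Measurable (shift c) := measurable_shift measurable_const measurable_id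
    rw [← Measure.map_apply ms m2, e]
    have h1 := (IsPreBrownianReal.hasLaw_eval hW c).map_eq
    have h2 : W {A : Pth | A c < 0} = gaussianReal 0 c (Iio 0) := by
      rw [← h1, Measure.map_apply (measurable_apply _) measurableSet_Iio]
      rfl
    rw [h2]
    exact gauss_pos hc0 isOpen_Iio ⟨-1, by simp⟩
  intro h0
  have h5 := measure_mono_null hsub h0
  have h6 : W (stop c ⁻¹' {A : Pth | 0 < A c} ∩ shift c ⁻¹' {A : Pth | A c < 0}) = 0 := h5
  rw [hmul] at h6
  rcases mul_eq_zero.1 h6 with h | h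
  · exact p1 h
  · exact p2 h

/-- both markers lie strictly inside -/
def EE : Set Om := {ω | ww ω.1 ∈ Ioo (0 : ℝ) 1 ∧ ww ω.2.2.1 ∈ Ioo (0 : ℝ) 1}

omit hW in
lemma EE_eq : EE = {A | ww A ∈ Ioo (0 : ℝ) 1} ×ˢ (univ ×ˢ ({A | ww A ∈ Ioo (0 : ℝ) 1} ×ˢ univ)) := by
  ext ⟨P, M, F, M'⟩
  simp [EE]

lemma EE_pos : mu0 W EE ≠ 0 := by
  have := hW.prob
  rw [EE_eq, mu0, Measure.prod_prod, Measure.prod_prod, Measure.prod_prod, measure_univ, one_mul, mul_one]
  exact mul_ne_zero (ww_pos hW) (ww_pos hW)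

end

/-! ### the pathwise identity -/

/-- in any two-sided path which contains the marked piece, the marker shows where zero is -/
lemma exists_window (A M B : Pth) (hA : ww A ∈ Ioo (0 : ℝ) 1) (s : ℝ) {z : ℝ → ℝ}
    (hz : ∀ t, z t = two (cat (vv A) M A) B (s + t) - two (cat (vv A) M A) B s) :
    ∃ q q' : ℚ, (q : ℝ) ≤ q' ∧ FA z q q' = 1 + beta z (FA z q q') - s := by
  set x := two (cat (vv A) M A) B with hx
  have cx : Continuous x := continuous_two _ _
  have cz : Continuous z := by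
    have e : z = fun t => x (s + t) - x s := funext hz
    rw [e]
    fun_prop
  have hv := (vv A).coe_nonneg
  have hxA : ∀ t, 0 ≤ t → x (t + vv A) = A t + M (vv A) := by
    intro t ht
    simp only [hx, two]
    rw [cat_apply_of_ge _ _ (by linarith), B.of_nonpos (by linarith)]
    ring_nf
  have h1 : FA z (0 + ((vv A : ℝ) - s)) (1 + ((vv A : ℝ) - s)) = FA A 0 1 + ((vv A : ℝ) - s) := by
    refine FA_translate A.continuous cz zero_le_one ((vv A : ℝ) - s) (M (vv A) - x s) fun t ht => ?_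
    rw [hz, show s + (t + ((vv A : ℝ) - s)) = t + vv A by ring, hxA t ht.1]
    ring
  change FA z _ _ = ww A + _ at h1
  obtain ⟨q, hq1, hq2⟩ := exists_rat_btwn (show (0 + ((vv A : ℝ) - s)) < ww A + ((vv A : ℝ) - s) by
    linarith [hA.1])
  obtain ⟨q', hq'1, hq'2⟩ := exists_rat_btwn (show ww A + ((vv A : ℝ) - s) < 1 + ((vv A : ℝ) - s) by
    linarith [hA.2])
  have h2 : FA z q q' = ww A + ((vv A : ℝ) - s) := by
    rw [FA_sub cz hq1.le hq'2.le (by rw [h1]; exact hq2.le) (by rw [h1]; exact hq'1.le), h1]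
  refine ⟨q, q', (hq2.trans hq'1).le, ?_⟩
  rw [h2]
  have h3 : beta z (ww A + ((vv A : ℝ) - s)) = beta A (ww A) := by
    refine beta_congr fun j => ?_
    have hj : (0 : ℝ) ≤ tt j := by positivity
    rw [hz, hz, show s + (ww A + ((vv A : ℝ) - s) + tt j + 1) = (ww A + tt j + 1) + vv A by ring,
      show s + (ww A + ((vv A : ℝ) - s) + tt j) = (ww A + tt j) + vv A by ring,
      hxA _ (by linarith [hA.1]), hxA _ (by linarith [hA.1])]
    ring
  rw [h3, coe_vv]
  ring

/-- the process -/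
noncomputable def XX (t : ℝ) (ω : Om) : ℝ :=
  two (cat (vv ω.2.2.1) ω.2.2.2 ω.2.2.1) (cat (vv ω.1) ω.2.1 ω.1) t

lemma continuous_XX (ω : Om) : Continuous fun t => XX t ω := continuous_two _ _

@[fun_prop] lemma measurable_XX (t : ℝ) : Measurable (XX t) := by
  unfold XX two
  exact ((measurable_apply _).comp (by fun_prop)).add ((measurable_apply _).comp (by fun_prop))

lemma XX_mem_Bad (ω : Om) (hω : ω ∈ EE) (s : ℝ) {f g : Pth}
    (hf : ∀ t, 0 ≤ t → f t = XX (s + t) ω - XX s ω) (hg : ∀ t, 0 ≤ t → g t = XX (s - t) ω - XX s ω) :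
    ∃ q q' r r' : ℚ, (q : ℝ) ≤ q' ∧ (r : ℝ) ≤ r' ∧ (f, g) ∈ Bad q q' r r' := by
  obtain ⟨P, M, F, M'⟩ := ω
  have hP : ww P ∈ Ioo (0 : ℝ) 1 := hω.1
  have hF : ww F ∈ Ioo (0 : ℝ) 1 := hω.2
  have hfg : ∀ t, two f g t = XX (s + t) (P, M, F, M') - XX s (P, M, F, M') := by
    intro t
    unfold two
    rcases le_total 0 t with h | h
    · rw [hf t h, g.of_nonpos (by linarith), add_zero]
    · rw [f.of_nonpos h, hg (-t) (by linarith), zero_add, sub_neg_eq_add]
  have hgf : ∀ t, two g f t = XX (s - t) (P, M, F, M') - XX s (P, M, F, M') := by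
    intro t
    rw [← two_neg f g, hfg]
    ring_nf
  obtain ⟨q, q', hq, h1⟩ := exists_window F M' (cat (vv P) M P) hF s (z := two f g) (fun t => hfg t)
  obtain ⟨r, r', hr, h2⟩ := exists_window P M (cat (vv F) M' F) hP (-s) (z := two g f) (fun t => by
    rw [hgf]
    unfold XX
    rw [← two_neg (cat (vv P) M P) (cat (vv F) M' F), ← two_neg (cat (vv P) M P) (cat (vv F) M' F)]
    congr 2
    ring)
  refine ⟨q, q', r, r', hq, hr, ?_⟩
  change FA (two f g) q q' + FA (two g f) r r' = 2 + beta (two f g) (FA (two f g) q q') +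
    beta (two g f) (FA (two g f) r r')
  linarith

section
variable {W : Measure Pth} (hW : IsW W) {Ω : Type*} [MeasurableSpace Ω] {μ : Measure Ω}

/-- a continuous function as a path -/
def mkPth (x : ℝ → ℝ) (hx : Continuous x) : Pth :=
  ⟨fun t => x (max t 0) - x 0, by fun_prop, fun t ht => by rw [max_eq_right ht, sub_self]⟩

lemma mkPth_apply (x : ℝ → ℝ) (hx : Continuous x) {t : ℝ} (ht : 0 ≤ t) :
    mkPth x hx t = x t - x 0 := by
  change x (max t 0) - x 0 = _
  rw [max_eq_left ht]

/-- independence of the path-valued variables follows from independence of the processes -/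
lemma indep_paths {f g : Ω → Pth}
    (h : IndepFun (fun ω (t : ℝ≥0) => f ω t) (fun ω (t : ℝ≥0) => g ω t) μ) : IndepFun f g μ := by
  have m2 : Measurable (fun (g : ℝ≥0 → ℝ) (t : ℝ) => g t.toNNReal) :=
    measurable_pi_iff.2 fun t => measurable_pi_apply _
  have h' := h.comp m2 m2
  have e : ∀ f : Ω → Pth, Pth.toFun ∘ f = (fun (g : ℝ≥0 → ℝ) (t : ℝ) => g t.toNNReal) ∘
      (fun ω (t : ℝ≥0) => f ω t) := by
    intro f
    funext ω t
    simp only [Function.comp_apply]
    rcases le_total 0 t with ht | ht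
    · rw [Real.coe_toNNReal _ ht]
    · rw [Real.toNNReal_of_nonpos ht, (f ω).of_nonpos ht, NNReal.coe_zero, (f ω).zero]
  rw [← e, ← e] at h'
  rw [IndepFun_iff_Indep] at h' ⊢
  simp only [← MeasurableSpace.comap_comp] at h'
  exact h'

include hW

/-- **No random time makes the process a two-sided Brownian motion.** -/
theorem not_two {pr : Ω → Om} (hpr : MeasurePreserving pr μ (mu0 W)) (S : Ω → ℝ) (hS : Measurable S)
    (h1 : IsPreBrownianReal (fun (t : ℝ≥0) ω => XX (S ω + t) (pr ω) - XX (S ω) (pr ω)) μ)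
    (h2 : IsPreBrownianReal (fun (t : ℝ≥0) ω => XX (S ω - t) (pr ω) - XX (S ω) (pr ω)) μ)
    (h3 : IndepFun (fun ω (t : ℝ≥0) => XX (S ω + t) (pr ω) - XX (S ω) (pr ω))
      (fun ω (t : ℝ≥0) => XX (S ω - t) (pr ω) - XX (S ω) (pr ω)) μ) : False := by
  have := hW.prob
  have mX : ∀ {τ : Ω → ℝ}, Measurable τ → Measurable fun ω => XX (τ ω) (pr ω) := by
    intro τ hτ
    exact measurable_eval_of_cont (Z := fun ω t => XX t (pr ω)) (fun ω => continuous_XX _)
      (fun t => (measurable_XX t).comp hpr.measurable) hτ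
  let f : Ω → Pth := fun ω => mkPth (fun t => XX (S ω + t) (pr ω)) (by
    have := continuous_XX (pr ω)
    fun_prop)
  let g : Ω → Pth := fun ω => mkPth (fun t => XX (S ω - t) (pr ω)) (by
    have := continuous_XX (pr ω)
    fun_prop)
  have hf : ∀ ω t, 0 ≤ t → f ω t = XX (S ω + t) (pr ω) - XX (S ω) (pr ω) := by
    intro ω t ht
    have := mkPth_apply (fun t => XX (S ω + t) (pr ω)) (by
      have := continuous_XX (pr ω)
      fun_prop) ht
    rw [add_zero] at this
    exact this
  have hg : ∀ ω t, 0 ≤ t → g ω t = XX (S ω - t) (pr ω) - XX (S ω) (pr ω) := by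
    intro ω t ht
    have := mkPth_apply (fun t => XX (S ω - t) (pr ω)) (by
      have := continuous_XX (pr ω)
      fun_prop) ht
    rw [sub_zero] at this
    exact this
  have mf : Measurable f := measurable_of_eval_pos fun t ht => by
    simp only [hf _ t ht]
    exact (mX (hS.add_const t)).sub (mX hS)
  have mg : Measurable g := measurable_of_eval_pos fun t ht => by
    simp only [hg _ t ht]
    exact (mX (hS.sub_const t)).sub (mX hS)
  have lf : μ.map f = W := hW.map_eq mf (by
    simp only [hf _ _ (NNReal.coe_nonneg _)]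
    exact h1)
  have lg : μ.map g = W := hW.map_eq mg (by
    simp only [hg _ _ (NNReal.coe_nonneg _)]
    exact h2)
  have hind : IndepFun f g μ := indep_paths (by
    simp only [hf _ _ (NNReal.coe_nonneg _), hg _ _ (NNReal.coe_nonneg _)]
    exact h3)
  have hprobμ : IsProbabilityMeasure μ := (IsPreBrownianReal.isGaussianProcess h1).isProbabilityMeasure
  have hlaw : μ.map (fun ω => (f ω, g ω)) = W.prod W := by
    rw [(indepFun_iff_map_prod_eq_prod_map_map mf.aemeasurable mg.aemeasurable).1 hind, lf, lg]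
  have hnull : μ (⋃ q : ℚ, ⋃ q' : ℚ, ⋃ r : ℚ, ⋃ r' : ℚ, {ω | (q : ℝ) ≤ q' ∧ (r : ℝ) ≤ r' ∧
      (f ω, g ω) ∈ Bad q q' r r'}) = 0 := by
    refine measure_iUnion_null fun q => measure_iUnion_null fun q' => measure_iUnion_null fun r =>
      measure_iUnion_null fun r' => ?_
    by_cases hqr : (q : ℝ) ≤ q' ∧ (r : ℝ) ≤ r'
    · have h4 := null_Bad hW hqr.1 hqr.2
      rw [← hlaw, Measure.map_apply (mf.prodMk mg) (measurableSet_Bad hqr.1 hqr.2)] at h4
      exact measure_mono_null (fun ω hω => hω.2.2) h4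
    · have : {ω | (q : ℝ) ≤ q' ∧ (r : ℝ) ≤ r' ∧ (f ω, g ω) ∈ Bad q q' r r'} = ∅ := by
        ext ω
        simp only [mem_ofPred_eq, mem_empty_iff_false, iff_false]
        exact fun h => hqr ⟨h.1, h.2.1⟩
      rw [this, measure_empty]
  have hsub : pr ⁻¹' EE ⊆ ⋃ q : ℚ, ⋃ q' : ℚ, ⋃ r : ℚ, ⋃ r' : ℚ, {ω | (q : ℝ) ≤ q' ∧ (r : ℝ) ≤ r' ∧
      (f ω, g ω) ∈ Bad q q' r r'} := by
    intro ω hω
    obtain ⟨q, q', r, r', hh⟩ := XX_mem_Bad (pr ω) hω (S ω) (hf ω) (hg ω)
    simp only [mem_iUnion]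
    exact ⟨q, q', r, r', hh⟩
  have h5 := measure_mono_null hsub hnull
  have mE : MeasurableSet EE := by
    refine MeasurableSet.inter ?_ ?_
    · exact (measurable_ww.comp measurable_fst) measurableSet_Ioo
    · exact (measurable_ww.comp (measurable_fst.comp (measurable_snd.comp measurable_snd)))
        measurableSet_Ioo
  rw [← Measure.map_apply hpr.measurable mE, hpr.map_eq] at h5
  exact EE_pos hW h5

end

end Pool.Agent.H4.BM
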