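import Mathlib
import Pool.Agent.H4.BM.Filling

open MeasureTheory ProbabilityTheory Set Filter Topology
open scoped NNReal ENNReal Real

namespace Pool.Agent.H4.BM

open Pth

section
variable {W : Measure Pth} (hW : IsW W)
include hW

/-- the first stage -/
lemma exists_first (N0 : ℕ) : ∃ s : St W, s.φ = (fun _ => 1) ∧ s.r = fun _ => 1 := by
  have := hW.prob
  have := mu0_prob hW
  exact ⟨⟨N0, fun _ => 1, fun _ => 1, measurable_const, fun _ => zero_le_one, fun _ => le_rfl,
    measurable_const, fun _ => zero_le_one, fun _ => le_rfl, by simp⟩, rfl, rfl⟩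

lemma exists_stages (N0 : ℕ) : ∃ (s : ℕ → St W) (α : ℕ → Pth → ℝ), (s 0).φ = (fun _ => 1) ∧
    (s 0).r = (fun _ => 1) ∧ ∀ i, N0 ≤ (s (i + 1)).k ∧ Measurable (α i) ∧ (∀ A, 0 ≤ α i A) ∧
      (∀ A, α i A ≤ 1) ∧
      (∀ ω, (s (i + 1)).φ (Y (tt ((s (i + 1)).k + 1) : ℕ) ω) = (s i).φ (Y (tt ((s i).k + 1) : ℕ) ω) *
        (1 - (1 / nn (s (i + 1)).k : ℝ) * ∑ j ∈ Finset.range (nn (s (i + 1)).k),
          α i (Y (nn (s (i + 1)).k + j : ℕ) ω))) ∧
      (∀ G : Pth → ℝ, Measurable G → (∀ A, |G A| ≤ 1) →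
        (1 / nn (s (i + 1)).k : ℝ) * ∑ j ∈ Finset.range (nn (s (i + 1)).k),
          ∫ ω, (s i).φ (Y (tt ((s i).k + 1) : ℕ) ω) *
            (α i (Y (nn (s (i + 1)).k + j : ℕ) ω) * G (Y (nn (s (i + 1)).k + j : ℕ) ω)) ∂(mu0 W)
          = ∫ A, ((s i).r A - (s (i + 1)).r A) * G A ∂W) ∧
      (∀ A, (s (i + 1)).r A ≤ (s i).r A) ∧
      ∫ A, (s (i + 1)).r A ∂W ≤ ∫ A, (s i).r A ∂W - (∫ A, (s i).r A ∂W) ^ 2 + (1 / 2) ^ i := by
  obtain ⟨s0, h0, h0'⟩ := exists_first hW N0
  have hst := fun (s : St W) (i : ℕ) => step hW s N0 (δ := (1 / 2) ^ i) (by positivity)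
  choose nxt al h using hst
  let s : ℕ → St W := fun i => Nat.rec s0 (fun i s => nxt s i) i
  refine ⟨s, fun i => al (s i) i, h0, h0', fun i => ?_⟩
  obtain ⟨h1, -, h3, h4, h5, h6, h7, h8, h9⟩ := h (s i) i
  exact ⟨h1, h3, h4, h5, h6, h7, h8, h9⟩

lemma mass_tendsto {s : ℕ → St W} (h1 : ∀ i A, (s (i + 1)).r A ≤ (s i).r A)
    (h2 : ∀ i, ∫ A, (s (i + 1)).r A ∂W ≤
      ∫ A, (s i).r A ∂W - (∫ A, (s i).r A ∂W) ^ 2 + (1 / 2) ^ i) :
    Tendsto (fun i => ∫ A, (s i).r A ∂W) atTop (𝓝 0) := by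
  have := hW.prob
  have ir : ∀ i, Integrable (s i).r W := fun i => integrable_of_bdd (s i).mr (K := 1) fun A => by
    rw [abs_of_nonneg ((s i).r0 A)]; exact (s i).r1 A
  set m : ℕ → ℝ := fun i => ∫ A, (s i).r A ∂W with hm
  have hanti : Antitone m := antitone_nat_of_succ_le fun i => integral_mono (ir _) (ir _) (h1 i)
  have hbdd : BddBelow (range m) := ⟨0, by
    rintro _ ⟨i, rfl⟩
    exact integral_nonneg (s i).r0⟩
  have hlim := tendsto_atTop_ciInf hanti hbdd
  set L := ⨅ i, m i with hL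
  have hL1 : Tendsto (fun i => m (i + 1)) atTop (𝓝 L) := (tendsto_add_atTop_iff_nat 1).2 hlim
  have hL2 : Tendsto (fun i => m i - m i ^ 2 + (1 / 2) ^ i) atTop (𝓝 (L - L ^ 2 + 0)) :=
    (hlim.sub (hlim.pow 2)).add (tendsto_pow_atTop_nhds_zero_of_lt_one (by norm_num) (by norm_num))
  have hle := le_of_tendsto_of_tendsto' hL1 hL2 h2
  have : L = 0 := by
    have : L ^ 2 ≤ 0 := by linarith
    exact pow_eq_zero_iff (two_ne_zero) |>.1 (le_antisymm this (sq_nonneg L))
  rw [this] at hlim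
  exact hlim

/-- **Weights**: a randomised choice of a time far in the past from which the process looks like a
Brownian motion. -/
theorem exists_weights (N0 : ℕ) : ∃ (p : ℕ → Om → ℝ≥0∞) (τ : ℕ → ℕ), (∀ l, Measurable (p l)) ∧
    (∀ l, N0 ≤ τ l) ∧ (∀ ω, ∑' l, p l ω ≤ 1) ∧
    ∀ S : Set Pth, MeasurableSet S →
      ∑' l, ∫⁻ ω, p l ω * S.indicator 1 (Y (τ l : ℕ) ω) ∂(mu0 W) = W S := by
  have := hW.prob
  have := mu0_prob hW
  obtain ⟨s, α, hφ0, hr0, h⟩ := exists_stages hW N0
  have hN : ∀ i, N0 ≤ nn (s (i + 1)).k := fun i => (h i).1.trans (lt_nn _).le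
  have mα : ∀ i, Measurable (α i) := fun i => (h i).2.1
  have α0 : ∀ i A, 0 ≤ α i A := fun i => (h i).2.2.1
  have α1 : ∀ i A, α i A ≤ 1 := fun i => (h i).2.2.2.1
  have hφ : ∀ i ω, (s (i + 1)).φ (Y (tt ((s (i + 1)).k + 1) : ℕ) ω) =
      (s i).φ (Y (tt ((s i).k + 1) : ℕ) ω) *
        (1 - (1 / nn (s (i + 1)).k : ℝ) * ∑ j ∈ Finset.range (nn (s (i + 1)).k),
          α i (Y (nn (s (i + 1)).k + j : ℕ) ω)) := fun i => (h i).2.2.2.2.1
  have hid := fun i => (h i).2.2.2.2.2.1
  have hmass := mass_tendsto hW (fun i => (h i).2.2.2.2.2.2.1) (fun i => (h i).2.2.2.2.2.2.2)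
  -- real weights
  set n : ℕ → ℕ := fun i => nn (s (i + 1)).k with hn
  set f : ℕ → Om → ℝ := fun i ω => (s i).φ (Y (tt ((s i).k + 1) : ℕ) ω) with hf
  have mf : ∀ i, Measurable (f i) := fun i => (s i).mφ.comp (measurable_Y _)
  have f0 : ∀ i ω, 0 ≤ f i ω := fun i ω => (s i).φ0 _
  have f1 : ∀ i ω, f i ω ≤ 1 := fun i ω => (s i).φ1 _
  set qr : ℕ → ℕ → Om → ℝ := fun i j ω => f i ω * ((1 / n i : ℝ) * α i (Y (n i + j : ℕ) ω)) with hqr
  have mqr : ∀ i j, Measurable (qr i j) := fun i j =>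
    (mf i).mul (measurable_const.mul ((mα i).comp (measurable_Y _)))
  have qr0 : ∀ i j ω, 0 ≤ qr i j ω := fun i j ω => by
    have h1 := f0 i ω
    have h2 := α0 i (Y (n i + j : ℕ) ω)
    simp only [hqr]
    positivity
  have hsumq : ∀ i ω, ∑ j ∈ Finset.range (n i), qr i j ω = f i ω - f (i + 1) ω := by
    intro i ω
    simp only [hqr, ← Finset.mul_sum]
    have := hφ i ω
    simp only [hf]
    rw [this]
    ring
  set q : ℕ → ℕ → Om → ℝ≥0∞ := fun i j ω => if j < n i then ENNReal.ofReal (qr i j ω) else 0 with hq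
  have mq : ∀ i j, Measurable (q i j) := by
    intro i j
    simp only [hq]
    split_ifs
    · exact (mqr i j).ennreal_ofReal
    · exact measurable_const
  have htsum : ∀ (F : ℕ → ℕ → ℝ≥0∞), ∑' l, F (Nat.unpair l).1 (Nat.unpair l).2 = ∑' i, ∑' j, F i j := by
    intro F
    rw [← ENNReal.tsum_prod]
    exact Nat.pairEquiv.symm.tsum_eq (fun x : ℕ × ℕ => F x.1 x.2)
  refine ⟨fun l => q (Nat.unpair l).1 (Nat.unpair l).2, fun l => n (Nat.unpair l).1 + (Nat.unpair l).2,
    fun l => mq _ _, fun l => (hN _).trans (Nat.le_add_right _ _), fun ω => ?_, fun S hS => ?_⟩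
  · rw [htsum (fun i j => q i j ω)]
    refine ENNReal.tsum_le_of_sum_range_le fun I => ?_
    have e1 : ∀ i, ∑' j, q i j ω = ENNReal.ofReal (f i ω - f (i + 1) ω) := by
      intro i
      rw [tsum_eq_sum (s := Finset.range (n i)) (fun j hj => by
        rw [Finset.mem_range] at hj
        simp only [hq, if_neg hj])]
      rw [← hsumq, ENNReal.ofReal_sum_of_nonneg fun j _ => qr0 i j ω]
      refine Finset.sum_congr rfl fun j hj => ?_
      rw [Finset.mem_range] at hj
      simp only [hq, if_pos hj]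
    simp only [e1]
    rw [← ENNReal.ofReal_sum_of_nonneg]
    · rw [Finset.sum_range_sub']
      have h1 := f0 I ω
      have h2 : f 0 ω = 1 := by simp only [hf, hφ0]
      rw [h2, ← ENNReal.ofReal_one]
      exact ENNReal.ofReal_le_ofReal (by linarith)
    · intro i _
      rw [← hsumq]
      exact Finset.sum_nonneg fun j _ => qr0 i j ω
  · rw [htsum (fun i j => ∫⁻ ω, q i j ω * S.indicator 1 (Y (n i + j : ℕ) ω) ∂(mu0 W))]
    set g : Pth → ℝ := S.indicator 1 with hg
    have mg : Measurable g := measurable_one.indicator hS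
    have gb : ∀ A, |g A| ≤ 1 := by
      intro A
      by_cases hA : A ∈ S
      · rw [hg, indicator_of_mem hA]; simp
      · rw [hg, indicator_of_notMem hA]; simp
    have g0 : ∀ A, 0 ≤ g A := fun A => indicator_nonneg (fun _ _ => zero_le_one) A
    have ir : ∀ i, Integrable (s i).r W := fun i => integrable_of_bdd (s i).mr (K := 1) fun A => by
      rw [abs_of_nonneg ((s i).r0 A)]; exact (s i).r1 A
    have irg : ∀ i, Integrable (fun A => (s i).r A * g A) W := fun i =>
      integrable_of_bdd ((s i).mr.mul mg) (K := 1) fun A => by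
        rw [abs_mul]
        refine mul_le_one₀ ?_ (abs_nonneg _) (gb A)
        rw [abs_of_nonneg ((s i).r0 A)]; exact (s i).r1 A
    have e1 : ∀ i, ∑' j, ∫⁻ ω, q i j ω * S.indicator 1 (Y (n i + j : ℕ) ω) ∂(mu0 W) =
        ENNReal.ofReal (∫ A, (s i).r A * g A ∂W - ∫ A, (s (i + 1)).r A * g A ∂W) := by
      intro i
      rw [tsum_eq_sum (s := Finset.range (n i)) (fun j hj => by
        rw [Finset.mem_range] at hj
        simp only [hq, if_neg hj, zero_mul, lintegral_zero])]
      have e2 : ∀ j ∈ Finset.range (n i), ∫⁻ ω, q i j ω * S.indicator 1 (Y (n i + j : ℕ) ω) ∂(mu0 W) =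
          ENNReal.ofReal (∫ ω, qr i j ω * g (Y (n i + j : ℕ) ω) ∂(mu0 W)) := by
        intro j hj
        rw [Finset.mem_range] at hj
        rw [ofReal_integral_eq_lintegral_ofReal]
        · refine lintegral_congr fun ω => ?_
          simp only [hq, if_pos hj]
          rw [ENNReal.ofReal_mul (qr0 i j ω)]
          congr 1
          by_cases hA : Y (n i + j : ℕ) ω ∈ S
          · rw [hg, indicator_of_mem hA, indicator_of_mem hA]; simp
          · rw [hg, indicator_of_notMem hA, indicator_of_notMem hA]; simp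
        · refine integrable_of_bdd ((mqr i j).mul (mg.comp (measurable_Y _)))
            (K := 1 * ((1 / n i) * 1) * 1) fun ω => ?_
          simp only [hqr]
          rw [abs_mul, abs_mul, abs_mul, abs_of_nonneg (f0 i ω), abs_of_nonneg (α0 i _),
            abs_of_nonneg (by positivity : (0 : ℝ) ≤ 1 / n i)]
          have := f0 i ω
          have := α0 i (Y (n i + j : ℕ) ω)
          refine mul_le_mul (mul_le_mul (f1 i ω) ?_ (by positivity) zero_le_one) (gb _)
            (abs_nonneg _) (by positivity)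
          exact mul_le_mul_of_nonneg_left (α1 i _) (by positivity)
        · exact Eventually.of_forall fun ω => mul_nonneg (qr0 i j ω) (g0 _)
      rw [Finset.sum_congr rfl e2, ← ENNReal.ofReal_sum_of_nonneg]
      · congr 1
        rw [← integral_sub (irg i) (irg (i + 1))]
        have h3 := hid i g mg gb
        have e4 : ∀ A, ((s i).r A - (s (i + 1)).r A) * g A = (s i).r A * g A - (s (i + 1)).r A * g A :=
          fun A => by ring
        simp only [e4] at h3
        rw [← h3, Finset.mul_sum]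
        refine Finset.sum_congr rfl fun j _ => ?_
        rw [← integral_const_mul]
        refine integral_congr_ae (Eventually.of_forall fun ω => ?_)
        simp only [hqr, hf]
        ring
      · intro j _
        exact integral_nonneg fun ω => mul_nonneg (qr0 i j ω) (g0 _)
    simp only [e1]
    refine tendsto_nhds_unique (ENNReal.tendsto_nat_tsum _) ?_
    have e3 : ∀ I, ∑ i ∈ Finset.range I, ENNReal.ofReal
        (∫ A, (s i).r A * g A ∂W - ∫ A, (s (i + 1)).r A * g A ∂W) =
          ENNReal.ofReal (W.real S - ∫ A, (s I).r A * g A ∂W) := by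
      intro I
      rw [← ENNReal.ofReal_sum_of_nonneg, Finset.sum_range_sub']
      · congr 2
        simp only [hr0, one_mul]
        rw [hg, integral_indicator_one hS]
      · intro i _
        rw [sub_nonneg]
        exact integral_mono (irg _) (irg _) fun A =>
          mul_le_mul_of_nonneg_right ((h i).2.2.2.2.2.2.1 A) (g0 A)
    have e4 : Tendsto (fun I => ∫ A, (s I).r A * g A ∂W) atTop (𝓝 0) := by
      refine squeeze_zero (fun I => integral_nonneg fun A => mul_nonneg ((s I).r0 A) (g0 A))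
        (fun I => ?_) hmass
      refine integral_mono (irg I) (ir I) fun A => ?_
      have h1 := gb A
      rw [abs_of_nonneg (g0 A)] at h1
      exact mul_le_of_le_one_right ((s I).r0 A) h1
    have e5 := (ENNReal.continuous_ofReal.tendsto (W.real S - 0)).comp (e4.const_sub (W.real S))
    rw [sub_zero] at e5
    have e6 : ENNReal.ofReal (W.real S) = W S := ofReal_measureReal
    rw [e6] at e5
    refine e5.congr fun I => ?_
    exact (e3 I).symm

end

end Pool.Agent.H4.BM
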