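import Mathlib
import Pool.Agent.H4.BM.Weights
import Pool.Agent.H4.BM.NotTwo

open MeasureTheory ProbabilityTheory Set Filter Topology
open scoped NNReal ENNReal

namespace Pool.Agent.H4.BM

open Pth

/-- the uniform law on the unit interval -/
noncomputable def unif : Measure ℝ := volume.restrict (Ico (0 : ℝ) 1)

instance : IsProbabilityMeasure unif := ⟨by
  unfold unif
  rw [Measure.restrict_apply_univ, Real.volume_Ico]
  norm_num⟩

/-- the probability of an interval with `ENNReal` end points -/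
lemma unif_interval {a b : ℝ≥0∞} (hab : a ≤ b) (hb : b ≤ 1) :
    unif {z : ℝ | a ≤ ENNReal.ofReal z ∧ ENNReal.ofReal z < b} = b - a := by
  have hb' : b ≠ ∞ := ne_top_of_le_ne_top ENNReal.one_ne_top hb
  have ha' : a ≠ ∞ := ne_top_of_le_ne_top hb' hab
  have hm : MeasurableSet {z : ℝ | a ≤ ENNReal.ofReal z ∧ ENNReal.ofReal z < b} :=
    (measurableSet_le measurable_const ENNReal.measurable_ofReal).inter
      (measurableSet_lt ENNReal.measurable_ofReal measurable_const)
  have hb1 : b.toReal ≤ 1 := by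
    have := ENNReal.toReal_mono ENNReal.one_ne_top hb
    simpa using this
  unfold unif
  rw [Measure.restrict_apply hm]
  have e : {z : ℝ | a ≤ ENNReal.ofReal z ∧ ENNReal.ofReal z < b} ∩ Ico 0 1 =
      Ico a.toReal b.toReal := by
    ext z
    simp only [mem_inter_iff, mem_ofPred_eq, mem_Ico]
    constructor
    · rintro ⟨⟨h1, h2⟩, h3, h4⟩
      exact ⟨ENNReal.toReal_le_of_le_ofReal h3 h1, (ENNReal.ofReal_lt_iff_lt_toReal h3 hb').1 h2⟩
    · rintro ⟨h1, h2⟩
      have h0 : 0 ≤ z := ENNReal.toReal_nonneg.trans h1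
      exact ⟨⟨(ENNReal.le_ofReal_iff_toReal_le ha' h0).2 h1,
        (ENNReal.ofReal_lt_iff_lt_toReal h0 hb').2 h2⟩, h0, h2.trans_le hb1⟩
  rw [e, Real.volume_Ico, ENNReal.ofReal_sub _ ENNReal.toReal_nonneg, ENNReal.ofReal_toReal hb',
    ENNReal.ofReal_toReal ha']

section
variable {W : Measure Pth} (hW : IsW W)
include hW

/-- a random time far in the past from which the process is a Brownian motion -/
theorem exists_time (N0 : ℕ) : ∃ T : Om × ℝ → ℝ≥0, Measurable T ∧ (∀ x, (N0 : ℝ≥0) ≤ T x) ∧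
    ((mu0 W).prod unif).map (fun x => Y (T x) x.1) = W := by
  have := hW.prob
  have := mu0_prob hW
  obtain ⟨p, τ, mp, hτ, hsum, hlaw⟩ := exists_weights hW N0
  set c : ℕ → Om → ℝ≥0∞ := fun l ω => ∑ i ∈ Finset.range l, p i ω with hc
  have mc : ∀ l, Measurable (c l) := fun l => Finset.measurable_sum _ fun i _ => mp i
  have c1 : ∀ l ω, c l ω ≤ 1 := fun l ω => (ENNReal.sum_le_tsum _).trans (hsum ω)
  have cmono : ∀ ω, Monotone fun l => c l ω := fun ω => monotone_nat_of_le_succ fun l => by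
    simp only [hc, Finset.sum_range_succ]
    exact le_self_add
  have csucc : ∀ l ω, c (l + 1) ω - c l ω = p l ω := by
    intro l ω
    simp only [hc, Finset.sum_range_succ]
    exact ENNReal.add_sub_cancel_left (ne_top_of_le_ne_top ENNReal.one_ne_top (c1 l ω))
  set E : ℕ → Set (Om × ℝ) := fun l => {x | c l x.1 ≤ ENNReal.ofReal x.2 ∧ ENNReal.ofReal x.2 < c (l + 1) x.1}
    with hE
  have mE : ∀ l, MeasurableSet (E l) := fun l =>
    (measurableSet_le ((mc l).comp measurable_fst) (ENNReal.measurable_ofReal.comp measurable_snd)).inter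
      (measurableSet_lt (ENNReal.measurable_ofReal.comp measurable_snd) ((mc _).comp measurable_fst))
  have hdisj : Pairwise fun i j => Disjoint (E i) (E j) := by
    have key : ∀ i j, i < j → Disjoint (E i) (E j) := by
      intro i j hij
      rw [Set.disjoint_left]
      intro x hi hj
      have h1 : c (i + 1) x.1 ≤ c j x.1 := cmono x.1 (by omega)
      exact absurd (h1.trans hj.1) (not_le.2 hi.2)
    intro i j hij
    rcases lt_or_gt_of_ne hij with h | h
    · exact key i j h
    · exact (key j i h).symm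
  obtain ⟨T0, mT0, hT0⟩ := exists_measurable_piecewise E mE (fun l _ => (τ l : ℝ≥0))
    (fun l => measurable_const) (fun i j hij => by
      intro x hx
      exact absurd hx.2 (Set.disjoint_left.1 (hdisj hij) hx.1))
  have hT : ∀ l, ∀ x ∈ E l, max (T0 x) (N0 : ℝ≥0) = τ l := by
    intro l x hx
    rw [hT0 l hx]
    change max (τ l : ℝ≥0) (N0 : ℝ≥0) = τ l
    exact max_eq_left (by exact_mod_cast hτ l)
  refine ⟨fun x => max (T0 x) (N0 : ℝ≥0), mT0.max measurable_const, fun x => le_max_right _ _, ?_⟩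
  have mY : Measurable fun x : Om × ℝ => Y (max (T0 x) (N0 : ℝ≥0)) x.1 := by
    unfold Y
    have h1 : Measurable fun x : Om × ℝ => max (T0 x) (N0 : ℝ≥0) := mT0.max measurable_const
    fun_prop
  have : IsProbabilityMeasure (((mu0 W).prod unif).map fun x => Y (max (T0 x) (N0 : ℝ≥0)) x.1) :=
    Measure.isProbabilityMeasure_map mY.aemeasurable
  symm
  refine Measure.eq_of_le_of_isProbabilityMeasure (Measure.le_iff.2 fun S hS => ?_)
  rw [← hlaw S hS, Measure.map_apply mY hS]
  have h1 : ∀ l, ∫⁻ ω, p l ω * S.indicator 1 (Y (τ l : ℕ) ω) ∂(mu0 W) =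
      ((mu0 W).prod unif) (E l ∩ (fun x : Om × ℝ => Y (max (T0 x) (N0 : ℝ≥0)) x.1) ⁻¹' S) := by
    intro l
    rw [Measure.prod_apply ((mE l).inter (mY hS))]
    refine lintegral_congr fun ω => ?_
    by_cases hω : Y (τ l : ℕ) ω ∈ S
    · rw [indicator_of_mem hω, Pi.one_apply, mul_one, ← csucc l ω,
        ← unif_interval (cmono ω (Nat.le_succ l)) (c1 _ ω)]
      congr 1
      ext z
      simp only [mem_preimage, mem_inter_iff, mem_ofPred_eq]
      constructor
      · intro hz
        have hz' : (ω, z) ∈ E l := hz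
        refine ⟨hz', ?_⟩
        rw [hT l _ hz']
        exact hω
      · exact fun hz => hz.1
    · rw [indicator_of_notMem hω, mul_zero]
      have e : Prod.mk ω ⁻¹' (E l ∩ (fun x : Om × ℝ => Y (max (T0 x) (N0 : ℝ≥0)) x.1) ⁻¹' S) = ∅ := by
        ext z
        simp only [mem_preimage, mem_inter_iff, mem_empty_iff_false, iff_false, not_and]
        intro hz
        rw [hT l _ hz]
        exact hω
      rw [e, measure_empty]
  simp only [h1]
  rw [← measure_iUnion]
  · exact measure_mono (iUnion_subset fun l => inter_subset_right)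
  · intro i j hij
    exact (hdisj hij).mono inter_subset_left inter_subset_left
  · exact fun l => (mE l).inter (mY hS)

/-- the exchange of the two sides -/
def swp (ω : Om) : Om := (ω.2.2.1, ω.2.2.2, ω.1, ω.2.1)

omit hW in
@[fun_prop] lemma measurable_swp : Measurable swp := by
  unfold swp
  fun_prop

lemma measurePreserving_swp : MeasurePreserving swp (mu0 W) (mu0 W) := by
  have := hW.prob
  have h1 := measurePreserving_prodAssoc W W (W.prod W)
  have h2 := h1.symm
  exact (h1.comp (Measure.measurePreserving_swap (μ := W.prod W) (ν := W.prod W))).comp h2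

omit hW in
lemma XX_swp (t : ℝ) (ω : Om) : XX (-t) ω = XX t (swp ω) := by
  unfold XX swp
  exact two_neg _ _ _

omit hW in
lemma Y_apply (m : ℝ≥0) (ω : Om) {t : ℝ} (ht : 0 ≤ t) :
    Y m ω t = XX (-((vv ω.1 : ℝ) + m) + t) ω - XX (-((vv ω.1 : ℝ) + m)) ω := by
  have h1 := (vv ω.1).coe_nonneg
  have h2 := m.coe_nonneg
  unfold Y XX two
  rw [glue_apply, max_eq_left ht, Pth.of_nonpos (cat (vv ω.2.2.1) _ _) (by linarith : -((vv ω.1 : ℝ) + m) ≤ 0)]
  push_cast
  ring_nf

/-- the basic measure -/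
noncomputable def muX (W : Measure Pth) : Measure (Om × ℝ) := (mu0 W).prod unif

lemma muX_prob : IsProbabilityMeasure (muX W) := by
  have := mu0_prob hW
  unfold muX
  infer_instance

/-- times far in the past -/
theorem exists_past (N0 : ℕ) : ∃ S : Om × ℝ → ℝ, Measurable S ∧ (∀ x, S x ≤ -N0) ∧
    IsBrownianReal (fun (t : ℝ≥0) x => XX (S x + t) x.1 - XX (S x) x.1) (muX W) := by
  obtain ⟨T, mT, hT, hlaw⟩ := exists_time hW N0
  refine ⟨fun x => -((vv x.1.1 : ℝ) + T x), by fun_prop, fun x => ?_, ?_⟩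
  · have h1 := (vv x.1.1).coe_nonneg
    have h2 : (N0 : ℝ) ≤ T x := by exact_mod_cast hT x
    linarith
  · have mY : Measurable fun x : Om × ℝ => Y (T x) x.1 := by
      unfold Y
      fun_prop
    have h := isBrownian_of_map_eq hW mY hlaw
    have e : (fun (t : ℝ≥0) (x : Om × ℝ) => XX (-((vv x.1.1 : ℝ) + T x) + t) x.1 -
        XX (-((vv x.1.1 : ℝ) + T x)) x.1) = fun (t : ℝ≥0) (x : Om × ℝ) => Y (T x) x.1 t := by
      funext t x
      rw [Y_apply _ _ t.coe_nonneg]
    rw [e]
    exact h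

/-- the same for the reversed process -/
theorem exists_future (N0 : ℕ) : ∃ S : Om × ℝ → ℝ, Measurable S ∧ (∀ x, S x ≤ -N0) ∧
    IsBrownianReal (fun (t : ℝ≥0) x => XX (-(S x + t)) x.1 - XX (-(S x)) x.1) (muX W) := by
  obtain ⟨T, mT, hT, hlaw⟩ := exists_time hW N0
  have mm : MeasurePreserving (Prod.map swp id) (muX W) (muX W) := by
    have := mu0_prob hW
    exact (measurePreserving_swp hW).prod (MeasurePreserving.id unif)
  have mY : Measurable fun x : Om × ℝ => Y (T x) x.1 := by
    unfold Y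
    fun_prop
  have msw := measurable_swp
  refine ⟨fun x => -((vv (swp x.1).1 : ℝ) + T (swp x.1, x.2)), ?_, fun x => ?_, ?_⟩
  · have h2 : Measurable fun x : Om × ℝ => (swp x.1, x.2) := by fun_prop
    have h3 : Measurable fun x : Om × ℝ => T (swp x.1, x.2) := mT.comp h2
    have h4 : Measurable fun x : Om × ℝ => vv (swp x.1).1 :=
      measurable_vv.comp (measurable_fst.comp (msw.comp measurable_fst))
    fun_prop
  · have h1 := (vv (swp x.1).1).coe_nonneg
    have h2 : (N0 : ℝ) ≤ T (swp x.1, x.2) := by exact_mod_cast hT _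
    linarith
  · have hlaw' : (muX W).map (fun x => Y (T (swp x.1, x.2)) (swp x.1)) = W := by
      have h5 := Measure.map_map (μ := muX W) mY mm.measurable
      rw [mm.map_eq] at h5
      exact h5.symm.trans hlaw
    have h := isBrownian_of_map_eq hW (mY.comp mm.measurable) hlaw'
    have e : (fun (t : ℝ≥0) (x : Om × ℝ) => XX (-(-((vv (swp x.1).1 : ℝ) + T (swp x.1, x.2)) + t)) x.1 -
        XX (-(-((vv (swp x.1).1 : ℝ) + T (swp x.1, x.2)))) x.1) =
          fun (t : ℝ≥0) (x : Om × ℝ) => Y (T (swp x.1, x.2)) (swp x.1) t := by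
      funext t x
      rw [Y_apply _ _ t.coe_nonneg, XX_swp, XX_swp]
    rw [e]
    exact h

/-- the two halves at time zero are independent -/
theorem indep_halves : IndepFun (fun (x : Om × ℝ) (t : ℝ≥0) => XX (0 + t) x.1 - XX 0 x.1)
    (fun (x : Om × ℝ) (t : ℝ≥0) => XX (0 - t) x.1 - XX 0 x.1) (muX W) := by
  have := hW.prob
  have := mu0_prob hW
  have hπ : MeasurePreserving (fun x : Om × ℝ => ((x.1.1, x.1.2.1), (x.1.2.2.1, x.1.2.2.2))) (muX W)
      ((W.prod W).prod (W.prod W)) := by
    have h1 := (measurePreserving_prodAssoc W W (W.prod W)).symm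
    exact h1.comp measurePreserving_fst
  let f : Pth × Pth → ℝ≥0 → ℝ := fun y t => cat (vv y.1) y.2 y.1 t
  have mf : Measurable f := by
    refine measurable_pi_iff.2 fun t => ?_
    exact (measurable_apply _).comp (measurable_cat (measurable_vv.comp measurable_fst) measurable_snd
      measurable_fst)
  have hind : IndepFun (fun y : (Pth × Pth) × (Pth × Pth) => f y.2) (fun y => f y.1)
      ((W.prod W).prod (W.prod W)) := (indepFun_prod mf mf).symm
  rw [indepFun_iff_measure_inter_preimage_eq_mul] at hind ⊢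
  intro s t hs ht
  have e1 : ∀ x : Om × ℝ, (fun t : ℝ≥0 => XX (0 + t) x.1 - XX 0 x.1) =
      f (x.1.2.2.1, x.1.2.2.2) := by
    intro x
    funext t
    have h1 := t.coe_nonneg
    simp only [XX, two, f]
    rw [zero_add, neg_zero, Pth.zero, Pth.zero, Pth.of_nonpos _ (by linarith : -(t : ℝ) ≤ 0)]
    ring
  have e2 : ∀ x : Om × ℝ, (fun t : ℝ≥0 => XX (0 - t) x.1 - XX 0 x.1) =
      f (x.1.1, x.1.2.1) := by
    intro x
    funext t
    have h1 := t.coe_nonneg
    simp only [XX, two, f]
    rw [zero_sub, neg_neg, neg_zero, Pth.zero, Pth.zero, Pth.of_nonpos _ (by linarith : -(t : ℝ) ≤ 0)]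
    ring
  have h := hind s t hs ht
  have m1 : MeasurableSet ((fun y : (Pth × Pth) × (Pth × Pth) => f y.2) ⁻¹' s) :=
    (mf.comp measurable_snd) hs
  have m2 : MeasurableSet ((fun y : (Pth × Pth) × (Pth × Pth) => f y.1) ⁻¹' t) :=
    (mf.comp measurable_fst) ht
  rw [← hπ.measure_preimage (m1.inter m2).nullMeasurableSet,
    ← hπ.measure_preimage m1.nullMeasurableSet, ← hπ.measure_preimage m2.nullMeasurableSet] at h
  have e1' : (fun (x : Om × ℝ) (t : ℝ≥0) => XX (0 + t) x.1 - XX 0 x.1) =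
      (fun y : (Pth × Pth) × (Pth × Pth) => f y.2) ∘
        (fun x : Om × ℝ => ((x.1.1, x.1.2.1), (x.1.2.2.1, x.1.2.2.2))) := funext e1
  have e2' : (fun (x : Om × ℝ) (t : ℝ≥0) => XX (0 - t) x.1 - XX 0 x.1) =
      (fun y : (Pth × Pth) × (Pth × Pth) => f y.1) ∘
        (fun x : Om × ℝ => ((x.1.1, x.1.2.1), (x.1.2.2.1, x.1.2.2.2))) := funext e2
  rw [e1', e2']
  simp only [preimage_comp]
  exact h

end

end Pool.Agent.H4.BM
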